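import Pool.Agent.Lib.MP_daac75_pr.ChainP

/-!
# The probability that a block is bad
-/

open MeasureTheory ProbabilityTheory Finset

namespace Pool.Agent.Lib.MP_daac75_pr

variable {Ω : Type*} [MeasurableSpace Ω] {P : Measure Ω} {X : ℤ × ℤ → Ω → Fin 3} {p q : ℝ}

/-- the box with centre `z` and radius `m` -/
noncomputable def ball (z : ℤ × ℤ) (m : ℕ) : Finset (ℤ × ℤ) :=
  Finset.Icc (z.1 - m) (z.1 + m) ×ˢ Finset.Icc (z.2 - m) (z.2 + m)

lemma mem_ball {z x : ℤ × ℤ} {m : ℕ} : x ∈ ball z m ↔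
    (z.1 - m ≤ x.1 ∧ x.1 ≤ z.1 + m) ∧ z.2 - m ≤ x.2 ∧ x.2 ≤ z.2 + m := by
  unfold ball
  rw [Finset.mem_product, Finset.mem_Icc, Finset.mem_Icc]

lemma frame_mem_ball (f : Bool × Bool × Bool) {z x : ℤ × ℤ} {m : ℕ} (h1 : |x.1| ≤ m)
    (h2 : |x.2| ≤ m) : z + frame f x ∈ ball z m := by
  have := frame_box f ⟨h1, h2⟩
  rw [abs_le, abs_le] at this
  rw [mem_ball]
  simp only [Prod.fst_add, Prod.snd_add]
  omega

lemma chain_mono {c c' : ℤ × ℤ → Fin 3} {s b : ℤ} {n k : ℕ}
    (h1 : ∀ x ∈ chainSites s b n k, c x = 1 → c' x = 1)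
    (h2 : ∀ x ∈ chainSites s b n k, c' x = 2 → c x = 2) (hc : Chain c' s b n k) :
    Chain c s b n k := by
  induction hc with
  | zero => exact Chain.zero
  | @stay n k _ ih =>
    have hsub : ∀ x ∈ chainSites s b n k, x ∈ chainSites s b (n + 1) k := by
      intro x hx
      rw [mem_chainSites] at hx ⊢
      push_cast
      omega
    exact Chain.stay (ih (fun x hx => h1 x (hsub x hx)) fun x hx => h2 x (hsub x hx))
  | @drop n k d _ h3 h4 h5 ih =>
    have hsub : ∀ x ∈ chainSites s b n k, x ∈ chainSites s b (n + 1) (k + d) := by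
      intro x hx
      rw [mem_chainSites] at hx ⊢
      push_cast
      omega
    refine Chain.drop (ih (fun x hx => h1 x (hsub x hx)) fun x hx => h2 x (hsub x hx)) h3 ?_ ?_
    · refine h4.imp (h2 _ ?_) (h2 _ ?_)
      · rw [mem_chainSites]
        push_cast
        omega
      · rw [mem_chainSites]
        push_cast
        omega
    · intro t ht1 ht2 h6
      refine h5 t ht1 ht2 (h1 _ ?_ h6)
      rw [mem_chainSites]
      push_cast
      omega

lemma good_mono {c c' : ℤ × ℤ → Fin 3} {L : ℕ} {z : ℤ × ℤ} (hL : 1 ≤ L)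
    (h1 : ∀ x ∈ ball z (144 * L), c x = 1 → c' x = 1)
    (h2 : ∀ x ∈ ball z (144 * L), c' x = 2 → c x = 2) (hG : GoodAt c L z) : GoodAt c' L z := by
  have hb : ∀ x : ℤ × ℤ, |x.1| ≤ 144 * L → |x.2| ≤ 144 * L → z + x ∈ ball z (144 * L) := by
    intro x hx1 hx2
    rw [abs_le] at hx1 hx2
    rw [mem_ball]
    simp only [Prod.fst_add, Prod.snd_add]
    push_cast
    omega
  have hf : ∀ (f : Bool × Bool × Bool) (s t : ℤ), |s| ≤ 144 * L → |t| ≤ 144 * L →
      z + frame f (s, t) ∈ ball z (144 * L) := by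
    intro f s t h3 h4
    refine frame_mem_ball f ?_ ?_
    · push_cast; exact h3
    · push_cast; exact h4
  constructor
  · intro x y hx1 hx2 hy1 hy2 h3 h4
    exact hG.iso x y hx1 hx2 hy1 hy2 (h2 _ (hb x hx1 hx2) h3) (h2 _ (hb y hy1 hy2) h4)
  · intro f s t1 t2 hs ht1 ht2 ht h3 h4
    rw [abs_le] at hs ht1 ht2
    have h5 : ∀ t : ℤ, |t| ≤ 16 * L → (c' (z + frame f (s, t)) = 2 ∨ c' (z + frame f (s + 1, t)) = 2) →
        (c (z + frame f (s, t)) = 2 ∨ c (z + frame f (s + 1, t)) = 2) := by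
      intro t ht h
      rw [abs_le] at ht
      refine h.imp (h2 _ (hf f _ _ ?_ ?_)) (h2 _ (hf f _ _ ?_ ?_)) <;> rw [abs_le] <;>
        constructor <;> omega
    obtain ⟨t, hta, htb, htc⟩ := hG.gap f s t1 t2 (abs_le.mpr hs) (abs_le.mpr ht1)
      (abs_le.mpr ht2) ht (h5 t1 (abs_le.mpr ht1) h3) (h5 t2 (abs_le.mpr ht2) h4)
    refine ⟨t, hta, htb, h1 _ (hf f _ _ ?_ ?_) htc⟩ <;> rw [abs_le] <;> constructor <;> omega
  · intro f s t hs ht
    obtain ⟨t', hta, htb, htc⟩ := hG.seedy f s t hs ht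
    rw [abs_le] at hs ht
    refine ⟨t', hta, htb, h1 _ (hf f _ _ ?_ ?_) htc⟩ <;> rw [abs_le] <;> constructor <;> omega
  · intro f s b hs hb' n hn k hk1 hk2 hc
    refine hG.chain f s b hs hb' n hn k hk1 hk2 (chain_mono ?_ ?_ hc)
    all_goals
      rintro ⟨x1, x2⟩ hx
      rw [mem_chainSites] at hx
      rw [abs_le] at hs hb'
    · refine h1 _ (hf f _ _ ?_ ?_) <;> rw [abs_le] <;> constructor <;> omega
    · refine h2 _ (hf f _ _ ?_ ?_) <;> rw [abs_le] <;> constructor <;> omega

lemma dep_good {L : ℕ} (hL : 1 ≤ L) (z : ℤ × ℤ) :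
    Dep (ball z (144 * L)) fun c => GoodAt c L z := by
  intro c c' h hG
  exact good_mono hL (fun x hx h1 => by rw [← h x hx]; exact h1)
    (fun x hx h1 => by rw [h x hx]; exact h1) hG

/-- the range of coordinates -/
noncomputable def rg (L : ℕ) : Finset ℤ := Finset.Icc (-(16 * L : ℤ)) (16 * L)

lemma mem_rg {L : ℕ} {s : ℤ} : s ∈ rg L ↔ |s| ≤ 16 * L := by
  rw [rg, Finset.mem_Icc, abs_le]

lemma card_rg (L : ℕ) : (rg L).card = 32 * L + 1 := by
  rw [rg, Int.card_Icc]
  omega

lemma sum_geom_le {p : ℝ} (hp : 0 < p) (hp1 : p ≤ 1) (K : ℕ) :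
    ∑ i ∈ Finset.range K, (1 - p) ^ i ≤ 1 / p := by
  have h := mul_geom_sum (1 - p) K
  have h3 : 0 ≤ (1 - p) ^ K := pow_nonneg (by linarith) K
  rw [le_div_iff₀ hp]
  nlinarith

lemma IID.pr_gap (hX : IID P X p q) (hp : 0 < p) (L : ℕ) :
    pr P X (fun c => ¬ NoGap c (16 * L)) ≤ (32 * L + 1) ^ 2 * (4 * q ^ 2 / p) := by
  have hp1 := hX.hp1
  have hq := hX.hq
  have h1 : pr P X (fun c => ¬ NoGap c (16 * L)) ≤
      pr P X (fun c => ∃ s ∈ rg L, ∃ t ∈ rg L, ∃ e ∈ Finset.range (32 * L),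
        ∃ i ∈ Finset.range 2, ∃ j ∈ Finset.range 2,
        (c (s + i, t) = 2 ∧ c (s + j, t + e + 1) = 2 ∧
          ∀ y ∈ ({s + 1} : Finset ℤ) ×ˢ Finset.Ioc t (t + e), c y ≠ 1)) := by
    refine hX.pr_mono fun c hc => ?_
    unfold NoGap at hc
    push Not at hc
    obtain ⟨s, t1, t2, hs, ht1, ht2, ht, h1, h2, h3⟩ := hc
    refine ⟨s, mem_rg.mpr hs, t1, mem_rg.mpr ht1, (t2 - t1 - 1).toNat, ?_, ?_⟩
    · rw [abs_le] at ht1 ht2
      rw [Finset.mem_range]
      omega
    have e1 : t1 + ((t2 - t1 - 1).toNat : ℤ) = t2 - 1 := by omega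
    have e2 : t2 - 1 + 1 = t2 := by ring
    rw [e1, e2]
    have hno : ∀ y ∈ ({s + 1} : Finset ℤ) ×ˢ Finset.Ioc t1 (t2 - 1), c y ≠ 1 := by
      rintro ⟨y1, y2⟩ hy
      rw [Finset.mem_product, Finset.mem_singleton, Finset.mem_Ioc] at hy
      obtain ⟨rfl, hy1, hy2⟩ := hy
      exact h3 y2 hy1 (by simp only at hy2; omega)
    rcases h1 with h | h <;> rcases h2 with h' | h'
    · exact ⟨0, by simp, 0, by simp, by simpa using h, by simpa using h', hno⟩
    · exact ⟨0, by simp, 1, by simp, by simpa using h, by simpa using h', hno⟩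
    · exact ⟨1, by simp, 0, by simp, by simpa using h, by simpa using h', hno⟩
    · exact ⟨1, by simp, 1, by simp, by simpa using h, by simpa using h', hno⟩
  refine le_trans h1 ?_
  refine le_trans (pr_exists _ _) ?_
  have h2 : ∀ s ∈ rg L, pr P X (fun c => ∃ t ∈ rg L, ∃ e ∈ Finset.range (32 * L),
        ∃ i ∈ Finset.range 2, ∃ j ∈ Finset.range 2,
        (c (s + i, t) = 2 ∧ c (s + j, t + e + 1) = 2 ∧
          ∀ y ∈ ({s + 1} : Finset ℤ) ×ˢ Finset.Ioc t (t + e), c y ≠ 1)) ≤
      (32 * L + 1) * (4 * q ^ 2 / p) := by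
    intro s _
    refine le_trans (pr_exists _ _) ?_
    have h3 : ∀ t ∈ rg L, pr P X (fun c => ∃ e ∈ Finset.range (32 * L),
        ∃ i ∈ Finset.range 2, ∃ j ∈ Finset.range 2,
        (c (s + i, t) = 2 ∧ c (s + j, t + e + 1) = 2 ∧
          ∀ y ∈ ({s + 1} : Finset ℤ) ×ˢ Finset.Ioc t (t + e), c y ≠ 1)) ≤ 4 * q ^ 2 / p := by
      intro t _
      refine le_trans (pr_exists _ _) ?_
      have h4 : ∀ e ∈ Finset.range (32 * L), pr P X (fun c =>
          ∃ i ∈ Finset.range 2, ∃ j ∈ Finset.range 2,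
          (c (s + i, t) = 2 ∧ c (s + j, t + e + 1) = 2 ∧
          ∀ y ∈ ({s + 1} : Finset ℤ) ×ˢ Finset.Ioc t (t + e), c y ≠ 1)) ≤
          4 * q ^ 2 * (1 - p) ^ e := by
        intro e _
        refine le_trans (pr_exists _ _) ?_
        have h5 : ∀ i ∈ Finset.range 2, pr P X (fun c => ∃ j ∈ Finset.range 2,
          (c (s + i, t) = 2 ∧ c (s + j, t + e + 1) = 2 ∧
          ∀ y ∈ ({s + 1} : Finset ℤ) ×ˢ Finset.Ioc t (t + e), c y ≠ 1)) ≤
            2 * (q ^ 2 * (1 - p) ^ e) := by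
          intro i _
          refine le_trans (pr_exists _ _) ?_
          have h6 : ∀ j ∈ Finset.range 2, pr P X (fun c =>
              (c (s + i, t) = 2 ∧ c (s + j, t + e + 1) = 2 ∧
              ∀ y ∈ ({s + 1} : Finset ℤ) ×ˢ Finset.Ioc t (t + e), c y ≠ 1)) =
                q ^ 2 * (1 - p) ^ e := by
            intro j _
            have hF : (({s + 1} : Finset ℤ) ×ˢ Finset.Ioc t (t + e)).card = e := by
              rw [Finset.card_product, Finset.card_singleton, Int.card_Ioc]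
              omega
            rw [hX.pr_obst2, hF]
            · intro hcon
              have := congrArg Prod.snd hcon
              simp only at this
              omega
            · rw [Finset.mem_product, Finset.mem_Ioc]
              simp
            · rw [Finset.mem_product, Finset.mem_Ioc]
              simp only
              omega
          rw [Finset.sum_congr rfl h6, Finset.sum_const, Finset.card_range]
          simp
        refine le_trans (Finset.sum_le_sum h5) ?_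
        rw [Finset.sum_const, Finset.card_range]
        simp only [nsmul_eq_mul]
        push_cast
        linarith
      refine le_trans (Finset.sum_le_sum h4) ?_
      rw [← Finset.mul_sum]
      have := sum_geom_le hp hp1 (32 * L)
      calc 4 * q ^ 2 * ∑ i ∈ Finset.range (32 * L), (1 - p) ^ i ≤ 4 * q ^ 2 * (1 / p) := by gcongr
        _ = 4 * q ^ 2 / p := by ring
    refine le_trans (Finset.sum_le_sum h3) ?_
    rw [Finset.sum_const, card_rg]
    simp
  refine le_trans (Finset.sum_le_sum h2) ?_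
  rw [Finset.sum_const, card_rg]
  simp only [nsmul_eq_mul]
  push_cast
  apply le_of_eq
  ring

lemma IID.pr_seedy (hX : IID P X p q) (L : ℕ) :
    pr P X (fun c => ¬ Seedy c L (16 * L)) ≤ (32 * L + 1) ^ 2 * (1 - p) ^ L := by
  have h1 : pr P X (fun c => ¬ Seedy c L (16 * L)) ≤
      pr P X (fun c => ∃ s ∈ rg L, ∃ t ∈ rg L,
        ∀ y ∈ ({s} : Finset ℤ) ×ˢ Finset.Ico t (t + L), c y ≠ 1) := by
    refine hX.pr_mono fun c hc => ?_
    unfold Seedy at hc
    push Not at hc
    obtain ⟨s, t, hs, ht, h⟩ := hc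
    refine ⟨s, mem_rg.mpr hs, t, mem_rg.mpr ht, ?_⟩
    rintro ⟨y1, y2⟩ hy
    rw [Finset.mem_product, Finset.mem_singleton, Finset.mem_Ico] at hy
    obtain ⟨rfl, hy1, hy2⟩ := hy
    exact h y2 hy1 hy2
  refine le_trans h1 (le_trans (pr_exists _ _) ?_)
  have h2 : ∀ s ∈ rg L, pr P X (fun c => ∃ t ∈ rg L,
        ∀ y ∈ ({s} : Finset ℤ) ×ˢ Finset.Ico t (t + L), c y ≠ 1) ≤
      (32 * L + 1) * (1 - p) ^ L := by
    intro s _
    refine le_trans (pr_exists _ _) ?_
    have h3 : ∀ t ∈ rg L, pr P X (fun c =>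
        ∀ y ∈ ({s} : Finset ℤ) ×ˢ Finset.Ico t (t + L), c y ≠ 1) = (1 - p) ^ L := by
      intro t _
      rw [hX.pr_not_one, Finset.card_product, Finset.card_singleton, Int.card_Ico]
      congr 1
      omega
    rw [Finset.sum_congr rfl h3, Finset.sum_const, card_rg]
    simp
  refine le_trans (Finset.sum_le_sum h2) ?_
  rw [Finset.sum_const, card_rg]
  simp only [nsmul_eq_mul]
  push_cast
  apply le_of_eq
  ring

lemma IID.pr_chain (hX : IID P X p q) (hp : 0 < p) (L : ℕ) :
    pr P X (fun c => ¬ ChainFree c L (16 * L)) ≤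
      (32 * L + 1) ^ 2 * ((8 * L + 1) * (3 * L + 1) *
        ((1 - p / 2) ^ L * (1 + 4 * q / p) ^ (8 * L))) := by
  have hp1 := hX.hp1
  have hq := hX.hq
  have h1 : pr P X (fun c => ¬ ChainFree c L (16 * L)) ≤
      pr P X (fun c => ∃ s ∈ rg L, ∃ b ∈ rg L, ∃ n ∈ Finset.range (8 * L + 1),
        ∃ k ∈ Finset.Icc L (4 * L), Chain c s b n k) := by
    refine hX.pr_mono fun c hc => ?_
    unfold ChainFree at hc
    push Not at hc
    obtain ⟨s, b, hs, hb, n, hn, k, hk1, hk2, h⟩ := hc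
    exact ⟨s, mem_rg.mpr hs, b, mem_rg.mpr hb, n, Finset.mem_range.mpr (by omega), k,
      Finset.mem_Icc.mpr ⟨hk1, hk2⟩, h⟩
  refine le_trans h1 (le_trans (pr_exists _ _) ?_)
  set B := (1 - p / 2) ^ L * (1 + 4 * q / p) ^ (8 * L) with hB
  have hA : 0 ≤ 4 * q / p := by positivity
  have h2 : ∀ s ∈ rg L, pr P X (fun c => ∃ b ∈ rg L, ∃ n ∈ Finset.range (8 * L + 1),
        ∃ k ∈ Finset.Icc L (4 * L), Chain c s b n k) ≤
      (32 * L + 1) * ((8 * L + 1) * (3 * L + 1) * B) := by
    intro s _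
    refine le_trans (pr_exists _ _) ?_
    have h3 : ∀ b ∈ rg L, pr P X (fun c => ∃ n ∈ Finset.range (8 * L + 1),
        ∃ k ∈ Finset.Icc L (4 * L), Chain c s b n k) ≤ (8 * L + 1) * (3 * L + 1) * B := by
      intro b _
      refine le_trans (pr_exists _ _) ?_
      have h4 : ∀ n ∈ Finset.range (8 * L + 1), pr P X (fun c =>
          ∃ k ∈ Finset.Icc L (4 * L), Chain c s b n k) ≤ (3 * L + 1) * B := by
        intro n hn
        rw [Finset.mem_range] at hn
        refine le_trans (pr_exists _ _) ?_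
        have h5 : ∀ k ∈ Finset.Icc L (4 * L), pr P X (fun c => Chain c s b n k) ≤ B := by
          intro k hk
          rw [Finset.mem_Icc] at hk
          refine le_trans (hX.chain_bound hp s b n k) ?_
          rw [hB]
          have h6 : (1 - p / 2) ^ k ≤ (1 - p / 2) ^ L :=
            pow_le_pow_of_le_one (by linarith) (by linarith) hk.1
          have h7 : (1 + 4 * q / p) ^ n ≤ (1 + 4 * q / p) ^ (8 * L) :=
            pow_le_pow_right₀ (by linarith) (by omega)
          have h8 : 0 ≤ (1 - p / 2) ^ L := pow_nonneg (by linarith) L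
          gcongr
        refine le_trans (Finset.sum_le_sum h5) ?_
        rw [Finset.sum_const, Nat.card_Icc]
        have e : 4 * L + 1 - L = 3 * L + 1 := by omega
        rw [e]
        simp
      refine le_trans (Finset.sum_le_sum h4) ?_
      rw [Finset.sum_const, Finset.card_range]
      simp only [nsmul_eq_mul]
      push_cast
      apply le_of_eq
      ring
    refine le_trans (Finset.sum_le_sum h3) ?_
    rw [Finset.sum_const, card_rg]
    simp
  refine le_trans (Finset.sum_le_sum h2) ?_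
  rw [Finset.sum_const, card_rg]
  simp only [nsmul_eq_mul]
  push_cast
  apply le_of_eq
  ring

/-- the bound for the probability that a block is bad -/
noncomputable def badBound (p q : ℝ) (L : ℕ) : ℝ :=
  (288 * L + 1) ^ 2 * (25 * q ^ 2) + 8 * ((32 * L + 1) ^ 2 * (4 * q ^ 2 / p) +
    (32 * L + 1) ^ 2 * (1 - p) ^ L + (32 * L + 1) ^ 2 * ((8 * L + 1) * (3 * L + 1) *
      ((1 - p / 2) ^ L * (1 + 4 * q / p) ^ (8 * L))))

lemma IID.pr_bad (hX : IID P X p q) (hp : 0 < p) {L : ℕ} (z : ℤ × ℤ) :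
    pr P X (fun c => ¬ GoodAt c L z) ≤ badBound p q L := by
  have hq := hX.hq
  set D : Finset (ℤ × ℤ) := (Finset.Icc (-2 : ℤ) 2 ×ˢ Finset.Icc (-2 : ℤ) 2).erase (0, 0) with hD
  have hDc : (D.card : ℝ) ≤ 25 := by
    have : D.card ≤ 25 := by
      refine le_trans (Finset.card_erase_le) ?_
      rw [Finset.card_product, Int.card_Icc]
      decide
    exact_mod_cast this
  have h1 : pr P X (fun c => ¬ GoodAt c L z) ≤
      pr P X (fun c => (∃ x ∈ ball (0, 0) (144 * L), ∃ y ∈ D, ∀ w ∈ ({z + x, z + x + y} :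
        Finset (ℤ × ℤ)), c w = 2) ∨
        ∃ f ∈ (Finset.univ : Finset (Bool × Bool × Bool)),
          (¬ NoGap (fun x => c (z + frame f x)) (16 * L) ∨
          ¬ Seedy (fun x => c (z + frame f x)) L (16 * L) ∨
          ¬ ChainFree (fun x => c (z + frame f x)) L (16 * L))) := by
    refine hX.pr_mono fun c hc => ?_
    by_contra hcon
    push Not at hcon
    obtain ⟨h1, h2⟩ := hcon
    apply hc
    constructor
    · intro x y hx1 hx2 hy1 hy2 h3 h4 h5 ⟨h6, h7⟩
      obtain ⟨w, hw, hw'⟩ := h1 x (by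
        rw [abs_le] at hx1 hx2
        rw [mem_ball]
        push_cast
        omega) (y - x) (by
        rw [abs_le] at h6 h7
        rw [hD, Finset.mem_erase, Finset.mem_product, Finset.mem_Icc, Finset.mem_Icc]
        refine ⟨?_, ?_⟩
        · intro h
          exact h5 (sub_eq_zero.mp h).symm
        · simp only [Prod.fst_sub, Prod.snd_sub]
          omega)
      rw [Finset.mem_insert, Finset.mem_singleton] at hw
      rcases hw with rfl | rfl
      · exact hw' h3
      · apply hw'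
        rw [← h4]
        congr 1
        abel
    · exact fun f => (h2 f (Finset.mem_univ f)).1
    · exact fun f => (h2 f (Finset.mem_univ f)).2.1
    · exact fun f => (h2 f (Finset.mem_univ f)).2.2
  refine le_trans h1 (le_trans pr_or ?_)
  unfold badBound
  refine add_le_add ?_ ?_
  · refine le_trans (pr_exists _ _) ?_
    have h2 : ∀ x ∈ ball (0, 0) (144 * L), pr P X (fun c => ∃ y ∈ D,
        ∀ w ∈ ({z + x, z + x + y} : Finset (ℤ × ℤ)), c w = 2) ≤ 25 * q ^ 2 := by
      intro x _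
      refine le_trans (pr_exists _ _) ?_
      have h3 : ∀ y ∈ D, pr P X (fun c =>
          ∀ w ∈ ({z + x, z + x + y} : Finset (ℤ × ℤ)), c w = 2) = q ^ 2 := by
        intro y hy
        rw [hX.pr_two, Finset.card_pair]
        intro hcon
        have : y = 0 := by
          have := congrArg (fun a => a - (z + x)) hcon
          simpa using this.symm
        rw [hD, Finset.mem_erase] at hy
        exact hy.1 this
      rw [Finset.sum_congr rfl h3, Finset.sum_const, nsmul_eq_mul]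
      gcongr
    refine le_trans (Finset.sum_le_sum h2) ?_
    rw [Finset.sum_const, nsmul_eq_mul]
    apply le_of_eq
    congr 1
    unfold ball
    rw [Finset.card_product, Int.card_Icc]
    have e : ((0 : ℤ) + ((144 * L : ℕ) : ℤ) + 1 - (0 - ((144 * L : ℕ) : ℤ))).toNat =
      288 * L + 1 := by omega
    rw [e]
    push_cast
    ring
  · refine le_trans (pr_exists _ _) ?_
    have h2 : ∀ f ∈ (Finset.univ : Finset (Bool × Bool × Bool)), pr P X (fun c =>
        (¬ NoGap (fun x => c (z + frame f x)) (16 * L) ∨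
          ¬ Seedy (fun x => c (z + frame f x)) L (16 * L) ∨
          ¬ ChainFree (fun x => c (z + frame f x)) L (16 * L))) ≤
        (32 * L + 1) ^ 2 * (4 * q ^ 2 / p) +
          (32 * L + 1) ^ 2 * (1 - p) ^ L + (32 * L + 1) ^ 2 * ((8 * L + 1) * (3 * L + 1) *
          ((1 - p / 2) ^ L * (1 + 4 * q / p) ^ (8 * L))) := by
      intro f _
      have hY : IID P (fun x => X (z + frame f x)) p q :=
        hX.comp (fun x y h => frame_inj f (add_left_cancel h))
      refine le_trans pr_or ?_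
      rw [add_assoc]
      refine add_le_add (hY.pr_gap hp L) (le_trans pr_or ?_)
      exact add_le_add (hY.pr_seedy L) (hY.pr_chain hp L)
    refine le_trans (Finset.sum_le_sum h2) ?_
    rw [Finset.sum_const, nsmul_eq_mul]
    apply le_of_eq
    congr 1

end Pool.Agent.Lib.MP_daac75_pr
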