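import Pool.Agent.Lib.MP_daac75_pr.Grow

/-!
# Good blocks
-/

open Finset

namespace Pool.Agent.Lib.MP_daac75_pr

/-- there are no chains with large drop -/
def ChainFree (c : ℤ × ℤ → Fin 3) (L : ℕ) (M : ℤ) : Prop :=
  ∀ s b : ℤ, |s| ≤ M → |b| ≤ M → ∀ n ≤ 8 * L, ∀ k, L ≤ k → k ≤ 4 * L → ¬ Chain c s b n k

/-- growth of a full segment for several steps -/
lemma grow_many {c : ℤ × ℤ → Fin 3} {O : ℤ × ℤ → Prop} {M : ℤ} {L : ℕ} (hL : 1 ≤ L)
    (R : Rules c O M)
    (hg : NoGap c M) (hsd : Seedy c L M) (hch : ChainFree c L M)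
    (hch' : ChainFree (fun x => c (x.1, -x.2)) L M) {s a b : ℤ} (hs : 0 ≤ s)
    (ha : -M ≤ a) (hb : b < M) (hab : a + 4 * L ≤ b) (hf : Full c O s a b) {n : ℕ}
    (hn : n ≤ 8 * L) (hsn : s + n ≤ M) : Full c O (s + n) (a + L) (b - L) := by
  have key : ∃ k k' : ℕ, k < L ∧ k' < L ∧ Chain c s b n k ∧
      Chain (fun x => c (x.1, -x.2)) s (-a) n k' ∧ Full c O (s + n) (a + k') (b - k) := by
    induction n with
    | zero =>
      refine ⟨0, 0, hL, hL, Chain.zero, Chain.zero, ?_⟩
      simpa using hf
    | succ n ih =>
      push_cast at hsn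
      obtain ⟨k, k', hk, hk', h1, h2, h3⟩ := ih (by omega) (by omega)
      obtain ⟨d, d', hd, hd', h4, h5, h6⟩ := grow_step R hg hsd (s := s + n) (a := a + k')
        (b := b - k) (abs_le.mpr ⟨by omega, by omega⟩) (abs_le.mpr ⟨by omega, by omega⟩)
        (by omega) (by omega) (by omega) h3
      have hc1 : Chain c s b (n + 1) (k + d) := by
        rcases h4 with h | ⟨h7, h8, h9⟩
        · subst h
          exact Chain.stay h1
        · exact Chain.drop h1 h7 h8 h9
      have hc2 : Chain (fun x => c (x.1, -x.2)) s (-a) (n + 1) (k' + d') := by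
        rcases h5 with h | ⟨h7, h8, h9⟩
        · subst h
          exact Chain.stay h2
        · refine Chain.drop h2 h7 ?_ ?_
          · simp only
            have e : -(-a - (k' : ℤ) - d' + 1) = a + k' + d' - 1 := by ring
            rw [e]
            exact h8
          · intro t ht1 ht2
            simp only
            exact h9 (-t) (by omega) (by omega)
      have hk1 : k + d < L := by
        by_contra hcon
        exact hch s b (abs_le.mpr ⟨by omega, by omega⟩) (abs_le.mpr ⟨by omega, by omega⟩)
          (n + 1) hn (k + d) (by omega) (by omega) hc1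
      have hk2 : k' + d' < L := by
        by_contra hcon
        exact hch' s (-a) (abs_le.mpr ⟨by omega, by omega⟩) (abs_le.mpr ⟨by omega, by omega⟩)
          (n + 1) hn (k' + d') (by omega) (by omega) hc2
      refine ⟨k + d, k' + d', hk1, hk2, hc1, hc2, ?_⟩
      have e1 : s + ((n + 1 : ℕ) : ℤ) = s + n + 1 := by push_cast; ring
      have e2 : a + ((k' + d' : ℕ) : ℤ) = a + k' + d' := by push_cast; ring
      have e3 : b - ((k + d : ℕ) : ℤ) = b - k - d := by push_cast; ring
      rw [e1, e2, e3]
      exact h6
  obtain ⟨k, k', hk, hk', -, -, h⟩ := key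
  intro t ht1 ht2
  exact h t (by omega) (by omega)

/-- the eight frames -/
def frame (f : Bool × Bool × Bool) (x : ℤ × ℤ) : ℤ × ℤ :=
  (if f.2.1 then -(if f.1 then x.2 else x.1) else (if f.1 then x.2 else x.1),
    if f.2.2 then -(if f.1 then x.1 else x.2) else (if f.1 then x.1 else x.2))

/-- the reflected frame -/
def refl (f : Bool × Bool × Bool) : Bool × Bool × Bool :=
  if f.1 then (f.1, !f.2.1, f.2.2) else (f.1, f.2.1, !f.2.2)

lemma frame_refl (f : Bool × Bool × Bool) (x : ℤ × ℤ) :
    frame f (x.1, -x.2) = frame (refl f) x := by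
  obtain ⟨a, b, c⟩ := f
  cases a <;> cases b <;> cases c <;> simp [frame, refl]

lemma frame_inj (f : Bool × Bool × Bool) : Function.Injective (frame f) := by
  obtain ⟨a, b, c⟩ := f
  rintro ⟨x1, x2⟩ ⟨y1, y2⟩ h
  cases a <;> cases b <;> cases c <;> simp [frame] at h ⊢ <;> tauto

lemma frame_nbrs (f : Bool × Bool × Bool) (z x y : ℤ × ℤ) (h : y ∈ nbrs x) :
    z + frame f y ∈ nbrs (z + frame f x) := by
  obtain ⟨a, b, c⟩ := f
  obtain ⟨z1, z2⟩ := z
  obtain ⟨x1, x2⟩ := x
  rw [mem_nbrs] at h ⊢
  rcases h with h | h | h | h <;> rw [h] <;> cases a <;> cases b <;> cases c <;>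
    simp [frame] <;> omega

lemma frame_box (f : Bool × Bool × Bool) {M : ℤ} {x : ℤ × ℤ} (h : |x.1| ≤ M ∧ |x.2| ≤ M) :
    |(frame f x).1| ≤ M ∧ |(frame f x).2| ≤ M := by
  obtain ⟨a, b, c⟩ := f
  cases a <;> cases b <;> cases c <;> simp [frame, h.1, h.2]

/-- the block with centre `z` is good -/
structure GoodAt (ξ : ℤ × ℤ → Fin 3) (L : ℕ) (z : ℤ × ℤ) : Prop where
  iso : ∀ x y : ℤ × ℤ, |x.1| ≤ 144 * L → |x.2| ≤ 144 * L → |y.1| ≤ 144 * L → |y.2| ≤ 144 * L →
    ξ (z + x) = 2 → ξ (z + y) = 2 → x ≠ y → ¬ (|x.1 - y.1| ≤ 2 ∧ |x.2 - y.2| ≤ 2)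
  gap : ∀ f, NoGap (fun x => ξ (z + frame f x)) (16 * L)
  seedy : ∀ f, Seedy (fun x => ξ (z + frame f x)) L (16 * L)
  chain : ∀ f, ChainFree (fun x => ξ (z + frame f x)) L (16 * L)

variable {ξ : ℤ × ℤ → Fin 3} {L : ℕ} {z : ℤ × ℤ} {O : ℤ × ℤ → Prop}

lemma rules_frame (f : Bool × Bool × Bool) {M : ℤ}
    (hR : Rules (fun x => ξ (z + x)) (fun x => O (z + x)) M) :
    Rules (fun x => ξ (z + frame f x)) (fun x => O (z + frame f x)) M := by
  constructor
  · intro x h1 h2 h3
    have := frame_box f ⟨h1, h2⟩
    exact hR.seed (frame f x) this.1 this.2 h3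
  · intro x y w h1 h2 h3 h4 h5 h6 h7 h8
    have hb := frame_box f ⟨h1, h2⟩
    have key : ∀ y, y ∈ nbrs x → frame f y ∈ nbrs (frame f x) := by
      intro y hy
      have := frame_nbrs f 0 x y hy
      simpa using this
    exact hR.fill (frame f x) (frame f y) (frame f w) hb.1 hb.2 h3 (key y h4) (key w h5)
      (fun h => h6 (frame_inj f h)) h7 h8

lemma grow_dir (hL : 1 ≤ L) (hG : GoodAt ξ L z)
    (hR : Rules (fun x => ξ (z + x)) (fun x => O (z + x)) (16 * L))
    (f : Bool × Bool × Bool) {s a b : ℤ} (hs : 0 ≤ s)
    (ha : -(16 * L) ≤ a) (hb : b < 16 * L) (hab : a + 4 * L ≤ b)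
    (hf : ∀ t, a ≤ t → t ≤ b → ξ (z + frame f (s, t)) ≠ 2 → O (z + frame f (s, t)))
    {s' t : ℤ} (hs1 : s ≤ s') (hs2 : s' ≤ s + 8 * L) (hs3 : s' ≤ 16 * L)
    (ht1 : a + L ≤ t) (ht2 : t ≤ b - L)
    (hc : ξ (z + frame f (s', t)) ≠ 2) : O (z + frame f (s', t)) := by
  have hch' : ChainFree (fun x : ℤ × ℤ => ξ (z + frame f (x.1, -x.2))) L (16 * L) := by
    have := hG.chain (refl f)
    simp only [← frame_refl] at this
    exact this
  have := grow_many hL (rules_frame f hR) (hG.gap f) (hG.seedy f) (hG.chain f) hch' hs ha hb hab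
    hf (n := (s' - s).toNat) (by omega) (by omega)
  have e : s + ((s' - s).toNat : ℤ) = s' := by omega
  rw [e] at this
  exact this t ht1 ht2 hc

/-- A good block which is full makes its neighbours full. -/
lemma transfer (hL : 1 ≤ L) (hG : GoodAt ξ L z)
    (hR : Rules (fun x => ξ (z + x)) (fun x => O (z + x)) (16 * L))
    (hfull : ∀ x : ℤ × ℤ, |x.1| ≤ 4 * L → |x.2| ≤ 4 * L → ξ (z + x) ≠ 2 → O (z + x)) :
    ∀ x : ℤ × ℤ, |x.1| ≤ 8 * L → |x.2| ≤ 8 * L → ξ (z + x) ≠ 2 → O (z + x) := by
  have hL' : (1 : ℤ) ≤ L := by exact_mod_cast hL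
  -- horizontal growth
  have h1 : ∀ x : ℤ × ℤ, |x.1| ≤ 12 * L → |x.2| ≤ 3 * L → ξ (z + x) ≠ 2 → O (z + x) := by
    intro x hx1 hx2 hc
    rcases le_or_gt |x.1| (4 * L) with h | h
    · exact hfull x h (by omega) hc
    · rw [abs_le] at hx1 hx2
      rcases lt_abs.mp h with h | h
      · have e : ∀ s t : ℤ, frame (false, false, false) (s, t) = (s, t) := by
          intro s t; simp [frame]
        have := grow_dir hL hG hR (false, false, false) (s := 4 * L) (a := -(4 * L))
          (b := 4 * L) (by omega) (by omega) (by omega) (by omega) (by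
            intro t ht1 ht2
            rw [e]
            exact hfull _ (by rw [abs_le]; constructor <;> simp only <;> omega)
              (by rw [abs_le]; constructor <;> simp only <;> omega))
          (s' := x.1) (t := x.2) (by omega) (by omega) (by omega) (by omega) (by omega)
        rw [e] at this
        exact this hc
      · have e : ∀ s t : ℤ, frame (false, true, false) (s, t) = (-s, t) := by
          intro s t; simp [frame]
        have := grow_dir hL hG hR (false, true, false) (s := 4 * L) (a := -(4 * L))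
          (b := 4 * L) (by omega) (by omega) (by omega) (by omega) (by
            intro t ht1 ht2
            rw [e]
            exact hfull _ (by rw [abs_le]; constructor <;> simp only <;> omega)
              (by rw [abs_le]; constructor <;> simp only <;> omega))
          (s' := -x.1) (t := x.2) (by omega) (by omega) (by omega) (by omega) (by omega)
        rw [e, neg_neg] at this
        exact this hc
  -- vertical growth
  intro x hx1 hx2 hc
  rcases le_or_gt |x.2| (3 * L) with h | h
  · exact h1 x (by omega) h hc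
  · rw [abs_le] at hx1 hx2
    rcases lt_abs.mp h with h | h
    · have e : ∀ s t : ℤ, frame (true, false, false) (s, t) = (t, s) := by
        intro s t; simp [frame]
      have := grow_dir hL hG hR (true, false, false) (s := 3 * L) (a := -(12 * L))
        (b := 12 * L) (by omega) (by omega) (by omega) (by omega) (by
          intro t ht1 ht2
          rw [e]
          exact h1 _ (by rw [abs_le]; constructor <;> simp only <;> omega)
            (by rw [abs_le]; constructor <;> simp only <;> omega))
        (s' := x.2) (t := x.1) (by omega) (by omega) (by omega) (by omega) (by omega)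
      rw [e] at this
      exact this hc
    · have e : ∀ s t : ℤ, frame (true, false, true) (s, t) = (t, -s) := by
        intro s t; simp [frame]
      have := grow_dir hL hG hR (true, false, true) (s := 3 * L) (a := -(12 * L))
        (b := 12 * L) (by omega) (by omega) (by omega) (by omega) (by
          intro t ht1 ht2
          rw [e]
          exact h1 _ (by rw [abs_le]; constructor <;> simp only <;> omega)
            (by rw [abs_le]; constructor <;> simp only <;> omega))
        (s' := -x.2) (t := x.1) (by omega) (by omega) (by omega) (by omega) (by omega)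
      rw [e, neg_neg] at this
      exact this hc

/-- A full horizontal segment in a good block makes the block full. -/
lemma nucleate (hL : 1 ≤ L) (hG : GoodAt ξ L z)
    (hR : Rules (fun x => ξ (z + x)) (fun x => O (z + x)) (16 * L))
    (hfull : ∀ x : ℤ, |x| ≤ 4 * L → O (z + (x, 0))) :
    ∀ x : ℤ × ℤ, |x.1| ≤ 4 * L → |x.2| ≤ 4 * L → ξ (z + x) ≠ 2 → O (z + x) := by
  have hL' : (1 : ℤ) ≤ L := by exact_mod_cast hL
  -- vertical growth
  have h1 : ∀ x : ℤ × ℤ, |x.1| ≤ 3 * L → |x.2| ≤ 8 * L → ξ (z + x) ≠ 2 → O (z + x) := by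
    intro x hx1 hx2 hc
    rw [abs_le] at hx1 hx2
    rcases le_total 0 x.2 with h | h
    · have e : ∀ s t : ℤ, frame (true, false, false) (s, t) = (t, s) := by
        intro s t; simp [frame]
      have := grow_dir hL hG hR (true, false, false) (s := 0) (a := -(4 * L))
        (b := 4 * L) (by omega) (by omega) (by omega) (by omega) (by
          intro t ht1 ht2 _
          rw [e]
          exact hfull _ (by rw [abs_le]; constructor <;> omega))
        (s' := x.2) (t := x.1) (by omega) (by omega) (by omega) (by omega) (by omega)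
      rw [e] at this
      exact this hc
    · have e : ∀ s t : ℤ, frame (true, false, true) (s, t) = (t, -s) := by
        intro s t; simp [frame]
      have := grow_dir hL hG hR (true, false, true) (s := 0) (a := -(4 * L))
        (b := 4 * L) (by omega) (by omega) (by omega) (by omega) (by
          intro t ht1 ht2 _
          rw [e, neg_zero]
          exact hfull _ (by rw [abs_le]; constructor <;> omega))
        (s' := -x.2) (t := x.1) (by omega) (by omega) (by omega) (by omega) (by omega)
      rw [e, neg_neg] at this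
      exact this hc
  -- horizontal growth
  intro x hx1 hx2 hc
  rcases le_or_gt |x.1| (3 * L) with h | h
  · exact h1 x h (by omega) hc
  · rw [abs_le] at hx1 hx2
    rcases lt_abs.mp h with h | h
    · have e : ∀ s t : ℤ, frame (false, false, false) (s, t) = (s, t) := by
        intro s t; simp [frame]
      have := grow_dir hL hG hR (false, false, false) (s := 3 * L) (a := -(8 * L))
        (b := 8 * L) (by omega) (by omega) (by omega) (by omega) (by
          intro t ht1 ht2
          rw [e]
          exact h1 _ (by rw [abs_le]; constructor <;> simp only <;> omega)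
            (by rw [abs_le]; constructor <;> simp only <;> omega))
        (s' := x.1) (t := x.2) (by omega) (by omega) (by omega) (by omega) (by omega)
      rw [e] at this
      exact this hc
    · have e : ∀ s t : ℤ, frame (false, true, false) (s, t) = (-s, t) := by
        intro s t; simp [frame]
      have := grow_dir hL hG hR (false, true, false) (s := 3 * L) (a := -(8 * L))
        (b := 8 * L) (by omega) (by omega) (by omega) (by omega) (by
          intro t ht1 ht2
          rw [e]
          exact h1 _ (by rw [abs_le]; constructor <;> simp only <;> omega)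
            (by rw [abs_le]; constructor <;> simp only <;> omega))
        (s' := -x.1) (t := x.2) (by omega) (by omega) (by omega) (by omega) (by omega)
      rw [e, neg_neg] at this
      exact this hc

end Pool.Agent.Lib.MP_daac75_pr
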