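import Pool.Agent.Lib.MP_daac75_pr.Iid
import Pool.Agent.Lib.MP_daac75_pr.Good

/-!
# The probability of chains of losses
-/

open MeasureTheory ProbabilityTheory Finset

namespace Pool.Agent.Lib.MP_daac75_pr

variable {Ω : Type*} [MeasurableSpace Ω] {P : Measure Ω} {X : ℤ × ℤ → Ω → Fin 3} {p q : ℝ}

/-- the sites on which a chain depends -/
noncomputable def chainSites (s b : ℤ) (n k : ℕ) : Finset (ℤ × ℤ) :=
  Finset.Icc s (s + n) ×ˢ Finset.Ioc (b - k) b

lemma mem_chainSites {s b : ℤ} {n k : ℕ} {x : ℤ × ℤ} : x ∈ chainSites s b n k ↔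
    (s ≤ x.1 ∧ x.1 ≤ s + n) ∧ b - k < x.2 ∧ x.2 ≤ b := by
  unfold chainSites
  rw [Finset.mem_product, Finset.mem_Icc, Finset.mem_Ioc]

lemma dep_chain (s b : ℤ) (n k : ℕ) : Dep (chainSites s b n k) fun c => Chain c s b n k := by
  intro c c' h hc
  induction hc with
  | zero => exact Chain.zero
  | @stay n k _ ih =>
    refine Chain.stay (ih fun x hx => h x ?_)
    rw [mem_chainSites] at hx ⊢
    push_cast
    omega
  | @drop n k d _ h1 h2 h3 ih =>
    refine Chain.drop (ih fun x hx => h x ?_) h1 ?_ ?_
    · rw [mem_chainSites] at hx ⊢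
      push_cast
      omega
    · refine h2.imp ?_ ?_
      · intro h4
        rw [← h _ _]
        · exact h4
        · rw [mem_chainSites]
          push_cast
          omega
      · intro h4
        rw [← h _ _]
        · exact h4
        · rw [mem_chainSites]
          push_cast
          omega
    · intro t ht1 ht2
      rw [← h _ _]
      · exact h3 t ht1 ht2
      · rw [mem_chainSites]
        push_cast
        omega

lemma chain_cases {c : ℤ × ℤ → Fin 3} {s b : ℤ} {n k : ℕ} (h : Chain c s b (n + 1) k) :
    Chain c s b n k ∨ ∃ i ∈ Finset.range k, ∃ e ∈ Finset.range 2,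
      Chain c s b n (k - (i + 1)) ∧ c (s + n + e, b - k + 1) = 2 ∧
        ∀ y ∈ ({s + n + 1} : Finset ℤ) ×ˢ Finset.Ioc (b - k + 1) (b - k + 1 + i), c y ≠ 1 := by
  generalize hm : n + 1 = m at h
  cases h with
  | zero => omega
  | @stay n' k h1 =>
    obtain rfl : n = n' := by omega
    exact Or.inl h1
  | @drop n' k d h1 h2 h3 h4 =>
    obtain rfl : n = n' := by omega
    right
    refine ⟨d - 1, Finset.mem_range.mpr (by omega), ?_⟩
    have e1 : k + d - (d - 1 + 1) = k := by omega
    have e2 : b - ((k + d : ℕ) : ℤ) + 1 = b - k - d + 1 := by push_cast; ring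
    have hno : ∀ y ∈ ({s + n + 1} : Finset ℤ) ×ˢ
        Finset.Ioc (b - ((k + d : ℕ) : ℤ) + 1) (b - ((k + d : ℕ) : ℤ) + 1 + (d - 1 : ℕ)),
        c y ≠ 1 := by
      rintro ⟨y1, y2⟩ hy
      rw [Finset.mem_product, Finset.mem_singleton, Finset.mem_Ioc] at hy
      obtain ⟨rfl, hy1, hy2⟩ := hy
      push_cast at hy1 hy2
      exact h4 y2 (by omega) (by omega)
    rcases h3 with h | h
    · refine ⟨0, by simp, ?_, ?_, hno⟩
      · rw [e1]; exact h1
      · rw [e2]
        simpa using h
    · refine ⟨1, by simp, ?_, ?_, hno⟩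
      · rw [e1]; exact h1
      · rw [e2]
        simpa using h

lemma IID.chain_bound (hX : IID P X p q) (hp : 0 < p) (s b : ℤ) (n k : ℕ) :
    pr P X (fun c => Chain c s b n k) ≤ (1 - p / 2) ^ k * (1 + 4 * q / p) ^ n := by
  have hp1 := hX.hp1
  have hq := hX.hq
  have hz : 0 ≤ 1 - p / 2 := by linarith
  have hA : 0 ≤ 4 * q / p := by positivity
  induction n generalizing k with
  | zero =>
    rcases Nat.eq_zero_or_pos k with hk | hk
    · subst hk
      simp only [pow_zero, mul_one]
      exact hX.pr_le_one
    · have : pr P X (fun c => Chain c s b 0 k) = 0 := by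
        rw [← pr_false (P := P) (X := X)]
        refine IID.pr_congr fun c => ?_
        constructor
        · intro h
          cases h
          omega
        · exact False.elim
      rw [this]
      positivity
  | succ n ih =>
    set z := 1 - p / 2 with hzd
    set A := 1 + 4 * q / p with hAd
    have step : pr P X (fun c => Chain c s b (n + 1) k) ≤ pr P X (fun c => Chain c s b n k) +
        ∑ i ∈ Finset.range k, ∑ e ∈ Finset.range 2,
          pr P X (fun c => Chain c s b n (k - (i + 1)) ∧ (c (s + n + e, b - k + 1) = 2 ∧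
            ∀ y ∈ ({s + n + 1} : Finset ℤ) ×ˢ Finset.Ioc (b - k + 1) (b - k + 1 + i),
              c y ≠ 1)) := by
      refine le_trans (hX.pr_mono fun c => chain_cases) ?_
      refine le_trans pr_or ?_
      gcongr
      refine le_trans (pr_exists _ _) ?_
      gcongr
      exact pr_exists _ _
    have hterm : ∀ i ∈ Finset.range k, ∀ e ∈ Finset.range 2,
        pr P X (fun c => Chain c s b n (k - (i + 1)) ∧ (c (s + n + e, b - k + 1) = 2 ∧
            ∀ y ∈ ({s + n + 1} : Finset ℤ) ×ˢ Finset.Ioc (b - k + 1) (b - k + 1 + i),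
              c y ≠ 1)) ≤ q * A ^ n * ((1 - p) ^ i * z ^ (k - 1 - i)) := by
      intro i hi e he
      rw [Finset.mem_range] at hi he
      set F := ({s + n + 1} : Finset ℤ) ×ˢ Finset.Ioc (b - k + 1) (b - k + 1 + i) with hF
      have hxF : ((s + n + e, b - k + 1) : ℤ × ℤ) ∉ F := by
        rw [hF, Finset.mem_product, Finset.mem_Ioc]
        simp
      have hFc : F.card = i := by
        rw [hF, Finset.card_product, Finset.card_singleton, Int.card_Ioc]
        omega
      have hd1 := dep_chain s b n (k - (i + 1))
      have hd2 : Dep (insert ((s + n + e, b - k + 1) : ℤ × ℤ) F)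
          fun c => c (s + n + e, b - k + 1) = 2 ∧ ∀ y ∈ F, c y ≠ 1 := by
        intro c c' h hc
        refine ⟨?_, fun y hy => ?_⟩
        · rw [← h _ (Finset.mem_insert_self _ F)]
          exact hc.1
        · rw [← h y (Finset.mem_insert_of_mem hy)]
          exact hc.2 y hy
      have hdisj : Disjoint (chainSites s b n (k - (i + 1)))
          (insert ((s + n + e, b - k + 1) : ℤ × ℤ) F) := by
        rw [Finset.disjoint_left]
        intro x hx hx'
        rw [mem_chainSites] at hx
        rw [Finset.mem_insert, hF, Finset.mem_product, Finset.mem_Ioc] at hx'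
        have e1 : ((k - (i + 1) : ℕ) : ℤ) = k - i - 1 := by omega
        rw [e1] at hx
        rcases hx' with h | h
        · rw [h] at hx
          simp only at hx
          omega
        · omega
      rw [hX.pr_and hd1 hd2 hdisj, hX.pr_obst _ F hxF, hFc]
      have h1 := ih (k - (i + 1))
      have e2 : k - (i + 1) = k - 1 - i := by omega
      rw [e2] at h1 ⊢
      have h2 : 0 ≤ q * (1 - p) ^ i := by
        have : 0 ≤ 1 - p := by linarith
        positivity
      calc pr P X (fun c => Chain c s b n (k - 1 - i)) * (q * (1 - p) ^ i)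
          ≤ (z ^ (k - 1 - i) * A ^ n) * (q * (1 - p) ^ i) := by gcongr
        _ = _ := by ring
    have hsum : ∑ i ∈ Finset.range k, (1 - p) ^ i * z ^ (k - 1 - i) ≤ 2 / p * z ^ k := by
      have h1 := geom_sum₂_mul (1 - p) z k
      have h2 : (1 - p) - z = -(p / 2) := by rw [hzd]; ring
      rw [h2] at h1
      have h3 : 0 ≤ (1 - p) ^ k := pow_nonneg (by linarith) k
      have h4 : (∑ i ∈ Finset.range k, (1 - p) ^ i * z ^ (k - 1 - i)) * (p / 2) ≤ z ^ k := by
        linarith
      have h5 : 0 < p / 2 := by positivity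
      calc ∑ i ∈ Finset.range k, (1 - p) ^ i * z ^ (k - 1 - i)
          = (∑ i ∈ Finset.range k, (1 - p) ^ i * z ^ (k - 1 - i)) * (p / 2) * (2 / p) := by
            field_simp
        _ ≤ z ^ k * (2 / p) := by gcongr
        _ = 2 / p * z ^ k := by ring
    calc pr P X (fun c => Chain c s b (n + 1) k)
        ≤ pr P X (fun c => Chain c s b n k) +
          ∑ i ∈ Finset.range k, ∑ e ∈ Finset.range 2,
            q * A ^ n * ((1 - p) ^ i * z ^ (k - 1 - i)) := by
          refine le_trans step ?_
          gcongr with i hi e he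
          exact hterm i hi e he
      _ = pr P X (fun c => Chain c s b n k) +
          2 * q * A ^ n * ∑ i ∈ Finset.range k, (1 - p) ^ i * z ^ (k - 1 - i) := by
          rw [Finset.mul_sum]
          congr 1
          refine Finset.sum_congr rfl fun i _ => ?_
          rw [Finset.sum_const, Finset.card_range]
          simp only [nsmul_eq_mul]
          push_cast
          ring
      _ ≤ z ^ k * A ^ n + 2 * q * A ^ n * (2 / p * z ^ k) := by
          have hA' : 0 ≤ A := by linarith
          gcongr
          exact ih k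
      _ = z ^ k * A ^ (n + 1) := by
          rw [pow_succ, hAd]
          ring

end Pool.Agent.Lib.MP_daac75_pr
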