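import Pool.Agent.Lib.MP_daac75_pr.Dyn

/-!
# Clusters of the two-neighbour closure (the argument of Aizenman and Lebowitz)
-/

open Finset

namespace Pool.Agent.Lib.MP_daac75_pr

/-- a rectangle together with points which fill it -/
structure Piece where
  pts : Multiset (ℤ × ℤ)
  x1 : ℤ
  x2 : ℤ
  y1 : ℤ
  y2 : ℤ

/-- the rectangle of a piece -/
def Piece.Box (P : Piece) (x : ℤ × ℤ) : Prop :=
  P.x1 ≤ x.1 ∧ x.1 ≤ P.x2 ∧ P.y1 ≤ x.2 ∧ x.2 ≤ P.y2

/-- the properties of the pieces -/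
structure Piece.Ok (r : ℕ) (P : Piece) : Prop where
  sub : ∀ s ∈ P.pts, P.Box s
  semi : (P.x2 - P.x1 + 1) + (P.y2 - P.y1 + 1) ≤ 2 * P.pts.card
  lx : P.x2 - P.x1 + 1 < 2 * r
  ly : P.y2 - P.y1 + 1 < 2 * r
  nx : P.x1 ≤ P.x2
  ny : P.y1 ≤ P.y2

/-- the union of two pieces -/
def Piece.merge (P Q : Piece) : Piece where
  pts := P.pts + Q.pts
  x1 := min P.x1 Q.x1
  x2 := max P.x2 Q.x2
  y1 := min P.y1 Q.y1
  y2 := max P.y2 Q.y2

/-- a decomposition of `S` into pieces -/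
def Decomp (r : ℕ) (S : Finset (ℤ × ℤ)) (D : Multiset Piece) : Prop :=
  (∀ P ∈ D, P.Ok r) ∧ (D.map Piece.pts).sum = S.val

/-- the square with the given lower left corner and the given side -/
noncomputable def square (a b : ℤ) (l : ℕ) : Finset (ℤ × ℤ) :=
  Finset.Ico a (a + l) ×ˢ Finset.Ico b (b + l)

lemma mem_square {a b : ℤ} {l : ℕ} {x : ℤ × ℤ} :
    x ∈ square a b l ↔ (a ≤ x.1 ∧ x.1 < a + l) ∧ b ≤ x.2 ∧ x.2 < b + l := by
  unfold square
  rw [Finset.mem_product, Finset.mem_Ico, Finset.mem_Ico]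

lemma card_square (a b : ℤ) (l : ℕ) : (square a b l).card = l ^ 2 := by
  unfold square
  rw [Finset.card_product, Int.card_Ico, Int.card_Ico]
  have h1 : (a + (l : ℤ) - a).toNat = l := by omega
  have h2 : (b + (l : ℤ) - b).toNat = l := by omega
  rw [h1, h2, sq]

variable {r : ℕ} {S : Finset (ℤ × ℤ)}

lemma hull_le {a1 a2 b1 b2 u v d : ℤ} (h1 : a1 ≤ u) (h2 : u ≤ a2) (h3 : b1 ≤ v) (h4 : v ≤ b2)
    (hd : |u - v| ≤ d) : max a2 b2 - min a1 b1 + 1 ≤ (a2 - a1 + 1) + (b2 - b1 + 1) + (d - 1) := by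
  rw [abs_le] at hd
  rcases le_total a2 b2 with h | h <;> rcases le_total a1 b1 with h' | h'
  · rw [max_eq_right h, min_eq_left h']; omega
  · rw [max_eq_right h, min_eq_right h']; omega
  · rw [max_eq_left h, min_eq_left h']; omega
  · rw [max_eq_left h, min_eq_right h']; omega

lemma merge_ok (hS : ∀ a b : ℤ, (S ∩ square a b (4 * r)).card < r) {P Q : Piece}
    (hP : P.Ok r) (hQ : Q.Ok r) (hsub : P.pts + Q.pts ≤ S.val) {x u v : ℤ × ℤ}
    (hu : u ∈ nbrs x) (hv : v ∈ nbrs x) (hPu : P.Box u) (hQv : Q.Box v) :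
    (P.merge Q).Ok r := by
  have hnd : (P.pts + Q.pts).Nodup := Multiset.nodup_of_le hsub S.nodup
  have hsub' : ∀ s ∈ (P.merge Q).pts, (P.merge Q).Box s := by
    intro s hs
    rcases Multiset.mem_add.mp hs with h | h
    · obtain ⟨h1, h2, h3, h4⟩ := hP.sub s h
      exact ⟨le_trans (min_le_left _ _) h1, le_trans h2 (le_max_left _ _),
        le_trans (min_le_left _ _) h3, le_trans h4 (le_max_left _ _)⟩
    · obtain ⟨h1, h2, h3, h4⟩ := hQ.sub s h
      exact ⟨le_trans (min_le_right _ _) h1, le_trans h2 (le_max_right _ _),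
        le_trans (min_le_right _ _) h3, le_trans h4 (le_max_right _ _)⟩
  have hcard : ((P.merge Q).pts.card : ℤ) = P.pts.card + Q.pts.card := by
    simp [Piece.merge]
  obtain ⟨p1, p2, p3, p4⟩ := hPu
  obtain ⟨q1, q2, q3, q4⟩ := hQv
  have h1 := hP.semi
  have h2 := hQ.semi
  have h3 := hP.lx
  have h4 := hP.ly
  have h5 := hQ.lx
  have h6 := hQ.ly
  have h7 := hP.nx
  have h8 := hP.ny
  have h9 := hQ.nx
  have h10 := hQ.ny
  have hdist : |u.1 - v.1| + |u.2 - v.2| ≤ 2 := by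
    rw [mem_nbrs] at hu hv
    rcases hu with h | h | h | h <;> rcases hv with h' | h' | h' | h' <;> rw [h, h'] <;>
      simp only <;> ring_nf <;> norm_num
  have hsemi : (max P.x2 Q.x2 - min P.x1 Q.x1 + 1) + (max P.y2 Q.y2 - min P.y1 Q.y1 + 1) ≤
      2 * (P.pts.card + Q.pts.card) := by
    have a1 := hull_le p1 p2 q1 q2 (le_refl |u.1 - v.1|)
    have a2 := hull_le p3 p4 q3 q4 (le_refl |u.2 - v.2|)
    omega
  have hle : |u.1 - v.1| ≤ 2 := by have := abs_nonneg (u.2 - v.2); omega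
  have hle' : |u.2 - v.2| ≤ 2 := by have := abs_nonneg (u.1 - v.1); omega
  rw [abs_le] at hle hle'
  have hlong : max P.x2 Q.x2 - min P.x1 Q.x1 + 1 < 4 * r := by
    have := hull_le p1 p2 q1 q2 (abs_le.mpr hle)
    omega
  have hlong' : max P.y2 Q.y2 - min P.y1 Q.y1 + 1 < 4 * r := by
    have := hull_le p3 p4 q3 q4 (abs_le.mpr hle')
    omega
  have hcount : P.pts.card + Q.pts.card < r := by
    have hF := hS (min P.x1 Q.x1) (min P.y1 Q.y1)
    have hsubF : (⟨P.pts + Q.pts, hnd⟩ : Finset (ℤ × ℤ)) ⊆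
        S ∩ square (min P.x1 Q.x1) (min P.y1 Q.y1) (4 * r) := by
      intro s hs
      have hs' : s ∈ P.pts + Q.pts := hs
      rw [Finset.mem_inter]
      refine ⟨Multiset.mem_of_le hsub hs', ?_⟩
      obtain ⟨h1, h2, h3, h4⟩ := hsub' s hs'
      simp only [Piece.merge] at h1 h2 h3 h4
      rw [mem_square]
      push_cast
      refine ⟨⟨h1, by omega⟩, h3, by omega⟩
    have := Finset.card_le_card hsubF
    rw [Finset.card_mk, Multiset.card_add] at this
    omega
  have hcount' : ((P.pts.card : ℤ) + Q.pts.card) < r := by exact_mod_cast hcount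
  refine ⟨hsub', ?_, ?_, ?_, ?_, ?_⟩
  · rw [hcard]
    exact hsemi
  · change max P.x2 Q.x2 - min P.x1 Q.x1 + 1 < 2 * r
    omega
  · change max P.y2 Q.y2 - min P.y1 Q.y1 + 1 < 2 * r
    omega
  · change min P.x1 Q.x1 ≤ max P.x2 Q.x2
    omega
  · change min P.y1 Q.y1 ≤ max P.y2 Q.y2
    omega

lemma exists_decomp (hr : 1 ≤ r) : ∃ D, Decomp r S D := by
  refine ⟨S.val.map fun s => ⟨{s}, s.1, s.1, s.2, s.2⟩, ?_, ?_⟩
  · intro P hP
    obtain ⟨s, -, rfl⟩ := Multiset.mem_map.mp hP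
    have hr' : (1 : ℤ) ≤ r := by exact_mod_cast hr
    refine ⟨?_, ?_, ?_, ?_, le_rfl, le_rfl⟩
    · intro t ht
      simp only [Multiset.mem_singleton] at ht
      rw [ht]
      exact ⟨le_rfl, le_rfl, le_rfl, le_rfl⟩
    · simp
    · change s.1 - s.1 + 1 < 2 * (r : ℤ)
      omega
    · change s.2 - s.2 + 1 < 2 * (r : ℤ)
      omega
  · rw [Multiset.map_map]
    exact Multiset.sum_map_singleton S.val

lemma exists_min_decomp (hr : 1 ≤ r) : ∃ D, Decomp r S D ∧
    ∀ D', Decomp r S D' → D.card ≤ D'.card := by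
  classical
  have h : ∃ n, ∃ D, Decomp r S D ∧ D.card = n := by
    obtain ⟨D, hD⟩ := exists_decomp (S := S) hr
    exact ⟨_, D, hD, rfl⟩
  obtain ⟨D, hD, hn⟩ := Nat.find_spec h
  refine ⟨D, hD, fun D' hD' => ?_⟩
  rw [hn]
  exact Nat.find_min' h ⟨D', hD', rfl⟩

/-- If no square of side `4 r` contains `r` points of `S`, then every point of the closure of `S`
is in `S` or is within distance `2 r` of two close points of `S`. -/
theorem ob_local (hr : 1 ≤ r) (hS : ∀ a b : ℤ, (S ∩ square a b (4 * r)).card < r) {x : ℤ × ℤ}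
    (hx : Ob (S : Set (ℤ × ℤ)) x) : x ∈ S ∨ ∃ y ∈ S, ∃ z ∈ S, y ≠ z ∧
      (|y.1 - z.1| ≤ 2 ∧ |y.2 - z.2| ≤ 2) ∧ (|y.1 - x.1| < 2 * r ∧ |y.2 - x.2| < 2 * r) ∧
      (|z.1 - x.1| < 2 * r ∧ |z.2 - x.2| < 2 * r) := by
  obtain ⟨D, ⟨hD1, hD2⟩, hmin⟩ := exists_min_decomp (S := S) hr
  have hle : ∀ P ∈ D, P.pts ≤ S.val := by
    intro P hP
    rw [← hD2]
    exact Multiset.single_le_sum (fun _ _ => Multiset.zero_le _) _
      (Multiset.mem_map_of_mem _ hP)
  have hfar : ∀ P ∈ D, ∀ Q ∈ D, P ≠ Q → ∀ x u v : ℤ × ℤ, u ∈ nbrs x → v ∈ nbrs x → u ≠ v →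
      P.Box u → Q.Box v → False := by
    intro P hP Q hQ hPQ x u v hu hv huv hPu hQv
    obtain ⟨t, ht⟩ := Multiset.exists_cons_of_mem hP
    have hQ' : Q ∈ t := by
      rw [ht, Multiset.mem_cons] at hQ
      exact hQ.resolve_left hPQ.symm
    obtain ⟨t', ht'⟩ := Multiset.exists_cons_of_mem hQ'
    have hsum : P.pts + (Q.pts + (t'.map Piece.pts).sum) = S.val := by
      rw [← hD2, ht, ht']
      simp
    have hok := merge_ok hS (hD1 P hP) (hD1 Q hQ) (by
      rw [← hsum, ← add_assoc]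
      exact Multiset.le_add_right _ _) hu hv hPu hQv
    have hdec : Decomp r S (P.merge Q ::ₘ t') := by
      constructor
      · intro R hR
        rw [Multiset.mem_cons] at hR
        rcases hR with rfl | hR
        · exact hok
        · refine hD1 R ?_
          rw [ht, ht']
          simp [hR]
      · rw [Multiset.map_cons, Multiset.sum_cons, ← hsum, ← add_assoc]
        rfl
    have := hmin _ hdec
    rw [ht, ht'] at this
    simp at this
  have hmem : ∀ s ∈ S, ∃ P ∈ D, s ∈ P.pts := by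
    intro s hs
    have : s ∈ (D.map Piece.pts).join := by
      change s ∈ (D.map Piece.pts).sum
      rw [hD2]; exact hs
    obtain ⟨m, hm, hsm⟩ := Multiset.mem_join.mp this
    obtain ⟨P, hP, rfl⟩ := Multiset.mem_map.mp hm
    exact ⟨P, hP, hsm⟩
  have key : ∃ P ∈ D, x ∈ P.pts ∨ (P.Box x ∧ ∃ y ∈ P.pts, ∃ z ∈ P.pts, y ≠ z ∧
      |y.1 - z.1| ≤ 2 ∧ |y.2 - z.2| ≤ 2) := by
    induction hx with
    | base h =>
      obtain ⟨P, hP, hs⟩ := hmem _ h
      exact ⟨P, hP, Or.inl hs⟩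
    | @grow x y z hy hz hyz _ _ ihy ihz =>
      obtain ⟨P, hP, hyP⟩ := ihy
      obtain ⟨Q, hQ, hzQ⟩ := ihz
      have hyB : P.Box y := by
        rcases hyP with h | h
        · exact (hD1 P hP).sub y h
        · exact h.1
      have hzB : Q.Box z := by
        rcases hzQ with h | h
        · exact (hD1 Q hQ).sub z h
        · exact h.1
      by_cases hPQ : P = Q
      · subst hPQ
        have hxB : P.Box x := by
          obtain ⟨a1, a2, a3, a4⟩ := hyB
          obtain ⟨b1, b2, b3, b4⟩ := hzB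
          rw [mem_nbrs] at hy hz
          unfold Piece.Box
          rcases hy with h | h | h | h <;> rcases hz with h' | h' | h' | h' <;>
            first
            | exact absurd (h.trans h'.symm) hyz
            | (rw [h] at a1 a2 a3 a4; rw [h'] at b1 b2 b3 b4
               simp only at a1 a2 a3 a4 b1 b2 b3 b4
               refine ⟨by omega, by omega, by omega, by omega⟩)
        refine ⟨P, hP, Or.inr ⟨hxB, ?_⟩⟩
        rcases hyP with h | h
        · rcases hzQ with h' | h'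
          · refine ⟨y, h, z, h', hyz, ?_⟩
            rw [mem_nbrs] at hy hz
            rcases hy with h | h | h | h <;> rcases hz with h' | h' | h' | h' <;> rw [h, h'] <;>
              simp only <;> ring_nf <;> norm_num
          · exact h'.2
        · exact h.2
      · exact absurd (hfar P hP Q hQ hPQ x y z hy hz hyz hyB hzB) id
  obtain ⟨P, hP, h | ⟨⟨h1, h2, h3, h4⟩, y, hy, z, hz, hyz, h5⟩⟩ := key
  · exact Or.inl (Multiset.mem_of_le (hle P hP) h)
  · right
    refine ⟨y, Multiset.mem_of_le (hle P hP) hy, z, Multiset.mem_of_le (hle P hP) hz, hyz, h5, ?_⟩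
    have hok := hD1 P hP
    obtain ⟨a1, a2, a3, a4⟩ := hok.sub y hy
    obtain ⟨b1, b2, b3, b4⟩ := hok.sub z hz
    have := hok.lx
    have := hok.ly
    refine ⟨⟨?_, ?_⟩, ?_, ?_⟩ <;> rw [abs_lt] <;> constructor <;> omega

end Pool.Agent.Lib.MP_daac75_pr
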