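import Mathlib

/-!
# The two-type threshold competition model: definitions
-/

open MeasureTheory

namespace Pool.Agent.Lib.MP_daac75_pr

/-- The four nearest neighbours of the site `x` of `ℤ²`. -/
def nbrs (x : ℤ × ℤ) : Finset (ℤ × ℤ) :=
  {(x.1 + 1, x.2), (x.1 - 1, x.2), (x.1, x.2 + 1), (x.1, x.2 - 1)}

/-- `N_i(x)`: the number of nearest neighbours of `x` which are in state `i`. -/
def nbrCount (ξ : ℤ × ℤ → Fin 3) (i : Fin 3) (x : ℤ × ℤ) : ℕ :=
  ((nbrs x).filter fun y => ξ y = i).card

/-- One simultaneous update of all sites: states `1` and `2` are kept; a site in state `0` takes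
the state `i ∈ {1, 2}` if `N_i(x) ≥ 2` for exactly this one `i`, and otherwise stays in
state `0`. -/
def update (ξ : ℤ × ℤ → Fin 3) (x : ℤ × ℤ) : Fin 3 :=
  if ξ x ≠ 0 then ξ x
  else if 2 ≤ nbrCount ξ 1 x ∧ ¬ 2 ≤ nbrCount ξ 2 x then 1
  else if 2 ≤ nbrCount ξ 2 x ∧ ¬ 2 ≤ nbrCount ξ 1 x then 2
  else 0

/-- The law of one initial state: `1` with probability `p`, `2` with probability `q` and `0` with
probability `1 - p - q`. -/
noncomputable def siteLaw (p q : ℝ) : Measure (Fin 3) :=
  ENNReal.ofReal (1 - p - q) • Measure.dirac 0 + ENNReal.ofReal p • Measure.dirac 1 +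
    ENNReal.ofReal q • Measure.dirac 2

/-- The law of the initial configuration: the states of the sites are independent with law
`siteLaw p q`. -/
noncomputable def initLaw (p q : ℝ) : Measure (ℤ × ℤ → Fin 3) :=
  Measure.infinitePi fun _ => siteLaw p q

/-- The event that the origin is eventually in state `i`. -/
def originEventually (i : Fin 3) : Set (ℤ × ℤ → Fin 3) :=
  {ξ | ∃ t : ℕ, update^[t] ξ (0, 0) = i}

end Pool.Agent.Lib.MP_daac75_pr
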