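import Pool.Agent.Lib.MP_daac75_pr.Reach
import Pool.Agent.Lib.MP_daac75_pr.Clus

/-!
# The deterministic part of the argument
-/

open Finset

namespace Pool.Agent.Lib.MP_daac75_pr

/-- the region of the path -/
noncomputable def Reg (W : ℕ) : Finset (ℤ × ℤ) := Finset.Icc 0 (W : ℤ) ×ˢ Finset.Icc 1 (W : ℤ)

lemma mem_Reg {W : ℕ} {v : ℤ × ℤ} : v ∈ Reg W ↔ (0 ≤ v.1 ∧ v.1 ≤ W) ∧ 1 ≤ v.2 ∧ v.2 ≤ W := by
  rw [Reg, Finset.mem_product, Finset.mem_Icc, Finset.mem_Icc]

/-- the bad blocks of the region -/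
def Bad (L W : ℕ) (c : ℤ × ℤ → Fin 3) (v : ℤ × ℤ) : Prop := v ∈ Reg W ∧ ¬ GoodAt c L (ctr L v)

/-- the radius of the region of growth -/
def rad (L W : ℕ) : ℕ := 4 * L * (W + 50)

/-- the radius of the region of the obstacles -/
def rad' (L W : ℕ) : ℕ := rad L W + 1 + (2 * rad L W + 1) ^ 2

open Classical in
/-- the twos -/
noncomputable def twosF (c : ℤ × ℤ → Fin 3) (R : ℕ) : Finset (ℤ × ℤ) :=
  (ball (0, 0) R).filter fun x => c x = 2

lemma mem_twosF {c : ℤ × ℤ → Fin 3} {R : ℕ} {x : ℤ × ℤ} :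
    x ∈ twosF c R ↔ x ∈ ball (0, 0) R ∧ c x = 2 := by
  simp only [twosF, Finset.mem_filter]

lemma coe_twosF (c : ℤ × ℤ → Fin 3) (R : ℕ) : (twosF c R : Set (ℤ × ℤ)) = twosIn c R := by
  ext x
  rw [Finset.mem_coe, mem_twosF, mem_ball]
  unfold twosIn
  rw [Set.mem_ofPred_eq, abs_le, abs_le]
  simp only [zero_sub, zero_add]
  tauto

lemma ob_two {c : ℤ × ℤ → Fin 3} {L R : ℕ} (hL : 1 ≤ L)
    (hS : ∀ a b : ℤ, (twosF c R ∩ square a b (4 * (64 * L))).card < 64 * L) {z : ℤ × ℤ}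
    (hG : GoodAt c L z) {x : ℤ × ℤ} (h1 : |x.1| ≤ 16 * L) (h2 : |x.2| ≤ 16 * L)
    (hx : Ob (twosIn c R) (z + x)) : c (z + x) = 2 := by
  rw [← coe_twosF] at hx
  rcases ob_local (by omega) hS hx with h | ⟨y, hy, w, hw, hyw, ⟨h3, h4⟩, ⟨h5, h6⟩, h7, h8⟩
  · exact (mem_twosF.mp h).2
  · exfalso
    rw [mem_twosF] at hy hw
    have hL' : (1 : ℤ) ≤ L := by exact_mod_cast hL
    rw [abs_le] at h1 h2
    rw [abs_lt] at h5 h6 h7 h8
    push_cast at h5 h6 h7 h8
    simp only [Prod.fst_add, Prod.snd_add] at h5 h6 h7 h8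
    have e1 : z + (y - z) = y := by abel
    have e2 : z + (w - z) = w := by abel
    refine hG.iso (y - z) (w - z) ?_ ?_ ?_ ?_ (by rw [e1]; exact hy.2) (by rw [e2]; exact hw.2)
      ?_ ⟨?_, ?_⟩
    · rw [abs_le, Prod.fst_sub]; constructor <;> omega
    · rw [abs_le, Prod.snd_sub]; constructor <;> omega
    · rw [abs_le, Prod.fst_sub]; constructor <;> omega
    · rw [abs_le, Prod.snd_sub]; constructor <;> omega
    · intro h
      exact hyw (sub_left_injective h)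
    · have : (y - z).1 - (w - z).1 = y.1 - w.1 := by
        rw [Prod.fst_sub, Prod.fst_sub]; ring
      rw [this]; exact h3
    · have : (y - z).2 - (w - z).2 = y.2 - w.2 := by
        rw [Prod.snd_sub, Prod.snd_sub]; ring
      rw [this]; exact h4

lemma nbrs_add {z x y : ℤ × ℤ} (h : y ∈ nbrs x) : z + y ∈ nbrs (z + x) := by
  have := frame_nbrs (false, false, false) z x y h
  simpa [frame] using this

theorem det_main {c : ℤ × ℤ → Fin 3} {L W k' : ℕ} (hL : 1 ≤ L) (hW : 1 ≤ W) (hk : k' ≤ W)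
    (h1 : ¬ Rch (Bad L W c) (0, 1)) (h2 : ¬ Rch (Bad L W c) (k', 1))
    (h3 : ∀ i : ℤ, 0 ≤ i → i ≤ W → ¬ Rch (Bad L W c) (i, W))
    (h4 : ∀ j : ℤ, -40 ≤ j → j ≤ 0 → GoodAt c L (ctr L (k', j)))
    (h5 : ∀ t : ℤ, |t| ≤ 4 * L → c (ctr L (k', -40) + (t, 0)) = 1)
    (h6 : ∀ a b : ℤ, (twosF c (rad' L W) ∩ square a b (4 * (64 * L))).card < 64 * L)
    (h7 : c (0, 0) ≠ 2) : ∃ t, update^[t] c (0, 0) = 1 := by
  have hL' : (1 : ℤ) ≤ L := by exact_mod_cast hL
  set O : ℤ × ℤ → Prop := fun x =>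
    Occ (box (rad L W)) {y | Ob (twosIn c (rad' L W)) y} {y | c y = 1} x with hO
  -- the rules
  have hrules : ∀ i j : ℤ, 0 ≤ i → i ≤ W → -40 ≤ j → j ≤ W → GoodAt c L (ctr L (i, j)) →
      Rules (fun x => c (ctr L (i, j) + x)) (fun x => O (ctr L (i, j) + x)) (16 * L) := by
    intro i j hi1 hi2 hj1 hj2 hG
    have hbox : ∀ x : ℤ × ℤ, |x.1| ≤ 16 * L → |x.2| ≤ 16 * L →
        ctr L (i, j) + x ∈ box (rad L W) := by
      intro x hx1 hx2
      rw [abs_le] at hx1 hx2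
      rw [mem_box, abs_le, abs_le]
      unfold ctr rad
      simp only [Prod.fst_add, Prod.snd_add]
      push_cast
      have e1 : 0 ≤ (L : ℤ) * i := by positivity
      have e2 : (L : ℤ) * i ≤ L * W := by gcongr
      have e3 : (L : ℤ) * j ≤ L * W := by gcongr
      have e4 : (L : ℤ) * (-40) ≤ L * j := by gcongr
      have e5 : 0 ≤ (L : ℤ) * W := by positivity
      refine ⟨⟨?_, ?_⟩, ?_, ?_⟩ <;> nlinarith
    constructor
    · intro x hx1 hx2 hc
      refine Occ.seed (hbox x hx1 hx2) hc ?_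
      intro hob
      have := ob_two hL h6 hG hx1 hx2 hob
      rw [hc] at this
      exact absurd this (by decide)
    · intro x y w hx1 hx2 hc hy hw hyw hOy hOw
      refine Occ.grow (hbox x hx1 hx2) ?_ (nbrs_add hy) (nbrs_add hw) ?_ hOy hOw
      · intro hob
        exact hc (ob_two hL h6 hG hx1 hx2 hob)
      · intro h
        exact hyw (add_left_cancel h)
  set Fl : ℤ × ℤ → Prop := fun v => ∀ x : ℤ × ℤ, |x.1| ≤ 4 * L → |x.2| ≤ 4 * L →
    c (ctr L v + x) ≠ 2 → O (ctr L v + x) with hFl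
  -- spreading
  have hspread : ∀ i j : ℤ, 0 ≤ i → i ≤ W → -40 ≤ j → j ≤ W → GoodAt c L (ctr L (i, j)) →
      Fl (i, j) → ∀ i' j', |i' - i| ≤ 1 → |j' - j| ≤ 1 → Fl (i', j') := by
    intro i j hi1 hi2 hj1 hj2 hG hf i' j' hi hj x hx1 hx2 hc
    have hR := hrules i j hi1 hi2 hj1 hj2 hG
    have ht := transfer hL hG hR hf (4 * L * (i' - i) + x.1, 4 * L * (j' - j) + x.2)
    have e : ctr L (i, j) + (4 * L * (i' - i) + x.1, 4 * L * (j' - j) + x.2) =
        ctr L (i', j') + x := by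
      unfold ctr
      ext
      · simp only [Prod.fst_add]; ring
      · simp only [Prod.snd_add]; ring
    rw [e] at ht
    rw [abs_le] at hx1 hx2 hi hj
    refine ht ?_ ?_ hc
    · rw [abs_le]
      simp only
      constructor <;> nlinarith
    · rw [abs_le]
      simp only
      constructor <;> nlinarith
  -- nucleation
  have hk1 : (0 : ℤ) ≤ k' := by positivity
  have hk2 : (k' : ℤ) ≤ W := by exact_mod_cast hk
  have hW' : (1 : ℤ) ≤ W := by exact_mod_cast hW
  have hG40 := h4 (-40) le_rfl (by norm_num)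
  have hR40 := hrules k' (-40) hk1 hk2 le_rfl (by omega) hG40
  have hn : Fl (k', -40) := by
    refine nucleate hL hG40 hR40 ?_
    intro x hx
    exact hR40.seed (x, 0) (by simp only; omega) (by simp) (h5 x hx)
  -- the stem
  have hstem : ∀ n : ℕ, n ≤ 41 → Fl (k', -40 + n) := by
    intro n
    induction n with
    | zero => intro _; simpa using hn
    | succ n ih =>
      intro hn'
      refine hspread k' (-40 + n) hk1 hk2 (by omega) (by omega) (h4 _ (by omega) (by omega))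
        (ih (by omega)) _ _ (by simp) ?_
      push_cast
      rw [abs_le]
      constructor <;> omega
  have hFk : Fl (k', 1) := by
    have := hstem 41 le_rfl
    simpa using this
  -- the path
  have hpath : Fl (0, 1) := by
    refine lip_path (B := Bad L W c) hW' (X := k') ?_ ?_ h1 h2 hFk
    · intro i hi1 hi2
      exact h3 i hi1 (by omega)
    · intro i j hi1 hi2 hj1 hj2 hB hf
      refine hspread i j hi1 (by omega) (by omega) hj2 ?_ hf
      by_contra hcon
      exact hB ⟨mem_Reg.mpr ⟨⟨hi1, by simp only; omega⟩, hj1, hj2⟩, hcon⟩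
  have h0 := hpath (0, -(4 * L)) (by simp) (by simp) 
  have e : ctr L (0, 1) + (0, -(4 * (L : ℤ))) = (0, 0) := by
    unfold ctr
    ext <;> simp
  rw [e] at h0
  exact occ_one le_rfl (h0 h7)

end Pool.Agent.Lib.MP_daac75_pr
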