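import Pool.Agent.Lib.MP_daac75_pr.Defs

/-!
# Comparison of the dynamics with a static growth process
-/

open Finset

namespace Pool.Agent.Lib.MP_daac75_pr

/-- the `2`-neighbour closure of `S` -/
inductive Ob (S : Set (ℤ × ℤ)) : ℤ × ℤ → Prop
  | base {x : ℤ × ℤ} : x ∈ S → Ob S x
  | grow {x y z : ℤ × ℤ} : y ∈ nbrs x → z ∈ nbrs x → y ≠ z → Ob S y → Ob S z → Ob S x

/-- sites filled by polluted bootstrap percolation with obstacles `B` in the region `Γ` -/
inductive Occ (Γ : Finset (ℤ × ℤ)) (B S : Set (ℤ × ℤ)) : ℤ × ℤ → Prop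
  | seed {x : ℤ × ℤ} : x ∈ Γ → x ∈ S → x ∉ B → Occ Γ B S x
  | grow {x y z : ℤ × ℤ} : x ∈ Γ → x ∉ B → y ∈ nbrs x → z ∈ nbrs x → y ≠ z →
      Occ Γ B S y → Occ Γ B S z → Occ Γ B S x

lemma mem_nbrs {x y : ℤ × ℤ} : y ∈ nbrs x ↔
    y = (x.1 + 1, x.2) ∨ y = (x.1 - 1, x.2) ∨ y = (x.1, x.2 + 1) ∨ y = (x.1, x.2 - 1) := by
  simp [nbrs]

/-- the twos of the box of radius `R` -/
def twosIn (ξ : ℤ × ℤ → Fin 3) (R : ℕ) : Set (ℤ × ℤ) :=
  {x | |x.1| ≤ R ∧ |x.2| ≤ R ∧ ξ x = 2}

lemma update_apply (ξ : ℤ × ℤ → Fin 3) (x : ℤ × ℤ) : update ξ x = if ξ x ≠ 0 then ξ x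
  else if 2 ≤ nbrCount ξ 1 x ∧ ¬ 2 ≤ nbrCount ξ 2 x then 1
  else if 2 ≤ nbrCount ξ 2 x ∧ ¬ 2 ≤ nbrCount ξ 1 x then 2
  else 0 := rfl

lemma twos_sub (ξ : ℤ × ℤ → Fin 3) (R : ℕ) (t : ℕ) : ∀ x : ℤ × ℤ, |x.1| + t ≤ R → |x.2| + t ≤ R →
    update^[t] ξ x = 2 → Ob (twosIn ξ R) x := by
  induction t with
  | zero =>
    intro x h1 h2 h3
    refine Ob.base ⟨by simpa using h1, by simpa using h2, ?_⟩
    simpa using h3
  | succ t ih =>
    intro x h1 h2 h3
    rw [Function.iterate_succ_apply'] at h3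
    push_cast at h1 h2
    rw [update_apply] at h3
    split_ifs at h3 with c1 c2 c3
    · exact ih x (by omega) (by omega) h3
    · exact absurd h3 (by decide)
    · obtain ⟨hc, -⟩ := c3
      unfold nbrCount at hc
      have := Finset.one_lt_card.mp (lt_of_lt_of_le one_lt_two hc)
      obtain ⟨y, hy, z, hz, hyz⟩ := this
      rw [Finset.mem_filter] at hy hz
      have key : ∀ w ∈ nbrs x, |w.1| + (t : ℤ) ≤ R ∧ |w.2| + (t : ℤ) ≤ R := by
        intro w hw
        rw [mem_nbrs] at hw
        have a1 := abs_le.mp (show |x.1| ≤ R - t - 1 by omega)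
        have a2 := abs_le.mp (show |x.2| ≤ R - t - 1 by omega)
        have b1 : |w.1| ≤ R - t := by
          rw [abs_le]
          rcases hw with h | h | h | h <;> rw [h] <;> simp only <;> constructor <;> omega
        have b2 : |w.2| ≤ R - t := by
          rw [abs_le]
          rcases hw with h | h | h | h <;> rw [h] <;> simp only <;> constructor <;> omega
        constructor <;> omega
      exact Ob.grow hy.1 hz.1 hyz (ih y (key y hy.1).1 (key y hy.1).2 hy.2)
        (ih z (key z hz.1).1 (key z hz.1).2 hz.2)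
    · exact absurd h3 (by decide)

open Classical in
/-- the stages of the growth process -/
noncomputable def stage (Γ : Finset (ℤ × ℤ)) (B S : Set (ℤ × ℤ)) : ℕ → Finset (ℤ × ℤ)
  | 0 => Γ.filter fun x => x ∈ S ∧ x ∉ B
  | t + 1 => stage Γ B S t ∪ Γ.filter fun x => x ∉ B ∧
      ∃ y ∈ nbrs x, ∃ z ∈ nbrs x, y ≠ z ∧ y ∈ stage Γ B S t ∧ z ∈ stage Γ B S t

section
variable {Γ : Finset (ℤ × ℤ)} {B S : Set (ℤ × ℤ)}

lemma mem_stage_zero {x : ℤ × ℤ} : x ∈ stage Γ B S 0 ↔ x ∈ Γ ∧ x ∈ S ∧ x ∉ B := by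
  simp only [stage, Finset.mem_filter]

lemma mem_stage_succ {x : ℤ × ℤ} {t : ℕ} : x ∈ stage Γ B S (t + 1) ↔
    x ∈ stage Γ B S t ∨ (x ∈ Γ ∧ x ∉ B ∧
      ∃ y ∈ nbrs x, ∃ z ∈ nbrs x, y ≠ z ∧ y ∈ stage Γ B S t ∧ z ∈ stage Γ B S t) := by
  simp only [stage, Finset.mem_union, Finset.mem_filter]

lemma stage_mono (t : ℕ) : stage Γ B S t ⊆ stage Γ B S (t + 1) := by
  intro x hx
  exact mem_stage_succ.mpr (Or.inl hx)

lemma stage_sub (t : ℕ) : stage Γ B S t ⊆ Γ := by
  induction t with
  | zero => intro x hx; exact (mem_stage_zero.mp hx).1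
  | succ t ih =>
    intro x hx
    rcases mem_stage_succ.mp hx with h | h
    · exact ih h
    · exact h.1

lemma stage_stab {t : ℕ} (h : stage Γ B S (t + 1) = stage Γ B S t) (s : ℕ) :
    stage Γ B S (t + s) = stage Γ B S t := by
  induction s with
  | zero => rfl
  | succ s ih =>
    rw [← h]
    ext x
    rw [← add_assoc, mem_stage_succ, mem_stage_succ, ih]

lemma stage_card (t : ℕ) : stage Γ B S (t + 1) = stage Γ B S t ∨
    t + 1 ≤ (stage Γ B S (t + 1)).card := by
  induction t with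
  | zero =>
    by_cases h : stage Γ B S 1 = stage Γ B S 0
    · exact Or.inl h
    · right
      have := Finset.card_lt_card (lt_of_le_of_ne (stage_mono (Γ := Γ) (B := B)
        (S := S) 0) (Ne.symm h))
      simp only [zero_add] at this ⊢
      omega
  | succ t ih =>
    rcases ih with h | h
    · left
      have h1 := stage_stab h 1
      have h2 := stage_stab h 2
      rw [show t + 1 + 1 = t + 2 by ring, h2, h]
    · by_cases h' : stage Γ B S (t + 1 + 1) = stage Γ B S (t + 1)
      · exact Or.inl h'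
      · right
        have := Finset.card_lt_card (lt_of_le_of_ne (stage_mono (Γ := Γ) (B := B)
          (S := S) (t + 1)) (Ne.symm h'))
        omega

lemma stage_final (s : ℕ) : stage Γ B S (Γ.card + s) = stage Γ B S Γ.card := by
  rcases stage_card (Γ := Γ) (B := B) (S := S) Γ.card with h | h
  · exact stage_stab h s
  · have := Finset.card_le_card (stage_sub (Γ := Γ) (B := B) (S := S) (Γ.card + 1))
    omega

lemma occ_stage {x : ℤ × ℤ} (h : Occ Γ B S x) : x ∈ stage Γ B S Γ.card := by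
  induction h with
  | seed h1 h2 h3 =>
    have h0 := mem_stage_zero.mpr ⟨h1, h2, h3⟩
    have : ∀ t, stage Γ B S 0 ⊆ stage Γ B S t := by
      intro t
      induction t with
      | zero => exact subset_rfl
      | succ t ih => exact ih.trans (stage_mono t)
    exact this _ h0
  | @grow x y z h1 h2 h3 h4 h5 _ _ h6 h7 =>
    rw [← stage_final 1]
    exact mem_stage_succ.mpr (Or.inr ⟨h1, h2, y, h3, z, h4, h5, h6, h7⟩)

end

/-- the box of radius `R` -/
noncomputable def box (R : ℕ) : Finset (ℤ × ℤ) := Finset.Icc (-(R : ℤ)) R ×ˢ Finset.Icc (-(R : ℤ)) R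

lemma mem_box {R : ℕ} {x : ℤ × ℤ} : x ∈ box R ↔ |x.1| ≤ R ∧ |x.2| ≤ R := by
  unfold box
  rw [Finset.mem_product, Finset.mem_Icc, Finset.mem_Icc, abs_le, abs_le]

lemma card_box (R : ℕ) : (box R).card = (2 * R + 1) ^ 2 := by
  unfold box
  rw [Finset.card_product, Int.card_Icc]
  have : ((R : ℤ) + 1 - -(R : ℤ)).toNat = 2 * R + 1 := by omega
  rw [this, sq]

/-- The comparison: sites filled by polluted bootstrap percolation in the box of radius `R`, with
the closure of the twos of a bigger box as obstacles, are eventually in state `1`. -/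
theorem occ_one {ξ : ℤ × ℤ → Fin 3} {R R' : ℕ} (hR : R + 1 + (2 * R + 1) ^ 2 ≤ R') {x : ℤ × ℤ}
    (h : Occ (box R) {y | Ob (twosIn ξ R') y} {y | ξ y = 1} x) : ∃ t, update^[t] ξ x = 1 := by
  set B := {y | Ob (twosIn ξ R') y} with hB
  set S := {y | ξ y = 1} with hS
  have hT := card_box R
  have key : ∀ t ≤ (box R).card, ∀ x ∈ stage (box R) B S t, update^[t] ξ x = 1 := by
    intro t
    induction t with
    | zero =>
      intro _ x hx
      exact (mem_stage_zero.mp hx).2.1
    | succ t ih =>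
      intro ht x hx
      have ih' := ih (by omega)
      rw [Function.iterate_succ_apply']
      rcases mem_stage_succ.mp hx with h1 | ⟨h1, h2, y, hy, z, hz, hyz, hyA, hzA⟩
      · rw [update_apply, ih' x h1]
        rfl
      · have hx1 := mem_box.mp h1
        have hno : ∀ w : ℤ × ℤ, |w.1| ≤ R + 1 → |w.2| ≤ R + 1 → update^[t] ξ w = 2 → w ∈ B := by
          intro w hw1 hw2 hw
          refine twos_sub ξ R' t w ?_ ?_ hw
          · have : (R : ℤ) + 1 + (2 * R + 1) ^ 2 ≤ R' := by exact_mod_cast hR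
            have h3 : (t : ℤ) + 1 ≤ (2 * R + 1) ^ 2 := by
              have : t + 1 ≤ (2 * R + 1) ^ 2 := hT ▸ ht
              exact_mod_cast this
            linarith
          · have : (R : ℤ) + 1 + (2 * R + 1) ^ 2 ≤ R' := by exact_mod_cast hR
            have h3 : (t : ℤ) + 1 ≤ (2 * R + 1) ^ 2 := by
              have : t + 1 ≤ (2 * R + 1) ^ 2 := hT ▸ ht
              exact_mod_cast this
            linarith
        have hx2 : update^[t] ξ x ≠ 2 := fun h => h2 (hno x (by omega) (by omega) h)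
        have hc1 : 2 ≤ nbrCount (update^[t] ξ) 1 x := by
          unfold nbrCount
          have : ({y, z} : Finset (ℤ × ℤ)) ⊆
              (nbrs x).filter fun w => update^[t] ξ w = 1 := by
            intro w hw
            rw [Finset.mem_insert, Finset.mem_singleton] at hw
            rw [Finset.mem_filter]
            rcases hw with rfl | rfl
            · exact ⟨hy, ih' _ hyA⟩
            · exact ⟨hz, ih' _ hzA⟩
          have h3 := Finset.card_le_card this
          rwa [Finset.card_pair hyz] at h3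
        have hc2 : ¬ 2 ≤ nbrCount (update^[t] ξ) 2 x := by
          intro hc
          unfold nbrCount at hc
          obtain ⟨u, hu, v, hv, huv⟩ := Finset.one_lt_card.mp (lt_of_lt_of_le one_lt_two hc)
          rw [Finset.mem_filter] at hu hv
          have hb : ∀ w ∈ nbrs x, |w.1| ≤ (R : ℤ) + 1 ∧ |w.2| ≤ (R : ℤ) + 1 := by
            intro w hw
            rw [mem_nbrs] at hw
            have a1 := abs_le.mp hx1.1
            have a2 := abs_le.mp hx1.2
            constructor
            · rw [abs_le]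
              rcases hw with h | h | h | h <;> rw [h] <;> simp only <;> constructor <;> omega
            · rw [abs_le]
              rcases hw with h | h | h | h <;> rw [h] <;> simp only <;> constructor <;> omega
          exact h2 (Ob.grow hu.1 hv.1 huv (hno u (hb u hu.1).1 (hb u hu.1).2 hu.2)
            (hno v (hb v hv.1).1 (hb v hv.1).2 hv.2))
        rw [update_apply]
        by_cases h0 : update^[t] ξ x = 0
        · rw [if_neg (by simp [h0]), if_pos ⟨hc1, hc2⟩]
        · rw [if_pos h0]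
          have : ∀ a : Fin 3, a ≠ 0 → a ≠ 2 → a = 1 := by decide
          exact this _ h0 hx2
  exact ⟨_, key _ le_rfl x (occ_stage h)⟩

end Pool.Agent.Lib.MP_daac75_pr
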