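import Pool.Agent.Lib.MP_daac75_pr.Dyn

/-!
# Growth of full segments
-/

open Finset

namespace Pool.Agent.Lib.MP_daac75_pr

/-- the local rules of the growth process in the box of radius `M` -/
structure Rules (c : ℤ × ℤ → Fin 3) (O : ℤ × ℤ → Prop) (M : ℤ) : Prop where
  seed : ∀ x : ℤ × ℤ, |x.1| ≤ M → |x.2| ≤ M → c x = 1 → O x
  fill : ∀ x y z : ℤ × ℤ, |x.1| ≤ M → |x.2| ≤ M → c x ≠ 2 → y ∈ nbrs x → z ∈ nbrs x → y ≠ z →
    O y → O z → O x

/-- a chain of losses: starting from the level `b` in column `s`, after `n` columns the level has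
dropped by `k` -/
inductive Chain (c : ℤ × ℤ → Fin 3) (s b : ℤ) : ℕ → ℕ → Prop
  | zero : Chain c s b 0 0
  | stay {n k : ℕ} : Chain c s b n k → Chain c s b (n + 1) k
  | drop {n k d : ℕ} : Chain c s b n k → 1 ≤ d →
      (c (s + n, b - k - d + 1) = 2 ∨ c (s + n + 1, b - k - d + 1) = 2) →
      (∀ t : ℤ, b - k - d + 1 < t → t ≤ b - k → c (s + n + 1, t) ≠ 1) →
      Chain c s b (n + 1) (k + d)

/-- the segment of the column `s` between the levels `a` and `b` is full -/
def Full (c : ℤ × ℤ → Fin 3) (O : ℤ × ℤ → Prop) (s a b : ℤ) : Prop :=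
  ∀ t, a ≤ t → t ≤ b → c (s, t) ≠ 2 → O (s, t)

/-- no two obstacles without a seed between them -/
def NoGap (c : ℤ × ℤ → Fin 3) (M : ℤ) : Prop :=
  ∀ s t1 t2 : ℤ, |s| ≤ M → |t1| ≤ M → |t2| ≤ M → t1 < t2 →
    (c (s, t1) = 2 ∨ c (s + 1, t1) = 2) → (c (s, t2) = 2 ∨ c (s + 1, t2) = 2) →
    ∃ t, t1 < t ∧ t < t2 ∧ c (s + 1, t) = 1

/-- every segment of length `L` contains a seed -/
def Seedy (c : ℤ × ℤ → Fin 3) (L : ℕ) (M : ℤ) : Prop :=
  ∀ s t : ℤ, |s| ≤ M → |t| ≤ M → ∃ t', t ≤ t' ∧ t' < t + L ∧ c (s, t') = 1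

lemma fill_up {c : ℤ × ℤ → Fin 3} {O : ℤ × ℤ → Prop} {M s : ℤ} (R : Rules c O M)
    (hs : |s + 1| ≤ M) (u : ℤ) (n : ℕ) (hu : O (s + 1, u))
    (h : ∀ v, u < v → v ≤ u + n → |v| ≤ M ∧ c (s + 1, v) ≠ 2 ∧ O (s, v)) :
    O (s + 1, u + n) := by
  induction n with
  | zero => simpa using hu
  | succ n ih =>
    have ih' := ih fun v h1 h2 => h v h1 (by push_cast; omega)
    obtain ⟨h1, h2, h3⟩ := h (u + (n + 1 : ℕ)) (by push_cast; omega) le_rfl
    refine R.fill _ (s, u + (n + 1 : ℕ)) (s + 1, u + n) hs h1 h2 ?_ ?_ ?_ h3 ih'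
    · rw [mem_nbrs]
      right; left
      simp
    · rw [mem_nbrs]
      right; right; right
      simp
      ring
    · intro hcon
      have := congrArg Prod.fst hcon
      simp at this

lemma fill_down {c : ℤ × ℤ → Fin 3} {O : ℤ × ℤ → Prop} {M s : ℤ} (R : Rules c O M)
    (hs : |s + 1| ≤ M) (u : ℤ) (n : ℕ) (hu : O (s + 1, u))
    (h : ∀ v, u - n ≤ v → v < u → |v| ≤ M ∧ c (s + 1, v) ≠ 2 ∧ O (s, v)) :
    O (s + 1, u - n) := by
  induction n with
  | zero => simpa using hu
  | succ n ih =>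
    have ih' := ih fun v h1 h2 => h v (by push_cast; omega) h2
    obtain ⟨h1, h2, h3⟩ := h (u - (n + 1 : ℕ)) le_rfl (by push_cast; omega)
    refine R.fill _ (s, u - (n + 1 : ℕ)) (s + 1, u - n) hs h1 h2 ?_ ?_ ?_ h3 ih'
    · rw [mem_nbrs]
      right; left
      simp
    · rw [mem_nbrs]
      right; right; left
      simp
      ring
    · intro hcon
      have := congrArg Prod.fst hcon
      simp at this

/-- one step of the growth of a full segment -/
lemma grow_step {c : ℤ × ℤ → Fin 3} {O : ℤ × ℤ → Prop} {M : ℤ} {L : ℕ} (R : Rules c O M)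
    (hg : NoGap c M) (hsd : Seedy c L M) {s a b : ℤ} (hs : |s| ≤ M) (hs' : |s + 1| ≤ M)
    (ha : -M ≤ a) (hb : b < M) (hab : a + L ≤ b) (hf : Full c O s a b) :
    ∃ d d' : ℕ, d ≤ L ∧ d' ≤ L ∧
      (d = 0 ∨ (1 ≤ d ∧ (c (s, b - d + 1) = 2 ∨ c (s + 1, b - d + 1) = 2) ∧
        ∀ t, b - d + 1 < t → t ≤ b → c (s + 1, t) ≠ 1)) ∧
      (d' = 0 ∨ (1 ≤ d' ∧ (c (s, a + d' - 1) = 2 ∨ c (s + 1, a + d' - 1) = 2) ∧
        ∀ t, a ≤ t → t < a + d' - 1 → c (s + 1, t) ≠ 1)) ∧
      Full c O (s + 1) (a + d') (b - d) := by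
  set P : ℤ → Prop := fun t => c (s, t) = 2 ∨ c (s + 1, t) = 2 with hP
  have habs : ∀ v, a ≤ v → v ≤ b → |v| ≤ M := fun v h1 h2 => abs_le.mpr ⟨by omega, by omega⟩
  -- top
  obtain ⟨d, hdL, hd, htop⟩ : ∃ d : ℕ, d ≤ L ∧
      (d = 0 ∨ (1 ≤ d ∧ P (b - d + 1) ∧ ∀ t, b - d + 1 < t → t ≤ b → c (s + 1, t) ≠ 1)) ∧
      (∀ T, a ≤ T → T ≤ b → P T → (∀ v, T < v → v ≤ b → ¬ P v) →
        (∃ u, T < u ∧ u ≤ b ∧ c (s + 1, u) = 1) ∨ b - d < T) := by
    by_cases h : ∃ T, a ≤ T ∧ T ≤ b ∧ P T ∧ (∀ v, T < v → v ≤ b → ¬ P v) ∧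
        ∀ u, T < u → u ≤ b → c (s + 1, u) ≠ 1
    · obtain ⟨T, h1, h2, h3, h4, h5⟩ := h
      refine ⟨(b - T + 1).toNat, ?_, Or.inr ⟨by omega, ?_, ?_⟩, ?_⟩
      · obtain ⟨t', ht1, ht2, ht3⟩ := hsd (s + 1) (T + 1) hs' (by
          rcases eq_or_lt_of_le h2 with h | h
          · subst h
            rw [abs_le]; constructor <;> omega
          · exact habs _ (by omega) (by omega))
        by_contra hcon
        exact h5 t' (by omega) (by omega) ht3
      · have e : b - ((b - T + 1).toNat : ℤ) + 1 = T := by omega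
        rw [e]; exact h3
      · intro t ht1 ht2
        exact h5 t (by omega) ht2
      · intro T' hT1 hT2 hT3 hT4
        right
        have : T' = T := by
          rcases lt_trichotomy T' T with h | h | h
          · exact absurd h3 (hT4 T h h2)
          · exact h
          · exact absurd hT3 (h4 T' h hT2)
        omega
    · push Not at h
      refine ⟨0, Nat.zero_le _, Or.inl rfl, ?_⟩
      intro T h1 h2 h3 h4
      left
      obtain ⟨u, hu⟩ := h T h1 h2 h3 h4
      exact ⟨u, hu⟩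
  -- bottom
  obtain ⟨d', hdL', hd', hbot⟩ : ∃ d : ℕ, d ≤ L ∧
      (d = 0 ∨ (1 ≤ d ∧ P (a + d - 1) ∧ ∀ t, a ≤ t → t < a + d - 1 → c (s + 1, t) ≠ 1)) ∧
      (∀ T, a ≤ T → T ≤ b → P T → (∀ v, a ≤ v → v < T → ¬ P v) →
        (∃ u, a ≤ u ∧ u < T ∧ c (s + 1, u) = 1) ∨ T < a + d) := by
    by_cases h : ∃ T, a ≤ T ∧ T ≤ b ∧ P T ∧ (∀ v, a ≤ v → v < T → ¬ P v) ∧
        ∀ u, a ≤ u → u < T → c (s + 1, u) ≠ 1
    · obtain ⟨T, h1, h2, h3, h4, h5⟩ := h
      refine ⟨(T - a + 1).toNat, ?_, Or.inr ⟨by omega, ?_, ?_⟩, ?_⟩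
      · obtain ⟨t', ht1, ht2, ht3⟩ := hsd (s + 1) a hs' (habs _ le_rfl (by omega))
        by_contra hcon
        exact h5 t' (by omega) (by omega) ht3
      · have e : a + ((T - a + 1).toNat : ℤ) - 1 = T := by omega
        rw [e]; exact h3
      · intro t ht1 ht2
        exact h5 t ht1 (by omega)
      · intro T' hT1 hT2 hT3 hT4
        right
        have : T' = T := by
          rcases lt_trichotomy T' T with h | h | h
          · exact absurd hT3 (h4 T' hT1 h)
          · exact h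
          · exact absurd h3 (hT4 T h1 h)
        omega
    · push Not at h
      refine ⟨0, Nat.zero_le _, Or.inl rfl, ?_⟩
      intro T h1 h2 h3 h4
      left
      obtain ⟨u, hu⟩ := h T h1 h2 h3 h4
      exact ⟨u, hu⟩
  refine ⟨d, d', hdL, hdL', hd, hd', ?_⟩
  -- rows which are not bad
  have hgood : ∀ t, a + d' ≤ t → t ≤ b - d → ¬ P t → O (s + 1, t) := by
    intro t ht1 ht2 htP
    obtain ⟨lo, hlo, hlo'⟩ : ∃ lo, lo < t ∧ a - 1 ≤ lo ∧ (∀ v, lo < v → v ≤ t → ¬ P v) ∧
        ((lo = a - 1) ∨ P lo) := by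
      by_cases h : ∃ v, a ≤ v ∧ v < t ∧ P v
      · obtain ⟨lo, ⟨h1, h2, h3⟩, h4⟩ := Int.exists_greatest_of_bdd
          (P := fun v => a ≤ v ∧ v < t ∧ P v) ⟨t, fun v hv => hv.2.1.le⟩ h
        refine ⟨lo, h2, by omega, ?_, Or.inr h3⟩
        intro v hv1 hv2 hv3
        rcases eq_or_lt_of_le hv2 with h | h
        · exact htP (h ▸ hv3)
        · exact absurd (h4 v ⟨by omega, h, hv3⟩) (by omega)
      · push Not at h
        refine ⟨a - 1, by omega, le_rfl, ?_, Or.inl rfl⟩
        intro v hv1 hv2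
        rcases eq_or_lt_of_le hv2 with h' | h'
        · exact h' ▸ htP
        · exact h v (by omega) h'
    obtain ⟨hi, hhi, hhi'⟩ : ∃ hi, t < hi ∧ hi ≤ b + 1 ∧ (∀ v, t ≤ v → v < hi → ¬ P v) ∧
        ((hi = b + 1) ∨ P hi) := by
      by_cases h : ∃ v, t < v ∧ v ≤ b ∧ P v
      · obtain ⟨hi, ⟨h1, h2, h3⟩, h4⟩ := Int.exists_least_of_bdd
          (P := fun v => t < v ∧ v ≤ b ∧ P v) ⟨t, fun v hv => hv.1.le⟩ h
        refine ⟨hi, h1, by omega, ?_, Or.inr h3⟩
        intro v hv1 hv2 hv3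
        rcases eq_or_lt_of_le hv1 with h | h
        · exact htP (h ▸ hv3)
        · exact absurd (h4 v ⟨h, by omega, hv3⟩) (by omega)
      · push Not at h
        refine ⟨b + 1, by omega, le_rfl, ?_, Or.inl rfl⟩
        intro v hv1 hv2
        rcases eq_or_lt_of_le hv1 with h' | h'
        · exact h' ▸ htP
        · exact h v h' (by omega)
    obtain ⟨hlo1, hlo2, hlo3⟩ := hlo'
    obtain ⟨hhi1, hhi2, hhi3⟩ := hhi'
    have hrun : ∀ v, lo < v → v < hi → ¬ P v := by
      intro v hv1 hv2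
      rcases le_total v t with h | h
      · exact hlo2 v hv1 h
      · exact hhi2 v h hv2
    have hseed : ∃ u, lo < u ∧ u < hi ∧ c (s + 1, u) = 1 := by
      by_cases h1 : a ≤ lo
      · have hl : P lo := by
          rcases hlo3 with h | h
          · omega
          · exact h
        by_cases h2 : hi ≤ b
        · have hh : P hi := by
            rcases hhi3 with h | h
            · omega
            · exact h
          exact hg s lo hi hs (habs _ h1 (by omega)) (habs _ (by omega) h2) (by omega) hl hh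
        · rcases htop lo h1 (by omega) hl (fun v h1 h2 => hrun v h1 (by omega)) with
            ⟨u, hu1, hu2, hu3⟩ | h
          · exact ⟨u, hu1, by omega, hu3⟩
          · omega
      · by_cases h2 : hi ≤ b
        · have hh : P hi := by
            rcases hhi3 with h | h
            · omega
            · exact h
          rcases hbot hi (by omega) h2 hh (fun v h1 h2 => hrun v (by omega) h2) with
            ⟨u, hu1, hu2, hu3⟩ | h
          · exact ⟨u, by omega, hu2, hu3⟩
          · omega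
        · obtain ⟨u, hu1, hu2, hu3⟩ := hsd (s + 1) a hs' (habs _ le_rfl (by omega))
          exact ⟨u, by omega, by omega, hu3⟩
    obtain ⟨u, hu1, hu2, hu3⟩ := hseed
    have hOu : O (s + 1, u) := R.seed _ hs' (habs _ (by omega) (by omega)) hu3
    have hrow : ∀ v, lo < v → v < hi → |v| ≤ M ∧ c (s + 1, v) ≠ 2 ∧ O (s, v) := by
      intro v hv1 hv2
      have hnP := hrun v hv1 hv2
      simp only [hP, not_or] at hnP
      exact ⟨habs v (by omega) (by omega), hnP.2, hf v (by omega) (by omega) hnP.1⟩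
    rcases le_total u t with h | h
    · have := fill_up R hs' u (t - u).toNat hOu (fun v h1 h2 => hrow v (by omega) (by omega))
      have e : u + ((t - u).toNat : ℤ) = t := by omega
      rwa [e] at this
    · have := fill_down R hs' u (u - t).toNat hOu (fun v h1 h2 => hrow v (by omega) (by omega))
      have e : u - ((u - t).toNat : ℤ) = t := by omega
      rwa [e] at this
  -- all rows
  intro t ht1 ht2 htc
  by_cases htP : P t
  · by_cases ht3 : c (s + 1, t) = 1
    · exact R.seed _ hs' (habs _ (by omega) (by omega)) ht3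
    have hadj : ∀ v, a ≤ v → v + 1 ≤ b → P v → ¬ P (v + 1) := by
      intro v h1 h2 h3 h4
      obtain ⟨u, hu1, hu2, -⟩ := hg s v (v + 1) hs (habs _ h1 (by omega)) (habs _ (by omega) h2)
        (by omega) h3 h4
      omega
    have htb : t < b - d := by
      by_contra hcon
      have e : t = b - d := by omega
      rcases hd with h | ⟨h1, h2, h3⟩
      · subst h
        have e' : t = b := by simpa using e
        rcases htop t (by omega) (by omega) htP (fun v h1 h2 => absurd h1 (by omega)) with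
          ⟨u, hu1, hu2, hu3⟩ | h
        · omega
        · simp at h
          omega
      · refine hadj t (by omega) (by omega) htP ?_
        rw [e]
        exact h2
    have hta : a + d' < t := by
      by_contra hcon
      have e : t = a + d' := by omega
      rcases hd' with h | ⟨h1, h2, h3⟩
      · subst h
        have e' : t = a := by simpa using e
        rcases hbot t (by omega) (by omega) htP (fun v h1 h2 => absurd h1 (by omega)) with
          ⟨u, hu1, hu2, hu3⟩ | h
        · omega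
        · simp at h
          omega
      · refine hadj (t - 1) (by omega) (by omega) ?_ (by rwa [sub_add_cancel])
        rw [e]
        exact h2
    have h1 := hgood (t + 1) (by omega) (by omega) (hadj t (by omega) (by omega) htP)
    have h2 := hgood (t - 1) (by omega) (by omega) (fun h => hadj (t - 1) (by omega) (by omega) h
      (by rwa [sub_add_cancel]))
    refine R.fill _ (s + 1, t + 1) (s + 1, t - 1) hs' (habs _ (by omega) (by omega)) htc ?_ ?_ ?_
      h1 h2
    · rw [mem_nbrs]; right; right; left; rfl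
    · rw [mem_nbrs]; right; right; right; rfl
    · intro hcon
      have := congrArg Prod.snd hcon
      simp only at this
      omega
  · exact hgood t ht1 ht2 htP

end Pool.Agent.Lib.MP_daac75_pr
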