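import Pool.Agent.Lib.MP_daac75_pr.Defs

/-!
# Independent sites
-/

open MeasureTheory ProbabilityTheory Finset

namespace Pool.Agent.Lib.MP_daac75_pr

/-- the states of the sites are independent, `1` with probability `p` and `2` with
probability `q` -/
structure IID {Ω : Type*} [MeasurableSpace Ω] (P : Measure Ω) (X : ℤ × ℤ → Ω → Fin 3)
    (p q : ℝ) : Prop where
  prob : IsProbabilityMeasure P
  meas : ∀ x, Measurable (X x)
  indep : iIndepFun X P
  one : ∀ x, P.real {ω | X x ω = 1} = p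
  two : ∀ x, P.real {ω | X x ω = 2} = q

/-- the probability of a property of the configuration -/
noncomputable def pr {Ω : Type*} [MeasurableSpace Ω] (P : Measure Ω) (X : ℤ × ℤ → Ω → Fin 3)
    (Q : (ℤ × ℤ → Fin 3) → Prop) : ℝ :=
  P.real {ω | Q fun x => X x ω}

/-- the property depends only on the states of the sites of `A` -/
def Dep (A : Finset (ℤ × ℤ)) (Q : (ℤ × ℤ → Fin 3) → Prop) : Prop :=
  ∀ c c' : ℤ × ℤ → Fin 3, (∀ x ∈ A, c x = c' x) → Q c → Q c'

variable {Ω : Type*} [MeasurableSpace Ω] {P : Measure Ω} {X : ℤ × ℤ → Ω → Fin 3} {p q : ℝ}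
  {A B : Finset (ℤ × ℤ)} {Q Q' : (ℤ × ℤ → Fin 3) → Prop}

lemma Dep.mono (h : Dep A Q) (hAB : A ⊆ B) : Dep B Q :=
  fun c c' hc => h c c' fun x hx => hc x (hAB hx)

lemma Dep.not (h : Dep A Q) : Dep A fun c => ¬ Q c :=
  fun c c' hc hq hq' => hq (h c' c (fun x hx => (hc x hx).symm) hq')

lemma Dep.and (h : Dep A Q) (h' : Dep A Q') : Dep A fun c => Q c ∧ Q' c :=
  fun c c' hc hq => ⟨h c c' hc hq.1, h' c c' hc hq.2⟩

lemma Dep.or (h : Dep A Q) (h' : Dep A Q') : Dep A fun c => Q c ∨ Q' c :=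
  fun c c' hc hq => hq.imp (h c c' hc) (h' c c' hc)

/-- the restriction of a configuration -/
noncomputable def ext (A : Finset (ℤ × ℤ)) (g : A → Fin 3) : ℤ × ℤ → Fin 3 :=
  fun x => if h : x ∈ A then g ⟨x, h⟩ else 0

lemma dep_iff (h : Dep A Q) (c : ℤ × ℤ → Fin 3) : Q (ext A fun i => c i) ↔ Q c := by
  constructor
  · refine h _ _ fun x hx => ?_
    simp [ext, hx]
  · refine h _ _ fun x hx => ?_
    simp [ext, hx]

lemma IID.measurableSet (hX : IID P X p q) (h : Dep A Q) :
    MeasurableSet {ω | Q fun x => X x ω} := by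
  have e : {ω | Q fun x => X x ω} =
      (fun ω (i : A) => X i ω) ⁻¹' {g | Q (ext A g)} := by
    ext ω
    exact (dep_iff h _).symm
  have hm : MeasurableSet {g : A → Fin 3 | Q (ext A g)} := (Set.toFinite _).measurableSet
  have hm2 : Measurable (fun ω (i : A) => X i ω) := measurable_pi_lambda _ fun i => hX.meas i
  rw [e]
  exact hm2 hm

lemma IID.pr_and (hX : IID P X p q) (hA : Dep A Q) (hB : Dep B Q') (hAB : Disjoint A B) :
    pr P X (fun c => Q c ∧ Q' c) = pr P X Q * pr P X Q' := by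
  have := hX.prob
  have hI := hX.indep.indepFun_finset A B hAB hX.meas
  have h1 := hI.measure_inter_preimage_eq_mul {g | Q (ext A g)} {g | Q' (ext B g)}
    (Set.toFinite _).measurableSet (Set.toFinite _).measurableSet
  have e1 : {ω | Q fun x => X x ω} = (fun ω (i : A) => X i ω) ⁻¹' {g | Q (ext A g)} := by
    ext ω
    exact (dep_iff hA _).symm
  have e2 : {ω | Q' fun x => X x ω} = (fun ω (i : B) => X i ω) ⁻¹' {g | Q' (ext B g)} := by
    ext ω
    exact (dep_iff hB _).symm
  rw [← e1, ← e2] at h1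
  have h2 := congrArg ENNReal.toReal h1
  rw [ENNReal.toReal_mul] at h2
  exact h2

lemma pr_nonneg : 0 ≤ pr P X Q := measureReal_nonneg

lemma IID.pr_le_one (hX : IID P X p q) : pr P X Q ≤ 1 := by
  have := hX.prob
  exact measureReal_le_one

lemma IID.pr_mono (hX : IID P X p q) (h : ∀ c, Q c → Q' c) : pr P X Q ≤ pr P X Q' := by
  have := hX.prob
  exact measureReal_mono fun ω hω => h _ hω

lemma IID.pr_congr (h : ∀ c, Q c ↔ Q' c) : pr P X Q = pr P X Q' := by
  unfold pr
  simp only [h]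

lemma pr_or : pr P X (fun c => Q c ∨ Q' c) ≤ pr P X Q + pr P X Q' :=
  measureReal_union_le _ _

lemma pr_exists {ι : Type*} (s : Finset ι) (R : ι → (ℤ × ℤ → Fin 3) → Prop) :
    pr P X (fun c => ∃ i ∈ s, R i c) ≤ ∑ i ∈ s, pr P X (R i) := by
  unfold pr
  have e : {ω | ∃ i ∈ s, R i fun x => X x ω} = ⋃ i ∈ s, {ω | R i fun x => X x ω} := by
    ext ω
    simp
  rw [e]
  exact measureReal_biUnion_finset_le _ _

lemma IID.pr_true (hX : IID P X p q) : pr P X (fun _ => True) = 1 := by
  have := hX.prob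
  unfold pr
  simp

lemma pr_false : pr P X (fun _ => False) = 0 := by
  unfold pr
  simp

lemma IID.pr_not (hX : IID P X p q) (h : Dep A Q) : pr P X (fun c => ¬ Q c) = 1 - pr P X Q := by
  have := hX.prob
  have h1 := hX.measurableSet h
  unfold pr
  rw [← probReal_compl_eq_one_sub h1]
  rfl

lemma IID.pr_all (hX : IID P X p q) (F : Finset (ℤ × ℤ)) (R : Fin 3 → Prop) (u : ℝ)
    (hu : ∀ x, P.real {ω | R (X x ω)} = u) : pr P X (fun c => ∀ x ∈ F, R (c x)) = u ^ F.card := by
  classical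
  induction F using Finset.induction_on with
  | empty =>
    simp only [Finset.notMem_empty, false_implies, implies_true, Finset.card_empty, pow_zero]
    exact hX.pr_true
  | @insert a F ha ih =>
    have h1 : Dep ({a} : Finset (ℤ × ℤ)) fun c => R (c a) := by
      intro c c' h hc
      have := h a (Finset.mem_singleton_self a)
      rwa [← this]
    have h2 : Dep F fun c => ∀ x ∈ F, R (c x) := by
      intro c c' h hc x hx
      rw [← h x hx]
      exact hc x hx
    have h3 := hX.pr_and h1 h2 (by simpa using ha)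
    rw [ih] at h3
    rw [Finset.card_insert_of_notMem ha, pow_succ, mul_comm, ← hu a]
    rw [← hu a] at h3
    refine Eq.trans ?_ h3
    unfold pr
    simp

lemma IID.pr_two (hX : IID P X p q) (F : Finset (ℤ × ℤ)) :
    pr P X (fun c => ∀ x ∈ F, c x = 2) = q ^ F.card :=
  hX.pr_all F (fun a => a = 2) q hX.two

lemma IID.pr_one (hX : IID P X p q) (F : Finset (ℤ × ℤ)) :
    pr P X (fun c => ∀ x ∈ F, c x = 1) = p ^ F.card :=
  hX.pr_all F (fun a => a = 1) p hX.one

lemma IID.pr_not_one (hX : IID P X p q) (F : Finset (ℤ × ℤ)) :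
    pr P X (fun c => ∀ x ∈ F, c x ≠ 1) = (1 - p) ^ F.card := by
  refine hX.pr_all F (fun a => a ≠ 1) (1 - p) fun x => ?_
  have := hX.prob
  have h1 : MeasurableSet {ω | X x ω = 1} := hX.meas x (measurableSet_singleton 1)
  have h2 := probReal_compl_eq_one_sub (μ := P) h1
  rw [hX.one x] at h2
  exact h2

lemma IID.comp (hX : IID P X p q) {φ : ℤ × ℤ → ℤ × ℤ} (hφ : Function.Injective φ) :
    IID P (fun x => X (φ x)) p q where
  prob := hX.prob
  meas _ := hX.meas _
  indep := hX.indep.precomp hφ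
  one _ := hX.one _
  two _ := hX.two _

lemma IID.hq (hX : IID P X p q) : 0 ≤ q := by
  rw [← hX.two (0, 0)]
  exact measureReal_nonneg

lemma IID.hp (hX : IID P X p q) : 0 ≤ p := by
  rw [← hX.one (0, 0)]
  exact measureReal_nonneg

lemma IID.hp1 (hX : IID P X p q) : p ≤ 1 := by
  have := hX.prob
  rw [← hX.one (0, 0)]
  exact measureReal_le_one

lemma IID.hq1 (hX : IID P X p q) : q ≤ 1 := by
  have := hX.prob
  rw [← hX.two (0, 0)]
  exact measureReal_le_one

/-- an obstacle at one site and no seeds at other sites -/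
lemma IID.pr_obst (hX : IID P X p q) (x : ℤ × ℤ) (F : Finset (ℤ × ℤ)) (hx : x ∉ F) :
    pr P X (fun c => c x = 2 ∧ ∀ y ∈ F, c y ≠ 1) = q * (1 - p) ^ F.card := by
  have h1 : Dep ({x} : Finset (ℤ × ℤ)) fun c => c x = 2 := by
    intro c c' h hc
    rw [← h x (Finset.mem_singleton_self x)]
    exact hc
  have h2 : Dep F fun c => ∀ y ∈ F, c y ≠ 1 := by
    intro c c' h hc y hy
    rw [← h y hy]
    exact hc y hy
  rw [hX.pr_and h1 h2 (by simpa using hx), hX.pr_not_one F]
  congr 1
  exact hX.two x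

/-- obstacles at two sites and no seeds at other sites -/
lemma IID.pr_obst2 (hX : IID P X p q) (x x' : ℤ × ℤ) (hxx : x ≠ x') (F : Finset (ℤ × ℤ))
    (hx : x ∉ F) (hx' : x' ∉ F) :
    pr P X (fun c => c x = 2 ∧ c x' = 2 ∧ ∀ y ∈ F, c y ≠ 1) = q ^ 2 * (1 - p) ^ F.card := by
  have h1 : Dep ({x} : Finset (ℤ × ℤ)) fun c => c x = 2 := by
    intro c c' h hc
    rw [← h x (Finset.mem_singleton_self x)]
    exact hc
  have h2 : Dep (insert x' F) fun c => c x' = 2 ∧ ∀ y ∈ F, c y ≠ 1 := by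
    intro c c' h hc
    refine ⟨?_, fun y hy => ?_⟩
    · rw [← h x' (Finset.mem_insert_self x' F)]
      exact hc.1
    · rw [← h y (Finset.mem_insert_of_mem hy)]
      exact hc.2 y hy
  rw [hX.pr_and h1 h2 (by
    rw [Finset.disjoint_singleton_left, Finset.mem_insert]
    rintro (h | h)
    · exact hxx h
    · exact hx h), hX.pr_obst x' F hx', sq, mul_assoc]
  congr 1
  exact hX.two x

end Pool.Agent.Lib.MP_daac75_pr
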