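import Pool.Agent.Lib.MP_daac75_pr.Numer

/-!
# The limit theorems
-/

open MeasureTheory ProbabilityTheory Finset Filter Topology

namespace Pool.Agent.Lib.MP_daac75_pr

/-- the scale -/
noncomputable def scale (p : ℝ) : ℕ := ⌈√(√(1 / p))⌉₊

lemma par_scale {p q : ℝ} (hp : 0 < p) (hp1 : p ≤ 1) (hq : 0 ≤ q) (hqp : q ≤ p ^ 2 / 10 ^ 6) :
    Par (scale p) p q := by
  set y : ℝ := √(√(1 / p)) with hy
  have h1 : 1 ≤ 1 / p := by rw [le_div_iff₀ hp]; linarith
  have hy1 : 1 ≤ y := by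
    rw [hy, Real.one_le_sqrt, Real.one_le_sqrt]
    exact h1
  have hy4 : y ^ 4 = 1 / p := by
    have h2 : y ^ 2 = √(1 / p) := Real.sq_sqrt (Real.sqrt_nonneg _)
    have h3 : √(1 / p) ^ 2 = 1 / p := Real.sq_sqrt (by positivity)
    calc y ^ 4 = (y ^ 2) ^ 2 := by ring
      _ = 1 / p := by rw [h2, h3]
  have hn1 : y ≤ scale p := Nat.le_ceil y
  have hn2 : (scale p : ℝ) < y + 1 := Nat.ceil_lt_add_one (by linarith)
  have hn0 : (1 : ℝ) ≤ scale p := by linarith
  have hn4 : 1 / p ≤ (scale p : ℝ) ^ 4 := by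
    rw [← hy4]
    exact pow_le_pow_left₀ (by linarith) hn1 4
  have hn5 : (scale p : ℝ) ^ 4 ≤ 16 * (1 / p) := by
    rw [← hy4]
    calc (scale p : ℝ) ^ 4 ≤ (2 * y) ^ 4 := pow_le_pow_left₀ (by linarith) (by linarith) 4
      _ = 16 * y ^ 4 := by ring
  have hpos : 0 < (scale p : ℝ) ^ 4 := by positivity
  refine ⟨by exact_mod_cast hn0, ?_, ?_, hp1, hq, hqp⟩
  · rw [div_le_iff₀ hpos]
    rw [div_le_iff₀ hp] at hn4
    linarith
  · rw [le_div_iff₀ hpos]
    have := mul_le_mul_of_nonneg_left hn5 hp.le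
    have e : p * (16 * (1 / p)) = 16 := by field_simp
    linarith

/-- The probability that the origin is never in state one is small. -/
theorem fail_small' {ε : ℝ} (hε : 0 < ε) : ∃ δ : ℝ, 0 < δ ∧ ∀ p q : ℝ, 0 < p → p < δ → 0 ≤ q →
    q ≤ p ^ 2 / 10 ^ 6 → ∀ {Ω : Type} [MeasurableSpace Ω] (P : Measure Ω)
    (X : ℤ × ℤ → Ω → Fin 3), IID P X p q →
    pr P X (fun c => ¬ ∃ t, update^[t] c (0, 0) = 1) ≤ ε := by
  set θ : ℝ := min (1 / 6) (ε / 48) with hθ
  have h1 : 0 < θ := by rw [hθ]; positivity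
  have h2 : θ ≤ 1 / 6 := min_le_left _ _
  have h3 : θ ≤ ε / 48 := min_le_right _ _
  obtain ⟨n0, hn0⟩ := fail_small h1 h2
  refine ⟨min θ (1 / ((n0 : ℝ) + 1) ^ 4), by positivity, ?_⟩
  intro p q hp hpd hq hqp Ω _ P X hX
  have hp1 : p < θ := lt_of_lt_of_le hpd (min_le_left _ _)
  have hp2 : p < 1 / ((n0 : ℝ) + 1) ^ 4 := lt_of_lt_of_le hpd (min_le_right _ _)
  have hPar := par_scale hp (by linarith) hq hqp
  have hge : n0 ≤ scale p := by
    have h4 : (n0 : ℝ) + 1 ≤ √(√(1 / p)) := by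
      apply Real.le_sqrt_of_sq_le
      apply Real.le_sqrt_of_sq_le
      rw [lt_div_iff₀ (by positivity)] at hp2
      rw [le_div_iff₀ hp]
      nlinarith
    have h5 : (√(√(1 / p))) ≤ scale p := Nat.le_ceil _
    have h6 : (n0 : ℝ) ≤ scale p := by linarith
    exact_mod_cast h6
  have h4 := hn0 _ hge p q hPar P X hX
  have h5 : q ≤ θ := by
    calc q ≤ p ^ 2 / 10 ^ 6 := hqp
      _ ≤ p := by nlinarith
      _ ≤ θ := hp1.le
  linarith

section
variable {p q : ℝ}

lemma siteLaw_prob (hp : 0 ≤ p) (hq : 0 ≤ q) (hpq : p + q ≤ 1) :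
    IsProbabilityMeasure (siteLaw p q) := by
  constructor
  unfold siteLaw
  simp only [Measure.coe_add, Measure.coe_smul, Pi.add_apply, Pi.smul_apply, measure_univ,
    smul_eq_mul, mul_one]
  rw [← ENNReal.ofReal_add (by linarith) hp, ← ENNReal.ofReal_add (by linarith) hq]
  have e : 1 - p - q + p + q = 1 := by ring
  rw [e, ENNReal.ofReal_one]

lemma siteLaw_real (hp : 0 ≤ p) (hq : 0 ≤ q) (hpq : p + q ≤ 1) (A : Set (Fin 3)) :
    (siteLaw p q).real A = (1 - p - q) * A.indicator 1 0 + p * A.indicator 1 1 +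
      q * A.indicator 1 2 := by
  have h := siteLaw_prob hp hq hpq
  unfold siteLaw Measure.real
  simp only [Measure.coe_add, Measure.coe_smul, Pi.add_apply, Pi.smul_apply, smul_eq_mul]
  rw [Measure.dirac_apply, Measure.dirac_apply, Measure.dirac_apply]
  have key : ∀ a : Fin 3, A.indicator (1 : Fin 3 → ENNReal) a =
      ENNReal.ofReal (A.indicator (1 : Fin 3 → ℝ) a) := by
    intro a
    by_cases ha : a ∈ A
    · simp [ha]
    · simp [ha]
  have hnn : ∀ a : Fin 3, 0 ≤ A.indicator (1 : Fin 3 → ℝ) a := by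
    intro a
    by_cases ha : a ∈ A
    · simp [ha]
    · simp [ha]
  have e0 := hnn 0
  have e1 := hnn 1
  have e2 := hnn 2
  have hr : 0 ≤ 1 - p - q := by linarith
  rw [key, key, key, ← ENNReal.ofReal_mul hr, ← ENNReal.ofReal_mul hp, ← ENNReal.ofReal_mul hq,
    ← ENNReal.ofReal_add (by positivity) (by positivity),
    ← ENNReal.ofReal_add (by positivity) (by positivity), ENNReal.toReal_ofReal (by positivity)]

lemma iid_map (hp : 0 ≤ p) (hq : 0 ≤ q) (hpq : p + q ≤ 1) (σ : Fin 3 → Fin 3) :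
    IID (initLaw p q) (fun x (ω : ℤ × ℤ → Fin 3) => σ (ω x))
      ((siteLaw p q).real {a | σ a = 1}) ((siteLaw p q).real {a | σ a = 2}) := by
  have h := siteLaw_prob hp hq hpq
  have hσ : Measurable σ := measurable_of_finite σ
  have hval : ∀ (x : ℤ × ℤ) (b : Fin 3), (initLaw p q).real {ω | σ (ω x) = b} =
      (siteLaw p q).real {a | σ a = b} := by
    intro x b
    have h1 := measurePreserving_eval_infinitePi (fun _ : ℤ × ℤ => siteLaw p q) x
    have h2 : MeasurableSet {a : Fin 3 | σ a = b} := hσ (measurableSet_singleton b)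
    have h3 := h1.measureReal_preimage h2.nullMeasurableSet
    rw [← h3]
    rfl
  refine ⟨?_, ?_, ?_, fun x => hval x 1, fun x => hval x 2⟩
  · unfold initLaw
    infer_instance
  · intro x
    exact hσ.comp (measurable_pi_apply x)
  · exact iIndepFun_infinitePi (P := fun _ : ℤ × ℤ => siteLaw p q) (X := fun _ => σ) fun _ => hσ

lemma iid_id (hp : 0 ≤ p) (hq : 0 ≤ q) (hpq : p + q ≤ 1) :
    IID (initLaw p q) (fun x (ω : ℤ × ℤ → Fin 3) => ω x) p q := by
  have h := iid_map hp hq hpq id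
  rw [siteLaw_real hp hq hpq, siteLaw_real hp hq hpq] at h
  simpa [Set.indicator] using h

/-- the exchange of the states one and two -/
def sw : Fin 3 → Fin 3 := ![0, 2, 1]

lemma iid_sw (hp : 0 ≤ p) (hq : 0 ≤ q) (hpq : p + q ≤ 1) :
    IID (initLaw p q) (fun x (ω : ℤ × ℤ → Fin 3) => sw (ω x)) q p := by
  have h := iid_map hp hq hpq sw
  rw [siteLaw_real hp hq hpq, siteLaw_real hp hq hpq] at h
  simpa [Set.indicator, sw] using h

end

lemma update_sw (ξ : ℤ × ℤ → Fin 3) : update (fun x => sw (ξ x)) = fun x => sw (update ξ x) := by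
  funext x
  have h0 : ∀ a : Fin 3, sw a = 1 ↔ a = 2 := by decide
  have h1 : ∀ a : Fin 3, sw a = 2 ↔ a = 1 := by decide
  have h2 : ∀ a : Fin 3, sw a = 0 ↔ a = 0 := by decide
  have c1 : nbrCount (fun x => sw (ξ x)) 1 x = nbrCount ξ 2 x := by
    unfold nbrCount
    simp only [h0]
  have c2 : nbrCount (fun x => sw (ξ x)) 2 x = nbrCount ξ 1 x := by
    unfold nbrCount
    simp only [h1]
  rw [update_apply, update_apply, c1, c2]
  by_cases hx : ξ x = 0
  · have hx' : sw (ξ x) = 0 := (h2 _).mpr hx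
    simp only [hx', hx, ne_eq, not_true_eq_false, if_false]
    by_cases a1 : 2 ≤ nbrCount ξ 1 x <;> by_cases a2 : 2 ≤ nbrCount ξ 2 x <;>
      simp [a1, a2, sw]
  · have hx' : sw (ξ x) ≠ 0 := fun h => hx ((h2 _).mp h)
    rw [if_pos hx', if_pos hx]

lemma iterate_sw (ξ : ℤ × ℤ → Fin 3) (t : ℕ) :
    update^[t] (fun x => sw (ξ x)) = fun x => sw (update^[t] ξ x) := by
  induction t with
  | zero => rfl
  | succ t ih => rw [Function.iterate_succ_apply', Function.iterate_succ_apply', ih, update_sw]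

lemma one_sub_le_real {p q : ℝ} (hp : 0 ≤ p) (hq : 0 ≤ q) (hpq : p + q ≤ 1)
    (E : Set (ℤ × ℤ → Fin 3)) : 1 - (initLaw p q).real Eᶜ ≤ (initLaw p q).real E := by
  have := (iid_id hp hq hpq).prob
  have h1 := measureReal_union_le (μ := initLaw p q) E Eᶜ
  rw [Set.union_compl_self, probReal_univ] at h1
  linarith

lemma tendsto_of_real {p q : ℕ → ℝ} (hp : ∀ k, 0 ≤ p k) (hq : ∀ k, 0 ≤ q k)
    (hpq : ∀ k, p k + q k ≤ 1) (E : Set (ℤ × ℤ → Fin 3))
    (h : ∀ ε > 0, ∀ᶠ k in atTop, (initLaw (p k) (q k)).real Eᶜ ≤ ε) :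
    Tendsto (fun k => initLaw (p k) (q k) E) atTop (𝓝 1) := by
  have h1 : Tendsto (fun k => (initLaw (p k) (q k)).real E) atTop (𝓝 1) := by
    rw [Metric.tendsto_atTop']
    intro ε hε
    obtain ⟨N, hN⟩ := eventually_atTop.mp (h (ε / 2) (by positivity))
    refine ⟨N, fun k hk => ?_⟩
    have := (iid_id (hp k) (hq k) (hpq k)).prob
    have h2 := one_sub_le_real (hp k) (hq k) (hpq k) E
    have h3 := hN k hk.le
    have h4 : (initLaw (p k) (q k)).real E ≤ 1 := measureReal_le_one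
    rw [Real.dist_eq, abs_lt]
    constructor <;> linarith
  have h2 := ENNReal.tendsto_ofReal h1
  rw [ENNReal.ofReal_one] at h2
  refine h2.congr fun k => ?_
  have := (iid_id (hp k) (hq k) (hpq k)).prob
  exact ofReal_measureReal (measure_ne_top _ _)

theorem lim_one {p q : ℕ → ℝ} (hp : ∀ k, 0 < p k) (hq : ∀ k, 0 ≤ q k)
    (hpq : ∀ k, p k + q k ≤ 1) (h0 : Tendsto p atTop (𝓝 0))
    (hle : ∀ᶠ k in atTop, q k ≤ 1 / 10 ^ 6 * p k ^ 2) :
    Tendsto (fun k => initLaw (p k) (q k) (originEventually 1)) atTop (𝓝 1) := by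
  refine tendsto_of_real (fun k => (hp k).le) hq hpq _ ?_
  intro ε hε
  obtain ⟨δ, hδ, h⟩ := fail_small' hε
  filter_upwards [h0.eventually_lt_const hδ, hle] with k h1 h2
  exact h (p k) (q k) (hp k) h1 (hq k) (by linarith) _ _
    (iid_id (hp k).le (hq k) (hpq k))

theorem lim_two {p q : ℕ → ℝ} (hp : ∀ k, 0 ≤ p k) (hq : ∀ k, 0 < q k)
    (hpq : ∀ k, p k + q k ≤ 1) (h0 : Tendsto q atTop (𝓝 0))
    (hle : ∀ᶠ k in atTop, p k ≤ 1 / 10 ^ 6 * q k ^ 2) :
    Tendsto (fun k => initLaw (p k) (q k) (originEventually 2)) atTop (𝓝 1) := by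
  refine tendsto_of_real hp (fun k => (hq k).le) hpq _ ?_
  intro ε hε
  obtain ⟨δ, hδ, h⟩ := fail_small' hε
  filter_upwards [h0.eventually_lt_const hδ, hle] with k h1 h2
  have h3 := h (q k) (p k) (hq k) h1 (hp k) (by linarith) _ _
    (iid_sw (hp k) (hq k).le (hpq k))
  refine le_trans (le_of_eq ?_) h3
  unfold pr originEventually
  congr 1
  ext ω
  have e : ∀ a : Fin 3, sw a = 1 ↔ a = 2 := by decide
  simp only [iterate_sw, e]
  rfl

end Pool.Agent.Lib.MP_daac75_pr
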