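import Pool.Agent.Lib.MP_daac75_pr.Det

/-!
# The probability of failure
-/

open MeasureTheory ProbabilityTheory Finset

namespace Pool.Agent.Lib.MP_daac75_pr

variable {Ω : Type*} [MeasurableSpace Ω] {P : Measure Ω} {X : ℤ × ℤ → Ω → Fin 3} {p q : ℝ}

/-- the segment of the `k`-th nucleation -/
noncomputable def seg (L k : ℕ) : Finset (ℤ × ℤ) :=
  Finset.Icc (4 * L * (73 * k) - 4 * L : ℤ) (4 * L * (73 * k) + 4 * L) ×ˢ {(4 * L * (-40) : ℤ)}

lemma mem_seg {L k : ℕ} {x : ℤ × ℤ} : x ∈ seg L k ↔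
    ((4 * L * (73 * k) - 4 * L : ℤ) ≤ x.1 ∧ x.1 ≤ 4 * L * (73 * k) + 4 * L) ∧
      x.2 = 4 * L * (-40) := by
  rw [seg, Finset.mem_product, Finset.mem_Icc, Finset.mem_singleton]

lemma card_seg (L k : ℕ) : (seg L k).card = 8 * L + 1 := by
  rw [seg, Finset.card_product, Finset.card_singleton, Int.card_Icc]
  omega

/-- the nucleation -/
def Nuc (L k : ℕ) (c : ℤ × ℤ → Fin 3) : Prop := ∀ x ∈ seg L k, c x = 1

open Classical in
/-- the configuration with the segment filled -/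
noncomputable def mod (L k : ℕ) (c : ℤ × ℤ → Fin 3) : ℤ × ℤ → Fin 3 :=
  fun x => if x ∈ seg L k then 1 else c x

/-- the stem is bad -/
def BadStem (L k : ℕ) (c : ℤ × ℤ → Fin 3) : Prop :=
  ∃ j ∈ Finset.Icc (-40 : ℤ) 0, ¬ GoodAt (mod L k c) L (ctr L (((73 * k : ℕ) : ℤ), j))

/-- there are many twos in a square -/
def Many (L W : ℕ) (c : ℤ × ℤ → Fin 3) : Prop :=
  ∃ a ∈ Finset.Icc (-(rad' L W + 256 * L : ℤ)) (rad' L W + 256 * L),
    ∃ b ∈ Finset.Icc (-(rad' L W + 256 * L : ℤ)) (rad' L W + 256 * L),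
    ∃ T ∈ (square a b (4 * (64 * L))).powersetCard (64 * L), ∀ x ∈ T, c x = 2

lemma dep_nuc (L k : ℕ) : Dep (seg L k) (Nuc L k) := by
  intro c c' h hc x hx
  rw [← h x hx]
  exact hc x hx

lemma seg_disjoint {L k l : ℕ} (hL : 1 ≤ L) (hkl : k < l) : Disjoint (seg L k) (seg L l) := by
  have hL' : (1 : ℤ) ≤ L := by exact_mod_cast hL
  have hkl' : (k : ℤ) + 1 ≤ l := by exact_mod_cast hkl
  rw [Finset.disjoint_left]
  intro x hx hx'
  rw [mem_seg] at hx hx'
  nlinarith [mul_le_mul_of_nonneg_left hkl' (show (0 : ℤ) ≤ L by positivity)]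

lemma IID.pr_no_nuc (hX : IID P X p q) {L : ℕ} (hL : 1 ≤ L) (M : ℕ) :
    pr P X (fun c => ∀ k ∈ Finset.range M, ¬ Nuc L k c) = (1 - p ^ (8 * L + 1)) ^ M := by
  induction M with
  | zero =>
    simp only [Finset.range_zero, Finset.notMem_empty, false_implies, implies_true, pow_zero]
    exact hX.pr_true
  | succ M ih =>
    have h1 : Dep ((Finset.range M).biUnion (seg L)) fun c => ∀ k ∈ Finset.range M, ¬ Nuc L k c := by
      intro c c' h hc k hk
      refine (dep_nuc L k).not c c' ?_ (hc k hk)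
      intro x hx
      exact h x (Finset.mem_biUnion.mpr ⟨k, hk, hx⟩)
    have h2 := (dep_nuc L M).not
    have h3 : Disjoint ((Finset.range M).biUnion (seg L)) (seg L M) := by
      rw [Finset.disjoint_biUnion_left]
      intro k hk
      exact seg_disjoint hL (Finset.mem_range.mp hk)
    have h4 := hX.pr_and h1 h2 h3
    have h5 : pr P X (fun c => ∀ k ∈ Finset.range (M + 1), ¬ Nuc L k c) =
        pr P X (fun c => (∀ k ∈ Finset.range M, ¬ Nuc L k c) ∧ ¬ Nuc L M c) := by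
      refine IID.pr_congr fun c => ?_
      rw [Finset.range_add_one]
      constructor
      · intro h
        exact ⟨fun k hk => h k (Finset.mem_insert_of_mem hk), h M (Finset.mem_insert_self M _)⟩
      · rintro ⟨h, h'⟩ k hk
        rcases Finset.mem_insert.mp hk with rfl | hk
        · exact h'
        · exact h k hk
    have h6 : pr P X (fun c => ¬ Nuc L M c) = 1 - p ^ (8 * L + 1) := by
      rw [hX.pr_not (dep_nuc L M)]
      congr 1
      unfold Nuc
      rw [hX.pr_one, card_seg]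
    rw [h5, h4, ih, h6]
    exact (pow_succ _ M).symm

lemma IID.pr_badStem (hX : IID P X p q) {L : ℕ} (hL : 1 ≤ L) {η : ℝ}
    (hη : ∀ z, pr P X (fun c => ¬ GoodAt c L z) ≤ η) (k : ℕ) :
    pr P X (BadStem L k) ≤ 41 * η := by
  unfold BadStem
  refine le_trans (pr_exists _ _) ?_
  have h1 : ∀ j ∈ Finset.Icc (-40 : ℤ) 0,
      pr P X (fun c => ¬ GoodAt (mod L k c) L (ctr L (((73 * k : ℕ) : ℤ), j))) ≤ η := by
    intro j _
    refine le_trans (hX.pr_mono (Q' := fun c => ¬ GoodAt c L (ctr L (((73 * k : ℕ) : ℤ), j)))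
      fun c hc hG => hc ?_) (hη (ctr L (((73 * k : ℕ) : ℤ), j)))
    refine good_mono hL ?_ ?_ hG
    · intro x _ hx
      unfold mod
      split_ifs
      · rfl
      · exact hx
    · intro x _ hx
      unfold mod at hx
      split_ifs at hx
      · exact absurd hx (by decide)
      · exact hx
  refine le_trans (Finset.sum_le_sum h1) ?_
  have e : ((0 : ℤ) + 1 - (-40)).toNat = 41 := by decide
  rw [Finset.sum_const, Int.card_Icc, e, nsmul_eq_mul]
  norm_num

lemma dep_badStem {L k : ℕ} (hL : 1 ≤ L) : Dep (((Finset.Icc (-40 : ℤ) 0).biUnion fun j =>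
    ball (ctr L (((73 * k : ℕ) : ℤ), j)) (144 * L)) \ seg L k) (BadStem L k) := by
  intro c c' h ⟨j, hj, hc⟩
  refine ⟨j, hj, ?_⟩
  refine (dep_good hL (ctr L (((73 * k : ℕ) : ℤ), j))).not (mod L k c) (mod L k c') ?_ hc
  intro x hx
  unfold mod
  by_cases hs : x ∈ seg L k
  · rw [if_pos hs, if_pos hs]
  · rw [if_neg hs, if_neg hs]
    exact h x (Finset.mem_sdiff.mpr ⟨Finset.mem_biUnion.mpr ⟨j, hj, hx⟩, hs⟩)

lemma dep_rch {L W : ℕ} (hL : 1 ≤ L) (v : ℤ × ℤ) :
    Dep ((Reg W).biUnion fun w => ball (ctr L w) (144 * L)) fun c => Rch (Bad L W c) v := by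
  intro c c' h hc
  have e : Bad L W c = Bad L W c' := by
    funext w
    unfold Bad
    by_cases hw : w ∈ Reg W
    · have h1 : ∀ x ∈ ball (ctr L w) (144 * L), c x = c' x :=
        fun x hx => h x (Finset.mem_biUnion.mpr ⟨w, hw, hx⟩)
      have h2 : GoodAt c L (ctr L w) ↔ GoodAt c' L (ctr L w) :=
        ⟨dep_good hL _ c c' h1, dep_good hL _ c' c fun x hx => (h1 x hx).symm⟩
      rw [h2]
    · simp [hw]
  rw [← e]
  exact hc

lemma IID.pr_rch_bad (hX : IID P X p q) {L : ℕ} (hL : 1 ≤ L) {θ : ℝ} (hθ : 0 < θ)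
    (hθ1 : θ ≤ 1 / 6) (hη : ∀ z, pr P X (fun c => ¬ GoodAt c L z) ≤ θ ^ (2 * 5329)) (W : ℕ)
    (i : ℤ) (h : ℕ) : pr P X (fun c => Rch (Bad L W c) (i, h)) ≤ 2 * (1 / 2) ^ h * θ ^ h := by
  refine hX.pr_rch hθ hθ1 ?_ i h
  intro F
  refine le_trans (hX.pr_mono fun c hc v hv => (hc v hv).2) ?_
  exact hX.pr_all_bad hL hθ (by linarith) hη F

lemma IID.pr_first (hX : IID P X p q) {L W : ℕ} (hL : 1 ≤ L) {θ : ℝ} (hθ : 0 < θ)
    (hθ1 : θ ≤ 1 / 6) (hη : ∀ z, pr P X (fun c => ¬ GoodAt c L z) ≤ θ ^ (2 * 5329)) (M : ℕ) :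
    pr P X (fun c => ∃ k ∈ Finset.range M, ((∀ l ∈ Finset.range k, ¬ Nuc L l c) ∧ Nuc L k c) ∧
      (BadStem L k c ∨ Rch (Bad L W c) (((73 * k : ℕ) : ℤ), (1 : ℕ)))) ≤
      41 * θ ^ (2 * 5329) + θ := by
  have hL' : (1 : ℤ) ≤ L := by exact_mod_cast hL
  refine le_trans (pr_exists _ _) ?_
  set u := p ^ (8 * L + 1) with hu
  have hu0 : 0 ≤ u := pow_nonneg hX.hp _
  have hu1 : u ≤ 1 := pow_le_one₀ hX.hp hX.hp1
  have h1 : ∀ k ∈ Finset.range M,
      pr P X (fun c => ((∀ l ∈ Finset.range k, ¬ Nuc L l c) ∧ Nuc L k c) ∧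
      (BadStem L k c ∨ Rch (Bad L W c) (((73 * k : ℕ) : ℤ), (1 : ℕ)))) ≤
      ((1 - u) ^ k * u) * (41 * θ ^ (2 * 5329) + θ) := by
    intro k _
    have d1 : Dep ((Finset.range k).biUnion (seg L)) fun c => ∀ l ∈ Finset.range k, ¬ Nuc L l c := by
      intro c c' h hc l hl
      refine (dep_nuc L l).not c c' ?_ (hc l hl)
      intro x hx
      exact h x (Finset.mem_biUnion.mpr ⟨l, hl, hx⟩)
    have d2 := dep_nuc L k
    have h3 : Disjoint ((Finset.range k).biUnion (seg L)) (seg L k) := by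
      rw [Finset.disjoint_biUnion_left]
      intro l hl
      exact seg_disjoint hL (Finset.mem_range.mp hl)
    have h4 := hX.pr_and d1 d2 h3
    have h5 : pr P X (Nuc L k) = u := by
      unfold Nuc
      rw [hX.pr_one, card_seg]
    rw [hX.pr_no_nuc hL k, h5] at h4
    have d3 : Dep ((Finset.range (k + 1)).biUnion (seg L))
        fun c => (∀ l ∈ Finset.range k, ¬ Nuc L l c) ∧ Nuc L k c := by
      refine Dep.and (d1.mono ?_) (d2.mono ?_)
      · exact Finset.biUnion_subset_biUnion_of_subset_left _ (Finset.range_mono (Nat.le_succ k))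
      · exact Finset.subset_biUnion_of_mem (seg L) (Finset.mem_range.mpr (Nat.lt_succ_self k))
    set B1 := ((Finset.Icc (-40 : ℤ) 0).biUnion fun j =>
      ball (ctr L (((73 * k : ℕ) : ℤ), j)) (144 * L)) \ seg L k with hB1
    set B2 := ((Reg W).biUnion fun w => ball (ctr L w) (144 * L)) with hB2
    have d4 : Dep (B1 ∪ B2) fun c => BadStem L k c ∨
        Rch (Bad L W c) (((73 * k : ℕ) : ℤ), (1 : ℕ)) :=
      Dep.or ((dep_badStem hL).mono Finset.subset_union_left)
        ((dep_rch hL _).mono Finset.subset_union_right)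
    have hdis : Disjoint ((Finset.range (k + 1)).biUnion (seg L)) (B1 ∪ B2) := by
      rw [Finset.disjoint_biUnion_left]
      intro l hl
      rw [Finset.mem_range] at hl
      rw [Finset.disjoint_union_right]
      constructor
      · rw [Finset.disjoint_left]
        intro x hx hx'
        rw [hB1, Finset.mem_sdiff, Finset.mem_biUnion] at hx'
        obtain ⟨⟨j, hj, hb⟩, hs⟩ := hx'
        rcases Nat.lt_succ_iff_lt_or_eq.mp hl with h | h
        · rw [mem_seg] at hx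
          rw [mem_ball] at hb
          unfold ctr at hb
          simp only at hb
          push_cast at hb
          have hkl' : (l : ℤ) + 1 ≤ k := by exact_mod_cast h
          nlinarith [mul_le_mul_of_nonneg_left hkl' (show (0 : ℤ) ≤ L by positivity)]
        · subst h
          exact hs hx
      · rw [Finset.disjoint_left]
        intro x hx hx'
        rw [hB2, Finset.mem_biUnion] at hx'
        obtain ⟨w, hw, hb⟩ := hx'
        rw [mem_seg] at hx
        rw [mem_ball] at hb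
        rw [mem_Reg] at hw
        unfold ctr at hb
        simp only at hb
        push_cast at hb
        nlinarith [mul_le_mul_of_nonneg_left hw.2.1 (show (0 : ℤ) ≤ L by positivity)]
    rw [hX.pr_and d3 d4 hdis, h4]
    have h6 := hX.pr_badStem hL hη k
    have h7 := hX.pr_rch_bad hL hθ hθ1 hη W ((73 * k : ℕ) : ℤ) 1
    have h8 : pr P X (fun c => BadStem L k c ∨
        Rch (Bad L W c) (((73 * k : ℕ) : ℤ), (1 : ℕ))) ≤ 41 * θ ^ (2 * 5329) + θ := by
      refine le_trans pr_or (add_le_add h6 (le_trans h7 ?_))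
      apply le_of_eq
      ring
    have h9 : 0 ≤ (1 - u) ^ k * u := mul_nonneg (pow_nonneg (by linarith) k) hu0
    gcongr
  refine le_trans (Finset.sum_le_sum h1) ?_
  rw [← Finset.sum_mul, ← Finset.sum_mul]
  have h2 := mul_neg_geom_sum (1 - u) M
  have h3 : 0 ≤ (1 - u) ^ M := pow_nonneg (by linarith) M
  have h4 : (∑ i ∈ Finset.range M, (1 - u) ^ i) * u ≤ 1 := by
    have e : 1 - (1 - u) = u := by ring
    rw [e] at h2
    rw [mul_comm, h2]
    linarith
  have h5 : 0 ≤ 41 * θ ^ (2 * 5329) + θ := by positivity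
  calc (∑ i ∈ Finset.range M, (1 - u) ^ i) * u * (41 * θ ^ (2 * 5329) + θ)
      ≤ 1 * (41 * θ ^ (2 * 5329) + θ) := by gcongr
    _ = _ := one_mul _

lemma IID.pr_many (hX : IID P X p q) (L W : ℕ) :
    pr P X (Many L W) ≤ (2 * rad' L W + 512 * L + 1 : ℝ) ^ 2 *
      (((4 * (64 * L)) ^ 2).choose (64 * L) * q ^ (64 * L)) := by
  have hc : (Finset.Icc (-(rad' L W + 256 * L : ℤ)) (rad' L W + 256 * L)).card =
      2 * rad' L W + 512 * L + 1 := by
    rw [Int.card_Icc]
    omega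
  unfold Many
  refine le_trans (pr_exists _ _) ?_
  have h1 : ∀ a ∈ Finset.Icc (-(rad' L W + 256 * L : ℤ)) (rad' L W + 256 * L),
      pr P X (fun c => ∃ b ∈ Finset.Icc (-(rad' L W + 256 * L : ℤ)) (rad' L W + 256 * L),
        ∃ T ∈ (square a b (4 * (64 * L))).powersetCard (64 * L), ∀ x ∈ T, c x = 2) ≤
      (2 * rad' L W + 512 * L + 1) * (((4 * (64 * L)) ^ 2).choose (64 * L) * q ^ (64 * L)) := by
    intro a _
    refine le_trans (pr_exists _ _) ?_
    have h2 : ∀ b ∈ Finset.Icc (-(rad' L W + 256 * L : ℤ)) (rad' L W + 256 * L),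
        pr P X (fun c => ∃ T ∈ (square a b (4 * (64 * L))).powersetCard (64 * L),
          ∀ x ∈ T, c x = 2) ≤ ((4 * (64 * L)) ^ 2).choose (64 * L) * q ^ (64 * L) := by
      intro b _
      refine le_trans (pr_exists _ _) ?_
      have h3 : ∀ T ∈ (square a b (4 * (64 * L))).powersetCard (64 * L),
          pr P X (fun c => ∀ x ∈ T, c x = 2) = q ^ (64 * L) := by
        intro T hT
        rw [hX.pr_two, (Finset.mem_powersetCard.mp hT).2]
      rw [Finset.sum_congr rfl h3, Finset.sum_const, Finset.card_powersetCard, card_square,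
        nsmul_eq_mul]
    refine le_trans (Finset.sum_le_sum h2) ?_
    rw [Finset.sum_const, hc, nsmul_eq_mul]
    push_cast
    exact le_rfl
  refine le_trans (Finset.sum_le_sum h1) ?_
  rw [Finset.sum_const, hc, nsmul_eq_mul]
  push_cast
  apply le_of_eq
  ring

lemma not_many {L W : ℕ} {c : ℤ × ℤ → Fin 3} (hL : 1 ≤ L) (h : ¬ Many L W c) (a b : ℤ) :
    (twosF c (rad' L W) ∩ square a b (4 * (64 * L))).card < 64 * L := by
  by_contra hcon
  push Not at hcon
  apply h
  obtain ⟨T, hT1, hT2⟩ := Finset.exists_subset_card_eq hcon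
  have hne : T.Nonempty := by
    rw [← Finset.card_pos, hT2]
    omega
  obtain ⟨x, hx⟩ := hne
  have hx' := hT1 hx
  rw [Finset.mem_inter, mem_twosF, mem_ball, mem_square] at hx'
  obtain ⟨⟨⟨⟨h1, h2⟩, h3, h4⟩, h5⟩, ⟨h6, h7⟩, h8, h9⟩ := hx'
  push_cast at h7 h9
  simp only at h1 h2 h3 h4
  refine ⟨a, ?_, b, ?_, T, ?_, ?_⟩
  · rw [Finset.mem_Icc]
    constructor <;> omega
  · rw [Finset.mem_Icc]
    constructor <;> omega
  · rw [Finset.mem_powersetCard]
    exact ⟨fun y hy => (Finset.mem_inter.mp (hT1 hy)).2, hT2⟩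
  · intro y hy
    exact (mem_twosF.mp (Finset.mem_inter.mp (hT1 hy)).1).2

/-- The bound for the probability that the origin is never in state one. -/
theorem IID.pr_fail (hX : IID P X p q) (hp : 0 < p) {L M : ℕ} (hL : 1 ≤ L) (hM : 1 ≤ M) {θ : ℝ}
    (hθ : 0 < θ) (hθ1 : θ ≤ 1 / 6) (hη : badBound p q L ≤ θ ^ (2 * 5329)) :
    pr P X (fun c => ¬ ∃ t, update^[t] c (0, 0) = 1) ≤
      q + θ + (73 * M + 1) * (2 * (1 / 2) ^ (73 * M)) +
      (2 * rad' L (73 * M) + 512 * L + 1 : ℝ) ^ 2 *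
        (((4 * (64 * L)) ^ 2).choose (64 * L) * q ^ (64 * L)) +
      (1 - p ^ (8 * L + 1)) ^ M + (41 * θ ^ (2 * 5329) + θ) := by
  have hη' : ∀ z, pr P X (fun c => ¬ GoodAt c L z) ≤ θ ^ (2 * 5329) :=
    fun z => le_trans (hX.pr_bad hp z) hη
  set W := 73 * M with hW
  have hW1 : 1 ≤ W := by omega
  have h1 : ∀ c : ℤ × ℤ → Fin 3, (¬ ∃ t, update^[t] c (0, 0) = 1) →
      (((((c (0, 0) = 2 ∨ Rch (Bad L W c) (0, (1 : ℕ))) ∨
        (∃ i ∈ Finset.range (W + 1), Rch (Bad L W c) ((i : ℤ), (W : ℕ)))) ∨ Many L W c) ∨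
        (∀ k ∈ Finset.range M, ¬ Nuc L k c)) ∨
        (∃ k ∈ Finset.range M, ((∀ l ∈ Finset.range k, ¬ Nuc L l c) ∧ Nuc L k c) ∧
        (BadStem L k c ∨ Rch (Bad L W c) (((73 * k : ℕ) : ℤ), (1 : ℕ))))) := by
    intro c hc
    by_contra hcon
    push Not at hcon
    obtain ⟨⟨⟨⟨⟨a1, a2⟩, a3⟩, a4⟩, a5⟩, a6⟩ := hcon
    apply hc
    classical
    have hex : ∃ k, k < M ∧ Nuc L k c := by
      obtain ⟨k, hk, hk'⟩ := a5
      exact ⟨k, Finset.mem_range.mp hk, hk'⟩
    obtain ⟨hk1, hk2⟩ := Nat.find_spec hex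
    set k := Nat.find hex with hk
    have hfirst : ∀ l ∈ Finset.range k, ¬ Nuc L l c := by
      intro l hl hl'
      exact Nat.find_min hex (Finset.mem_range.mp hl)
        ⟨lt_trans (Finset.mem_range.mp hl) hk1, hl'⟩
    obtain ⟨b1, b2⟩ := a6 k (Finset.mem_range.mpr hk1) ⟨hfirst, hk2⟩
    have hmod : mod L k c = c := by
      funext x
      unfold mod
      split_ifs with h
      · exact (hk2 x h).symm
      · rfl
    refine det_main hL hW1 (k' := 73 * k) (by omega) (by exact_mod_cast a2)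
      (by exact_mod_cast b2) ?_ ?_ ?_ (not_many hL a4) a1
    · intro i hi1 hi2
      have := a3 i.toNat (Finset.mem_range.mpr (by omega))
      have e : ((i.toNat : ℕ) : ℤ) = i := by omega
      rw [e] at this
      exact this
    · intro j hj1 hj2
      by_contra hG
      exact b1 ⟨j, Finset.mem_Icc.mpr ⟨hj1, hj2⟩, by rw [hmod]; exact hG⟩
    · intro t ht
      refine hk2 _ ?_
      rw [mem_seg]
      unfold ctr
      rw [abs_le] at ht
      simp only [Prod.fst_add, Prod.snd_add]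
      push_cast
      refine ⟨⟨?_, ?_⟩, ?_⟩
      · linarith
      · linarith
      · ring
  refine le_trans (hX.pr_mono h1) ?_
  refine le_trans pr_or (add_le_add ?_ (hX.pr_first hL hθ hθ1 hη' M))
  refine le_trans pr_or (add_le_add ?_ (hX.pr_no_nuc hL M).le)
  refine le_trans pr_or (add_le_add ?_ (hX.pr_many L W))
  refine le_trans pr_or (add_le_add ?_ ?_)
  · refine le_trans pr_or (add_le_add (hX.two (0, 0)).le ?_)
    refine le_trans (hX.pr_rch_bad hL hθ hθ1 hη' W 0 1) ?_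
    apply le_of_eq
    ring
  · refine le_trans (pr_exists _ _) ?_
    have h2 : ∀ i ∈ Finset.range (W + 1),
        pr P X (fun c => Rch (Bad L W c) ((i : ℤ), (W : ℕ))) ≤ 2 * (1 / 2) ^ W := by
      intro i _
      refine le_trans (hX.pr_rch_bad hL hθ hθ1 hη' W i W) ?_
      have : θ ^ W ≤ 1 := pow_le_one₀ hθ.le (by linarith)
      calc 2 * (1 / 2 : ℝ) ^ W * θ ^ W ≤ 2 * (1 / 2 : ℝ) ^ W * 1 := by gcongr
        _ = _ := mul_one _
    refine le_trans (Finset.sum_le_sum h2) ?_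
    rw [Finset.sum_const, Finset.card_range, nsmul_eq_mul, hW]
    push_cast
    exact le_rfl

end Pool.Agent.Lib.MP_daac75_pr
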