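import Pool.Agent.Lib.MP_daac75_pr.Main

/-!
# Numerical estimates
-/

open MeasureTheory ProbabilityTheory Finset Filter Topology

namespace Pool.Agent.Lib.MP_daac75_pr

/-- the hypotheses on the parameters -/
structure Par (n : ℕ) (p q : ℝ) : Prop where
  hn : 1 ≤ n
  lo : 1 / (n : ℝ) ^ 4 ≤ p
  hi : p ≤ 16 / (n : ℝ) ^ 4
  p1 : p ≤ 1
  q0 : 0 ≤ q
  qp : q ≤ p ^ 2 / 10 ^ 6

lemma Par.x1 {n : ℕ} {p q : ℝ} (h : Par n p q) : (1 : ℝ) ≤ n := by exact_mod_cast h.hn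

lemma Par.p0 {n : ℕ} {p q : ℝ} (h : Par n p q) : 0 < p := by
  have := h.x1
  have h1 : 0 < 1 / (n : ℝ) ^ 4 := by positivity
  linarith [h.lo]

lemma Par.pL {n : ℕ} {p q : ℝ} (h : Par n p q) : (n : ℝ) ≤ p * (n : ℝ) ^ 5 := by
  have hx := h.x1
  have h1 : 1 / (n : ℝ) ^ 4 * (n : ℝ) ^ 5 ≤ p * (n : ℝ) ^ 5 := by
    have := h.lo
    gcongr
  have h2 : 1 / (n : ℝ) ^ 4 * (n : ℝ) ^ 5 = n := by field_simp
  linarith

lemma pow_one_sub_le {p : ℝ} (hp1 : p ≤ 1) (L : ℕ) : (1 - p) ^ L ≤ Real.exp (-(p * L)) := by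
  have h1 : 1 - p ≤ Real.exp (-p) := Real.one_sub_le_exp_neg p
  have h2 := pow_le_pow_left₀ (by linarith : 0 ≤ 1 - p) h1 L
  rw [← Real.exp_nat_mul] at h2
  have e : (L : ℝ) * -p = -(p * L) := by ring
  rwa [e] at h2

lemma bad_le {n : ℕ} {p q : ℝ} (h : Par n p q) : badBound p q (n ^ 5) ≤
    2 / (n : ℝ) ^ 2 + 8712 * ((n : ℝ) ^ 10 * Real.exp (-n)) +
      313632 * ((n : ℝ) ^ 20 * Real.exp (-(n / 4))) := by
  have hx := h.x1
  have hp := h.p0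
  have hp1 := h.p1
  have hq := h.q0
  have hpL := h.pL
  set x : ℝ := (n : ℝ) with hxd
  have hL : ((n ^ 5 : ℕ) : ℝ) = x ^ 5 := by push_cast; rfl
  have hL1 : 1 ≤ x ^ 5 := one_le_pow₀ hx
  unfold badBound
  rw [hL]
  -- q^2
  have hp4 : p ^ 4 ≤ 65536 / x ^ 16 := by
    have h1 : p ^ 4 ≤ (16 / x ^ 4) ^ 4 := pow_le_pow_left₀ hp.le h.hi 4
    calc p ^ 4 ≤ (16 / x ^ 4) ^ 4 := h1
      _ = 65536 / x ^ 16 := by
        rw [div_pow, ← pow_mul]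
        norm_num
  have hp3 : p ^ 3 ≤ 4096 / x ^ 12 := by
    have h1 : p ^ 3 ≤ (16 / x ^ 4) ^ 3 := pow_le_pow_left₀ hp.le h.hi 3
    calc p ^ 3 ≤ (16 / x ^ 4) ^ 3 := h1
      _ = 4096 / x ^ 12 := by
        rw [div_pow, ← pow_mul]
        norm_num
  have hq2 : q ^ 2 ≤ p ^ 4 / 10 ^ 12 := by
    have h1 : q ^ 2 ≤ (p ^ 2 / 10 ^ 6) ^ 2 := pow_le_pow_left₀ hq h.qp 2
    calc q ^ 2 ≤ (p ^ 2 / 10 ^ 6) ^ 2 := h1
      _ = p ^ 4 / 10 ^ 12 := by ring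
  have hq2p : q ^ 2 / p ≤ p ^ 3 / 10 ^ 12 := by
    rw [div_le_iff₀ hp]
    calc q ^ 2 ≤ p ^ 4 / 10 ^ 12 := hq2
      _ = p ^ 3 / 10 ^ 12 * p := by ring
  have hqp : 4 * q / p ≤ p / 10 ^ 5 := by
    rw [div_le_iff₀ hp]
    have := h.qp
    nlinarith
  have hqp0 : 0 ≤ 4 * q / p := by positivity
  -- first term
  have t1 : (288 * x ^ 5 + 1) ^ 2 * (25 * q ^ 2) ≤ 1 / x ^ 2 := by
    have h1 : (288 * x ^ 5 + 1) ^ 2 ≤ (289 * x ^ 5) ^ 2 :=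
      pow_le_pow_left₀ (by positivity) (by linarith) 2
    calc (288 * x ^ 5 + 1) ^ 2 * (25 * q ^ 2)
        ≤ (289 * x ^ 5) ^ 2 * (25 * (65536 / x ^ 16 / 10 ^ 12)) := by
          gcongr
          exact le_trans hq2 (by gcongr)
      _ = (289 ^ 2 * 25 * 65536 / 10 ^ 12) * (1 / x ^ 6) := by
          field_simp
      _ ≤ 1 * (1 / x ^ 2) := by
          have : 1 / x ^ 6 ≤ 1 / x ^ 2 :=
            one_div_le_one_div_of_le (by positivity) (pow_le_pow_right₀ hx (by norm_num))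
          exact mul_le_mul (by norm_num) this (by positivity) (by norm_num)
      _ = 1 / x ^ 2 := one_mul _
  have t2 : 8 * ((32 * x ^ 5 + 1) ^ 2 * (4 * q ^ 2 / p)) ≤ 1 / x ^ 2 := by
    have h1 : (32 * x ^ 5 + 1) ^ 2 ≤ (33 * x ^ 5) ^ 2 :=
      pow_le_pow_left₀ (by positivity) (by linarith) 2
    have h2 : 4 * q ^ 2 / p ≤ 4 * (4096 / x ^ 12 / 10 ^ 12) := by
      have h3 : q ^ 2 / p ≤ 4096 / x ^ 12 / 10 ^ 12 := le_trans hq2p (by gcongr)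
      calc 4 * q ^ 2 / p = 4 * (q ^ 2 / p) := by ring
        _ ≤ _ := by gcongr
    calc 8 * ((32 * x ^ 5 + 1) ^ 2 * (4 * q ^ 2 / p))
        ≤ 8 * ((33 * x ^ 5) ^ 2 * (4 * (4096 / x ^ 12 / 10 ^ 12))) := by gcongr
      _ = (8 * 33 ^ 2 * 4 * 4096 / 10 ^ 12) * (1 / x ^ 2) := by
          field_simp
      _ ≤ 1 * (1 / x ^ 2) := by
          gcongr
          norm_num
      _ = 1 / x ^ 2 := one_mul _
  have t3 : 8 * ((32 * x ^ 5 + 1) ^ 2 * (1 - p) ^ (n ^ 5)) ≤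
      8712 * (x ^ 10 * Real.exp (-x)) := by
    have h1 : (32 * x ^ 5 + 1) ^ 2 ≤ (33 * x ^ 5) ^ 2 :=
      pow_le_pow_left₀ (by positivity) (by linarith) 2
    have h2 : (1 - p) ^ (n ^ 5) ≤ Real.exp (-x) := by
      refine le_trans (pow_one_sub_le hp1 (n ^ 5)) ?_
      rw [hL]
      exact Real.exp_le_exp.mpr (by linarith)
    calc 8 * ((32 * x ^ 5 + 1) ^ 2 * (1 - p) ^ (n ^ 5))
        ≤ 8 * ((33 * x ^ 5) ^ 2 * Real.exp (-x)) := by gcongr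
      _ = 8712 * (x ^ 10 * Real.exp (-x)) := by ring
  have t4 : 8 * ((32 * x ^ 5 + 1) ^ 2 * ((8 * x ^ 5 + 1) * (3 * x ^ 5 + 1) *
      ((1 - p / 2) ^ (n ^ 5) * (1 + 4 * q / p) ^ (8 * n ^ 5)))) ≤
      313632 * (x ^ 20 * Real.exp (-(x / 4))) := by
    have h1 : (32 * x ^ 5 + 1) ^ 2 ≤ (33 * x ^ 5) ^ 2 :=
      pow_le_pow_left₀ (by positivity) (by linarith) 2
    have h2 : 8 * x ^ 5 + 1 ≤ 9 * x ^ 5 := by linarith
    have h3 : 3 * x ^ 5 + 1 ≤ 4 * x ^ 5 := by linarith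
    have h4 : (1 - p / 2) ^ (n ^ 5) ≤ Real.exp (-(p / 2 * x ^ 5)) := by
      have := pow_one_sub_le (p := p / 2) (by linarith) (n ^ 5)
      rwa [hL] at this
    have h5 : (1 + 4 * q / p) ^ (8 * n ^ 5) ≤ Real.exp (p * x ^ 5 / 4) := by
      have h6 : 1 + 4 * q / p ≤ Real.exp (4 * q / p) := by
        have := Real.add_one_le_exp (4 * q / p)
        linarith
      have h7 := pow_le_pow_left₀ (by linarith : 0 ≤ 1 + 4 * q / p) h6 (8 * n ^ 5)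
      rw [← Real.exp_nat_mul] at h7
      refine le_trans h7 (Real.exp_le_exp.mpr ?_)
      push_cast
      rw [← hxd]
      calc 8 * x ^ 5 * (4 * q / p) ≤ 8 * x ^ 5 * (p / 10 ^ 5) := by gcongr
        _ ≤ p * x ^ 5 / 4 := by
          have : 0 ≤ p * x ^ 5 := by positivity
          nlinarith
    have h8 : (1 - p / 2) ^ (n ^ 5) * (1 + 4 * q / p) ^ (8 * n ^ 5) ≤ Real.exp (-(x / 4)) := by
      calc (1 - p / 2) ^ (n ^ 5) * (1 + 4 * q / p) ^ (8 * n ^ 5)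
          ≤ Real.exp (-(p / 2 * x ^ 5)) * Real.exp (p * x ^ 5 / 4) := by
            gcongr
        _ = Real.exp (-(p * x ^ 5 / 4)) := by
            rw [← Real.exp_add]
            congr 1
            ring
        _ ≤ Real.exp (-(x / 4)) := Real.exp_le_exp.mpr (by linarith)
    have h9 : 0 ≤ (1 - p / 2) ^ (n ^ 5) * (1 + 4 * q / p) ^ (8 * n ^ 5) := by
      have : 0 ≤ 1 - p / 2 := by linarith
      positivity
    calc 8 * ((32 * x ^ 5 + 1) ^ 2 * ((8 * x ^ 5 + 1) * (3 * x ^ 5 + 1) *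
          ((1 - p / 2) ^ (n ^ 5) * (1 + 4 * q / p) ^ (8 * n ^ 5))))
        ≤ 8 * ((33 * x ^ 5) ^ 2 * ((9 * x ^ 5) * (4 * x ^ 5) * Real.exp (-(x / 4)))) := by
          gcongr
      _ = 313632 * (x ^ 20 * Real.exp (-(x / 4))) := by ring
  have e2 : 2 / x ^ 2 = 1 / x ^ 2 + 1 / x ^ 2 := by ring
  rw [e2]
  linarith

lemma tendsto_bad : Tendsto (fun n : ℕ => 2 / (n : ℝ) ^ 2 +
    8712 * ((n : ℝ) ^ 10 * Real.exp (-n)) +
      313632 * ((n : ℝ) ^ 20 * Real.exp (-(n / 4)))) atTop (𝓝 0) := by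
  have h0 : Tendsto (fun n : ℕ => (n : ℝ)) atTop atTop := tendsto_natCast_atTop_atTop
  have h1 : Tendsto (fun n : ℕ => 2 / (n : ℝ) ^ 2) atTop (𝓝 0) := by
    have := (tendsto_const_nhds (x := (2 : ℝ))).div_atTop
      ((tendsto_pow_atTop (two_ne_zero)).comp h0)
    exact this
  have h2 : Tendsto (fun n : ℕ => (n : ℝ) ^ 10 * Real.exp (-n)) atTop (𝓝 0) :=
    (Real.tendsto_pow_mul_exp_neg_atTop_nhds_zero 10).comp h0
  have h3 : Tendsto (fun n : ℕ => (n : ℝ) ^ 20 * Real.exp (-(n / 4))) atTop (𝓝 0) := by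
    have h4 : Tendsto (fun n : ℕ => (n : ℝ) / 4) atTop atTop := h0.atTop_div_const (by norm_num)
    have h5 := ((Real.tendsto_pow_mul_exp_neg_atTop_nhds_zero 20).comp h4).const_mul
      ((4 : ℝ) ^ 20)
    rw [mul_zero] at h5
    refine h5.congr fun n => ?_
    simp only [Function.comp]
    ring
  have := (h1.add (h2.const_mul 8712)).add (h3.const_mul 313632)
  simpa using this

lemma one_div_factorial_le (r : ℕ) : ((r : ℝ) ^ r) / (r.factorial : ℝ) ≤ Real.exp r :=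
  Real.pow_div_factorial_le_exp r (by positivity) r

lemma choose_bound (L : ℕ) (hL : 1 ≤ L) :
    ((((4 * (64 * L)) ^ 2).choose (64 * L) : ℕ) : ℝ) ≤ (3072 * L : ℝ) ^ (64 * L) := by
  have hL0 : (0 : ℝ) < L := by exact_mod_cast hL
  set r := 64 * L with hr
  have hr0 : (0 : ℝ) < r := by
    rw [hr]; push_cast; positivity
  have h1 : ((((4 * r) ^ 2).choose r : ℕ) : ℝ) ≤ (((4 * r) ^ 2 : ℕ) : ℝ) ^ r / (r.factorial : ℝ) :=
    Nat.choose_le_pow_div r ((4 * r) ^ 2)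
  have h2 := one_div_factorial_le r
  have hf : (0 : ℝ) < r.factorial := by exact_mod_cast Nat.factorial_pos r
  have h3 : 1 / (r.factorial : ℝ) ≤ Real.exp r / (r : ℝ) ^ r := by
    rw [div_le_div_iff₀ hf (by positivity)]
    rw [div_le_iff₀ hf] at h2
    linarith
  have h4 : Real.exp r ≤ 3 ^ r := by
    have := Real.exp_one_lt_d9
    have h5 : Real.exp 1 ≤ 3 := by linarith
    calc Real.exp r = Real.exp 1 ^ r := by rw [← Real.exp_nat_mul, mul_one]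
      _ ≤ 3 ^ r := pow_le_pow_left₀ (Real.exp_pos 1).le h5 r
  calc ((((4 * r) ^ 2).choose r : ℕ) : ℝ) ≤ (((4 * r) ^ 2 : ℕ) : ℝ) ^ r / (r.factorial : ℝ) := h1
    _ = (((4 * r) ^ 2 : ℕ) : ℝ) ^ r * (1 / (r.factorial : ℝ)) := by ring
    _ ≤ (((4 * r) ^ 2 : ℕ) : ℝ) ^ r * (3 ^ r / (r : ℝ) ^ r) :=
        mul_le_mul_of_nonneg_left (le_trans h3 (by gcongr)) (by positivity)
    _ = (3072 * L : ℝ) ^ r := by
        rw [← div_pow, ← mul_pow]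
        congr 1
        push_cast
        have : (r : ℝ) = 64 * L := by rw [hr]; push_cast; rfl
        rw [this]
        field_simp
        norm_num

lemma many_le {n : ℕ} {p q : ℝ} (h : Par n p q) :
    (2 * rad' (n ^ 5) (73 * n ^ (32 * n ^ 5 + 5)) + 512 * (n ^ 5 : ℕ) + 1 : ℝ) ^ 2 *
        (((4 * (64 * n ^ 5)) ^ 2).choose (64 * n ^ 5) * q ^ (64 * n ^ 5)) ≤ 10 ^ 18 / n := by
  have hx := h.x1
  have hn := h.hn
  have hp := h.p0
  have hq := h.q0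
  set L := n ^ 5 with hLd
  have hL1 : 1 ≤ L := Nat.one_le_pow _ _ hn
  set M := n ^ (32 * L + 5) with hMd
  have hM1 : 1 ≤ M := Nat.one_le_pow _ _ hn
  have hL1' : (1 : ℝ) ≤ L := by exact_mod_cast hL1
  have hM1' : (1 : ℝ) ≤ M := by exact_mod_cast hM1
  -- the radius
  have hrad : (rad L (73 * M) : ℝ) ≤ 492 * (L * M) := by
    unfold rad
    push_cast
    nlinarith [mul_le_mul hL1' hM1' (by norm_num) (by linarith)]
  have hrad1 : (L : ℝ) ≤ rad L (73 * M) := by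
    unfold rad
    push_cast
    nlinarith [mul_le_mul hL1' hM1' (by norm_num) (by linarith)]
  set ρ : ℝ := (rad L (73 * M) : ℝ) with hρ
  have hρ1 : 1 ≤ ρ := le_trans hL1' hrad1
  have hrad' : (rad' L (73 * M) : ℝ) ≤ 11 * ρ ^ 2 := by
    unfold rad'
    push_cast
    rw [← hρ]
    nlinarith
  have h1 : (2 * rad' L (73 * M) + 512 * L + 1 : ℝ) ≤ 535 * (492 * (L * M)) ^ 2 := by
    have h2 : ρ ^ 2 ≤ (492 * (L * M)) ^ 2 := pow_le_pow_left₀ (by linarith) hrad 2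
    have h3 : (L : ℝ) ≤ ρ ^ 2 := by nlinarith
    have h4 : 1 ≤ ρ ^ 2 := by nlinarith
    linarith
  have h2 : (2 * rad' L (73 * M) + 512 * L + 1 : ℝ) ^ 2 ≤ 10 ^ 18 * (L ^ 4 * M ^ 4) := by
    have h3 : (2 * rad' L (73 * M) + 512 * L + 1 : ℝ) ^ 2 ≤ (535 * (492 * (L * M)) ^ 2) ^ 2 :=
      pow_le_pow_left₀ (by positivity) h1 2
    refine le_trans h3 ?_
    have h4 : (535 * (492 * ((L : ℝ) * M)) ^ 2) ^ 2 = (535 ^ 2 * 492 ^ 4) * (L ^ 4 * M ^ 4) := by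
      ring
    rw [h4]
    gcongr
    norm_num
  -- the binomial coefficient
  have h3 := choose_bound L hL1
  have hLx : (L : ℝ) = (n : ℝ) ^ 5 := by rw [hLd]; push_cast; rfl
  have h4 : 3072 * (L : ℝ) * q ≤ 1 / (n : ℝ) ^ 3 := by
    have h5 : q ≤ 256 / (n : ℝ) ^ 8 / 10 ^ 6 := by
      refine le_trans h.qp ?_
      have h6 : p ^ 2 ≤ (16 / (n : ℝ) ^ 4) ^ 2 := pow_le_pow_left₀ hp.le h.hi 2
      have h7 : (16 / (n : ℝ) ^ 4) ^ 2 = 256 / (n : ℝ) ^ 8 := by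
        rw [div_pow, ← pow_mul]
        norm_num
      rw [h7] at h6
      gcongr
    calc 3072 * (L : ℝ) * q ≤ 3072 * (n : ℝ) ^ 5 * (256 / (n : ℝ) ^ 8 / 10 ^ 6) := by
          rw [hLx]
          gcongr
      _ = (3072 * 256 / 10 ^ 6) * (1 / (n : ℝ) ^ 3) := by field_simp
      _ ≤ 1 * (1 / (n : ℝ) ^ 3) := by
          gcongr
          norm_num
      _ = _ := one_mul _
  have h5 : ((((4 * (64 * L)) ^ 2).choose (64 * L) : ℕ) : ℝ) * q ^ (64 * L) ≤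
      (1 / (n : ℝ) ^ 3) ^ (64 * L) := by
    calc ((((4 * (64 * L)) ^ 2).choose (64 * L) : ℕ) : ℝ) * q ^ (64 * L)
        ≤ (3072 * L : ℝ) ^ (64 * L) * q ^ (64 * L) := by gcongr
      _ = (3072 * (L : ℝ) * q) ^ (64 * L) := by rw [← mul_pow]
      _ ≤ _ := pow_le_pow_left₀ (by positivity) h4 _
  have h6 : ((L : ℝ) ^ 4 * (M : ℝ) ^ 4) = (n : ℝ) ^ (128 * L + 40) := by
    rw [hLx, hMd]
    push_cast
    rw [← pow_mul, ← pow_mul, ← pow_add]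
    congr 1
    ring
  have h7 : (1 / (n : ℝ) ^ 3) ^ (64 * L) = 1 / (n : ℝ) ^ (192 * L) := by
    rw [div_pow, one_pow, ← pow_mul]
    congr 2
    ring
  calc (2 * rad' L (73 * M) + 512 * L + 1 : ℝ) ^ 2 *
        (((4 * (64 * L)) ^ 2).choose (64 * L) * q ^ (64 * L))
      ≤ 10 ^ 18 * (L ^ 4 * M ^ 4) * (1 / (n : ℝ) ^ 3) ^ (64 * L) := by gcongr
    _ = 10 ^ 18 * ((n : ℝ) ^ (128 * L + 40) / (n : ℝ) ^ (192 * L)) := by
        rw [h6, h7]; ring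
    _ ≤ 10 ^ 18 * (1 / n) := by
        refine mul_le_mul_of_nonneg_left ?_ (by norm_num)
        rw [div_le_div_iff₀ (by positivity) (by linarith), one_mul, ← pow_succ]
        exact pow_le_pow_right₀ hx (by omega)
    _ = 10 ^ 18 / n := by ring

lemma aux_pow {x : ℝ} (hx : 0 < x) (k : ℕ) : (1 / x ^ 4) ^ k * x ^ (4 * k + 1) = x := by
  rw [div_pow, one_pow, ← pow_mul, pow_succ]
  have hy : x ^ (4 * k) ≠ 0 := by positivity
  field_simp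

lemma nuc_le {n : ℕ} {p q : ℝ} (h : Par n p q) :
    (1 - p ^ (8 * n ^ 5 + 1)) ^ (n ^ (32 * n ^ 5 + 5)) ≤ Real.exp (-n) := by
  have hx := h.x1
  have hp := h.p0
  have h1 : p ^ (8 * n ^ 5 + 1) ≤ 1 := pow_le_one₀ hp.le h.p1
  refine le_trans (pow_one_sub_le h1 _) (Real.exp_le_exp.mpr ?_)
  have h2 : (1 / (n : ℝ) ^ 4) ^ (8 * n ^ 5 + 1) ≤ p ^ (8 * n ^ 5 + 1) :=
    pow_le_pow_left₀ (by positivity) h.lo _
  have h3 : (n : ℝ) ≤ p ^ (8 * n ^ 5 + 1) * ((n ^ (32 * n ^ 5 + 5) : ℕ) : ℝ) := by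
    calc (n : ℝ) = (1 / (n : ℝ) ^ 4) ^ (8 * n ^ 5 + 1) * ((n ^ (32 * n ^ 5 + 5) : ℕ) : ℝ) := by
          have e : 32 * n ^ 5 + 5 = 4 * (8 * n ^ 5 + 1) + 1 := by ring
          rw [e, Nat.cast_pow]
          exact (aux_pow (by linarith) _).symm
      _ ≤ _ := by gcongr
  linarith

/-- The probability of failure is small. -/
theorem fail_small {θ : ℝ} (hθ : 0 < θ) (hθ1 : θ ≤ 1 / 6) : ∃ n0 : ℕ, ∀ n ≥ n0, ∀ p q : ℝ,
    Par n p q → ∀ {Ω : Type} [MeasurableSpace Ω] (P : Measure Ω) (X : ℤ × ℤ → Ω → Fin 3),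
    IID P X p q → pr P X (fun c => ¬ ∃ t, update^[t] c (0, 0) = 1) ≤ q + 47 * θ := by
  have h0 : Tendsto (fun n : ℕ => (n : ℝ)) atTop atTop := tendsto_natCast_atTop_atTop
  have e1 : ∀ᶠ n : ℕ in atTop, 2 / (n : ℝ) ^ 2 + 8712 * ((n : ℝ) ^ 10 * Real.exp (-n)) +
      313632 * ((n : ℝ) ^ 20 * Real.exp (-(n / 4))) < θ ^ (2 * 5329) :=
    tendsto_bad.eventually_lt_const (by positivity)
  have e2 : ∀ᶠ n : ℕ in atTop, 10 ^ 18 / (n : ℝ) < θ := by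
    have : Tendsto (fun n : ℕ => 10 ^ 18 / (n : ℝ)) atTop (𝓝 0) :=
      (tendsto_const_nhds (x := (10 ^ 18 : ℝ))).div_atTop h0
    exact this.eventually_lt_const hθ
  have e3 : ∀ᶠ n : ℕ in atTop, Real.exp (-(n : ℝ)) < θ := by
    have : Tendsto (fun n : ℕ => Real.exp (-(n : ℝ))) atTop (𝓝 0) :=
      (Real.tendsto_exp_neg_atTop_nhds_zero).comp h0
    exact this.eventually_lt_const hθ
  have e4 : ∀ᶠ m : ℕ in atTop, ((m : ℝ) + 1) * (2 * (1 / 2) ^ m) < θ := by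
    have h1 : Tendsto (fun m : ℕ => ((m : ℝ) ^ 1 * (1 / 2) ^ m)) atTop (𝓝 0) :=
      tendsto_pow_const_mul_const_pow_of_lt_one 1 (by norm_num) (by norm_num)
    have h2 : Tendsto (fun m : ℕ => ((1 / 2 : ℝ) ^ m)) atTop (𝓝 0) :=
      tendsto_pow_atTop_nhds_zero_of_lt_one (by norm_num) (by norm_num)
    have h3 := (h1.add h2).const_mul 2
    rw [add_zero, mul_zero] at h3
    have h4 := h3.eventually_lt_const hθ
    filter_upwards [h4] with m hm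
    calc ((m : ℝ) + 1) * (2 * (1 / 2) ^ m) = 2 * ((m : ℝ) ^ 1 * (1 / 2) ^ m + (1 / 2) ^ m) := by
          ring
      _ < θ := hm
  obtain ⟨m0, hm0⟩ := eventually_atTop.mp e4
  obtain ⟨n0, hn0⟩ := eventually_atTop.mp (e1.and (e2.and e3))
  refine ⟨max n0 m0, fun n hn p q h Ω _ P X hX => ?_⟩
  obtain ⟨a1, a2, a3⟩ := hn0 n (le_trans (le_max_left _ _) hn)
  have hx := h.x1
  have hL1 : 1 ≤ n ^ 5 := Nat.one_le_pow _ _ h.hn
  have hM1 : 1 ≤ n ^ (32 * n ^ 5 + 5) := Nat.one_le_pow _ _ h.hn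
  have hm : m0 ≤ 73 * n ^ (32 * n ^ 5 + 5) := by
    have h1 : n ≤ n ^ (32 * n ^ 5 + 5) := by
      calc n = n ^ 1 := (pow_one n).symm
        _ ≤ n ^ (32 * n ^ 5 + 5) := Nat.pow_le_pow_right h.hn (by omega)
    have h2 : m0 ≤ n := le_trans (le_max_right _ _) hn
    omega
  have a4 := hm0 _ hm
  push_cast at a4
  have hmain := hX.pr_fail h.p0 hL1 hM1 hθ hθ1 (le_trans (bad_le h) a1.le)
  have b1 := many_le h
  have b2 := nuc_le h
  have b3 : θ ^ 10658 ≤ θ := by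
    calc θ ^ 10658 ≤ θ ^ 1 := pow_le_pow_of_le_one hθ.le (by linarith) (by norm_num)
      _ = θ := pow_one θ
  push_cast at hmain b1
  linarith

end Pool.Agent.Lib.MP_daac75_pr
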