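import Pool.Agent.Lib.MP_daac75_pr.BadP

/-!
# Lipschitz percolation
-/

open MeasureTheory ProbabilityTheory Finset Filter

namespace Pool.Agent.Lib.MP_daac75_pr

/-- `v` can be reached from height at most zero in `l` steps, where a step goes upwards to a
site of `B`, or downwards to the left or right to any site -/
inductive RL (B : ℤ × ℤ → Prop) : ℕ → ℤ × ℤ → Prop
  | base {v : ℤ × ℤ} : v.2 ≤ 0 → RL B 0 v
  | up {l : ℕ} {v : ℤ × ℤ} : B v → RL B l (v.1, v.2 - 1) → RL B (l + 1) v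
  | dr {l : ℕ} {v : ℤ × ℤ} : RL B l (v.1 - 1, v.2 + 1) → RL B (l + 1) v
  | dl {l : ℕ} {v : ℤ × ℤ} : RL B l (v.1 + 1, v.2 + 1) → RL B (l + 1) v

/-- the same with distinct sites of `B`, outside of `F` -/
inductive SA (B : ℤ × ℤ → Prop) : ℕ → ℤ × ℤ → Finset (ℤ × ℤ) → Prop
  | base {v : ℤ × ℤ} {F : Finset (ℤ × ℤ)} : v.2 ≤ 0 → SA B 0 v F
  | up {l : ℕ} {v : ℤ × ℤ} {F : Finset (ℤ × ℤ)} : B v → v ∉ F →
      SA B l (v.1, v.2 - 1) (insert v F) → SA B (l + 1) v F
  | dr {l : ℕ} {v : ℤ × ℤ} {F : Finset (ℤ × ℤ)} : SA B l (v.1 - 1, v.2 + 1) F → SA B (l + 1) v F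
  | dl {l : ℕ} {v : ℤ × ℤ} {F : Finset (ℤ × ℤ)} : SA B l (v.1 + 1, v.2 + 1) F → SA B (l + 1) v F

variable {B : ℤ × ℤ → Prop}

lemma rl_height {l : ℕ} {v : ℤ × ℤ} (h : RL B l v) : v.2 ≤ l := by
  induction h with
  | base h => simpa using h
  | up _ _ ih => push_cast; simp only at ih; omega
  | dr _ ih => push_cast; simp only at ih; omega
  | dl _ ih => push_cast; simp only at ih; omega

lemma sa_of_rl {l : ℕ} {v : ℤ × ℤ} (h : RL B l v) (hmin : ∀ m < l, ¬ RL B m v) :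
    ∀ F : Finset (ℤ × ℤ), (∀ w ∈ F, ∀ m ≤ l, ¬ RL B m w) → SA B l v F := by
  induction h with
  | base h => intro F _; exact SA.base h
  | @up l v hB hr ih =>
    intro F hF
    have hmin' : ∀ m < l, ¬ RL B m (v.1, v.2 - 1) := by
      intro m hm hcon
      exact hmin (m + 1) (by omega) (RL.up hB hcon)
    refine SA.up hB ?_ (ih hmin' _ ?_)
    · intro hv
      exact hF v hv (l + 1) le_rfl (RL.up hB hr)
    · intro w hw m hm
      rw [Finset.mem_insert] at hw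
      rcases hw with rfl | hw
      · exact hmin m (by omega)
      · exact hF w hw m (by omega)
  | @dr l v hr ih =>
    intro F hF
    refine SA.dr (ih ?_ F fun w hw m hm => hF w hw m (by omega))
    intro m hm hcon
    exact hmin (m + 1) (by omega) (RL.dr hcon)
  | @dl l v hr ih =>
    intro F hF
    refine SA.dl (ih ?_ F fun w hw m hm => hF w hw m (by omega))
    intro m hm hcon
    exact hmin (m + 1) (by omega) (RL.dl hcon)

/-- `v` can be reached -/
def Rch (B : ℤ × ℤ → Prop) (v : ℤ × ℤ) : Prop := ∃ l, RL B l v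

lemma rch_sa {v : ℤ × ℤ} (h : Rch B v) : ∃ l : ℕ, v.2 ≤ l ∧ SA B l v ∅ := by
  classical
  refine ⟨Nat.find h, rl_height (Nat.find_spec h), sa_of_rl (Nat.find_spec h) ?_ ∅ ?_⟩
  · intro m hm
    exact Nat.find_min h hm
  · intro w hw
    exact absurd hw (Finset.notMem_empty w)

lemma rch_base {v : ℤ × ℤ} (h : v.2 ≤ 0) : Rch B v := ⟨0, RL.base h⟩

lemma rch_up {v : ℤ × ℤ} (hB : B v) (h : Rch B (v.1, v.2 - 1)) : Rch B v := by
  obtain ⟨l, hl⟩ := h
  exact ⟨l + 1, RL.up hB hl⟩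

lemma rch_dr {v : ℤ × ℤ} (h : Rch B (v.1 - 1, v.2 + 1)) : Rch B v := by
  obtain ⟨l, hl⟩ := h
  exact ⟨l + 1, RL.dr hl⟩

lemma rch_dl {v : ℤ × ℤ} (h : Rch B (v.1 + 1, v.2 + 1)) : Rch B v := by
  obtain ⟨l, hl⟩ := h
  exact ⟨l + 1, RL.dl hl⟩

/-- The Lipschitz path: a property which spreads from good sites to their neighbours spreads along
the path. -/
lemma lip_path {Fl : ℤ × ℤ → Prop} {B : ℤ × ℤ → Prop} {Y : ℤ} (hY : 1 ≤ Y) {X : ℕ}
    (hfin : ∀ i : ℤ, 0 ≤ i → i ≤ X → ¬ Rch B (i, Y))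
    (hspread : ∀ i j : ℤ, 0 ≤ i → i ≤ X → 1 ≤ j → j ≤ Y → ¬ B (i, j) → Fl (i, j) →
      ∀ i' j', |i' - i| ≤ 1 → |j' - j| ≤ 1 → Fl (i', j'))
    (h0 : ¬ Rch B (0, 1)) (hX : ¬ Rch B (X, 1)) (hFl : Fl (X, 1)) : Fl (0, 1) := by
  -- the height of the path
  have hex : ∀ i : ℤ, 0 ≤ i → i ≤ X → ∃ j : ℤ, 1 ≤ j ∧ j ≤ Y ∧ ¬ Rch B (i, j) ∧
      ∀ j' < j, Rch B (i, j') := by
    intro i h1 h2
    obtain ⟨j, ⟨h3, h4⟩, h5⟩ := Int.exists_least_of_bdd (P := fun j => 1 ≤ j ∧ ¬ Rch B (i, j))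
      ⟨1, fun z hz => hz.1⟩ ⟨Y, hY, hfin i h1 h2⟩
    refine ⟨j, h3, h5 Y ⟨hY, hfin i h1 h2⟩, h4, ?_⟩
    intro j' hj'
    by_contra hcon
    rcases le_or_gt 1 j' with h | h
    · exact absurd (h5 j' ⟨h, hcon⟩) (by omega)
    · exact hcon (rch_base (by simp only; omega))
  have key : ∀ n : ℕ, n ≤ X → ∀ j : ℤ, ¬ Rch B (((X - n : ℕ) : ℤ), j) →
      (∀ j' < j, Rch B (((X - n : ℕ) : ℤ), j')) → Fl (((X - n : ℕ) : ℤ), j) := by
    intro n
    induction n with
    | zero =>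
      intro _ j hj1 hj2
      rw [Nat.sub_zero] at hj1 hj2 ⊢
      have : j = 1 := by
        rcases lt_trichotomy j 1 with h | h | h
        · exact absurd (rch_base (by simp only; omega)) hj1
        · exact h
        · exact absurd (hj2 1 h) hX
      rw [this]
      exact hFl
    | succ n ih =>
      intro hn j hj1 hj2
      obtain ⟨j0, h1, h2, h3, h4⟩ := hex ((X - n : ℕ) : ℤ) (by omega) (by omega)
      have hF := ih (by omega) j0 h3 h4
      have e : ((X - (n + 1) : ℕ) : ℤ) = ((X - n : ℕ) : ℤ) - 1 := by omega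
      rw [e] at hj1 hj2 ⊢
      have hgood : ¬ B (((X - n : ℕ) : ℤ), j0) := by
        intro hB
        exact h3 (rch_up hB (h4 _ (by simp)))
      refine hspread _ _ (by omega) (by omega) h1 h2 hgood hF _ _ ?_ ?_
      · rw [abs_le]; constructor <;> omega
      · have a1 : j0 - 1 ≤ j := by
          by_contra hcon
          apply hj1
          refine rch_dl ?_
          have := h4 (j + 1) (by omega)
          simpa using this
        have a2 : j - 1 ≤ j0 := by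
          by_contra hcon
          apply h3
          refine rch_dr ?_
          have := hj2 (j0 + 1) (by omega)
          simpa using this
        rw [abs_le]; constructor <;> omega
  have := key X le_rfl 1 (by simpa using h0) (by
    intro j' hj'
    exact rch_base (by simp only; omega))
  simpa using this

variable {Ω : Type*} [MeasurableSpace Ω] {P : Measure Ω} {X : ℤ × ℤ → Ω → Fin 3} {p q : ℝ}

lemma IID.pr_sa (hX : IID P X p q) {Bc : (ℤ × ℤ → Fin 3) → ℤ × ℤ → Prop} {θ : ℝ} (hθ : 0 < θ)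
    (hθ1 : θ ≤ 1) (hB : ∀ F : Finset (ℤ × ℤ), pr P X (fun c => ∀ v ∈ F, Bc c v) ≤ θ ^ (2 * F.card))
    (l : ℕ) (v : ℤ × ℤ) (F : Finset (ℤ × ℤ)) :
    pr P X (fun c => SA (Bc c) l v F ∧ ∀ w ∈ F, Bc c w) ≤
      3 ^ l * θ ^ (2 * (F.card : ℤ) + l + v.2) := by
  induction l generalizing v F with
  | zero =>
    rcases le_or_gt v.2 0 with h | h
    · have h1 : pr P X (fun c => SA (Bc c) 0 v F ∧ ∀ w ∈ F, Bc c w) ≤ θ ^ (2 * F.card) :=
        le_trans (hX.pr_mono fun c hc => hc.2) (hB F)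
      refine le_trans h1 ?_
      rw [pow_zero, one_mul, ← zpow_natCast]
      refine zpow_le_zpow_right_of_le_one₀ hθ hθ1 ?_
      push_cast
      omega
    · have h1 : pr P X (fun c => SA (Bc c) 0 v F ∧ ∀ w ∈ F, Bc c w) = 0 := by
        rw [← pr_false (P := P) (X := X)]
        refine IID.pr_congr fun c => ?_
        constructor
        · rintro ⟨hc, -⟩
          cases hc with
          | base h' => omega
        · exact False.elim
      rw [h1]
      positivity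
  | succ l ih =>
    have h1 : ∀ c, (SA (Bc c) (l + 1) v F ∧ ∀ w ∈ F, Bc c w) →
        ((v ∉ F ∧ SA (Bc c) l (v.1, v.2 - 1) (insert v F) ∧ ∀ w ∈ insert v F, Bc c w) ∨
          (SA (Bc c) l (v.1 - 1, v.2 + 1) F ∧ ∀ w ∈ F, Bc c w) ∨
          (SA (Bc c) l (v.1 + 1, v.2 + 1) F ∧ ∀ w ∈ F, Bc c w)) := by
      rintro c ⟨hc, hF⟩
      cases hc with
      | up h2 h3 h4 =>
        refine Or.inl ⟨h3, h4, ?_⟩
        intro w hw
        rw [Finset.mem_insert] at hw
        rcases hw with rfl | hw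
        · exact h2
        · exact hF w hw
      | dr h2 => exact Or.inr (Or.inl ⟨h2, hF⟩)
      | dl h2 => exact Or.inr (Or.inr ⟨h2, hF⟩)
    refine le_trans (hX.pr_mono h1) (le_trans pr_or ?_)
    have h2 : pr P X (fun c => v ∉ F ∧ SA (Bc c) l (v.1, v.2 - 1) (insert v F) ∧
        ∀ w ∈ insert v F, Bc c w) ≤ 3 ^ l * θ ^ (2 * (F.card : ℤ) + (l + 1 : ℕ) + v.2) := by
      by_cases hv : v ∈ F
      · have : pr P X (fun c => v ∉ F ∧ SA (Bc c) l (v.1, v.2 - 1) (insert v F) ∧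
            ∀ w ∈ insert v F, Bc c w) = 0 := by
          rw [← pr_false (P := P) (X := X)]
          refine IID.pr_congr fun c => ?_
          constructor
          · rintro ⟨hc, -⟩
            exact hc hv
          · exact False.elim
        rw [this]
        positivity
      · have h3 := ih (v.1, v.2 - 1) (insert v F)
        refine le_trans (hX.pr_mono fun c hc => hc.2) (le_trans h3 ?_)
        rw [Finset.card_insert_of_notMem hv]
        apply le_of_eq
        congr 2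
        push_cast
        ring
    have h3 := ih (v.1 - 1, v.2 + 1) F
    have h4 := ih (v.1 + 1, v.2 + 1) F
    have e : 2 * (F.card : ℤ) + l + (v.2 + 1) = 2 * (F.card : ℤ) + (l + 1 : ℕ) + v.2 := by
      push_cast
      ring
    simp only [e] at h3 h4
    have h5 := le_trans (pr_or (P := P) (X := X)
      (Q := fun c => SA (Bc c) l (v.1 - 1, v.2 + 1) F ∧ ∀ w ∈ F, Bc c w)
      (Q' := fun c => SA (Bc c) l (v.1 + 1, v.2 + 1) F ∧ ∀ w ∈ F, Bc c w)) (add_le_add h3 h4)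
    refine le_trans (add_le_add h2 h5) ?_
    rw [pow_succ]
    apply le_of_eq
    ring

lemma IID.pr_rch (hX : IID P X p q) {Bc : (ℤ × ℤ → Fin 3) → ℤ × ℤ → Prop} {θ : ℝ} (hθ : 0 < θ)
    (hθ1 : θ ≤ 1 / 6)
    (hB : ∀ F : Finset (ℤ × ℤ), pr P X (fun c => ∀ v ∈ F, Bc c v) ≤ θ ^ (2 * F.card))
    (i : ℤ) (h : ℕ) :
    pr P X (fun c => Rch (Bc c) (i, h)) ≤ 2 * (1 / 2) ^ h * θ ^ h := by
  have hpb := hX.prob
  set E : ℕ → Set Ω := fun K => {ω | ∃ l ∈ Finset.range K, SA (Bc fun x => X x ω) (h + l) (i, h) ∅}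
    with hE
  have hmono : Monotone E := by
    intro K K' hK ω hω
    obtain ⟨l, hl, h1⟩ := hω
    exact ⟨l, Finset.mem_range.mpr (lt_of_lt_of_le (Finset.mem_range.mp hl) hK), h1⟩
  have hbound : ∀ K, P.real (E K) ≤ 2 * (1 / 2) ^ h * θ ^ h := by
    intro K
    refine le_trans (pr_exists (P := P) (X := X) (Finset.range K)
      (fun l c => SA (Bc c) (h + l) (i, h) ∅)) ?_
    have h1 : ∀ l ∈ Finset.range K, pr P X (fun c => SA (Bc c) (h + l) (i, h) ∅) ≤
        (1 / 2) ^ h * θ ^ h * (1 / 2) ^ l := by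
      intro l _
      have h2 := hX.pr_sa hθ (by linarith) hB (h + l) (i, h) ∅
      have h3 : pr P X (fun c => SA (Bc c) (h + l) (i, h) ∅) =
          pr P X (fun c => SA (Bc c) (h + l) (i, h) ∅ ∧ ∀ w ∈ (∅ : Finset (ℤ × ℤ)), Bc c w) := by
        refine IID.pr_congr fun c => ?_
        simp
      rw [h3]
      refine le_trans h2 ?_
      have e : (2 * ((∅ : Finset (ℤ × ℤ)).card : ℤ) + ((h + l : ℕ) : ℤ) + (h : ℤ)) =
          ((h + l + h : ℕ) : ℤ) := by
        simp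
      simp only [e]
      rw [zpow_natCast, pow_add θ (h + l) h, ← mul_assoc, ← mul_pow]
      have h4 : (3 * θ) ^ (h + l) ≤ (1 / 2) ^ (h + l) :=
        pow_le_pow_left₀ (by positivity) (by linarith) _
      calc (3 * θ) ^ (h + l) * θ ^ h ≤ (1 / 2) ^ (h + l) * θ ^ h := by gcongr
        _ = _ := by rw [pow_add]; ring
    refine le_trans (Finset.sum_le_sum h1) ?_
    rw [← Finset.mul_sum]
    have h2 := sum_geom_le (p := 1 / 2) (by norm_num) (by norm_num) K
    have e : (1 : ℝ) - 1 / 2 = 1 / 2 := by norm_num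
    rw [e] at h2
    calc (1 / 2 : ℝ) ^ h * θ ^ h * ∑ l ∈ Finset.range K, (1 / 2 : ℝ) ^ l
        ≤ (1 / 2 : ℝ) ^ h * θ ^ h * (1 / (1 / 2)) := by gcongr
      _ = _ := by ring
  have hlim := tendsto_measure_iUnion_atTop (μ := P) hmono
  have hlim2 : Tendsto (fun K => P.real (E K)) atTop (nhds (P.real (⋃ K, E K))) :=
    (ENNReal.tendsto_toReal (measure_ne_top _ _)).comp hlim
  have h1 : P.real (⋃ K, E K) ≤ 2 * (1 / 2) ^ h * θ ^ h :=
    le_of_tendsto' hlim2 hbound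
  refine le_trans ?_ h1
  unfold pr
  refine measureReal_mono ?_
  intro ω hω
  obtain ⟨l, hl1, hl2⟩ := rch_sa hω
  simp only at hl1
  rw [Set.mem_iUnion]
  refine ⟨l - h + 1, l - h, Finset.mem_range.mpr (by omega), ?_⟩
  have e : h + (l - h) = l := by omega
  rw [e]
  exact hl2

/-- the centre of a block -/
def ctr (L : ℕ) (v : ℤ × ℤ) : ℤ × ℤ := (4 * L * v.1, 4 * L * v.2)

lemma ball_disjoint {L : ℕ} (hL : 1 ≤ L) {v w : ℤ × ℤ}
    (h : 73 ≤ |v.1 - w.1| ∨ 73 ≤ |v.2 - w.2|) :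
    Disjoint (ball (ctr L v) (144 * L)) (ball (ctr L w) (144 * L)) := by
  have hL' : (1 : ℤ) ≤ L := by exact_mod_cast hL
  rw [Finset.disjoint_left]
  intro x hx hx'
  rw [mem_ball] at hx hx'
  unfold ctr at hx hx'
  simp only at hx hx'
  push_cast at hx hx'
  obtain ⟨⟨h1, h2⟩, h3, h4⟩ := hx
  obtain ⟨⟨h5, h6⟩, h7, h8⟩ := hx'
  rcases h with h | h
  · rcases le_abs.mp h with h | h <;> nlinarith
  · rcases le_abs.mp h with h | h <;> nlinarith

lemma IID.pr_bad_sep (hX : IID P X p q) {L : ℕ} (hL : 1 ≤ L) {η : ℝ} (hη0 : 0 ≤ η)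
    (hη : ∀ z, pr P X (fun c => ¬ GoodAt c L z) ≤ η) (F : Finset (ℤ × ℤ))
    (hF : ∀ v ∈ F, ∀ w ∈ F, v ≠ w → 73 ≤ |v.1 - w.1| ∨ 73 ≤ |v.2 - w.2|) :
    pr P X (fun c => ∀ v ∈ F, ¬ GoodAt c L (ctr L v)) ≤ η ^ F.card := by
  classical
  induction F using Finset.induction_on with
  | empty => simp only [Finset.card_empty, pow_zero]; exact hX.pr_le_one
  | @insert a F ha ih =>
    have ih' := ih fun v hv w hw => hF v (Finset.mem_insert_of_mem hv) w
      (Finset.mem_insert_of_mem hw)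
    have h1 := (dep_good hL (ctr L a)).not
    have h2 : Dep (F.biUnion fun v => ball (ctr L v) (144 * L))
        fun c => ∀ v ∈ F, ¬ GoodAt c L (ctr L v) := by
      intro c c' h hc v hv
      refine (dep_good hL (ctr L v)).not c c' ?_ (hc v hv)
      intro x hx
      exact h x (Finset.mem_biUnion.mpr ⟨v, hv, hx⟩)
    have h3 : Disjoint (ball (ctr L a) (144 * L)) (F.biUnion fun v => ball (ctr L v) (144 * L)) := by
      rw [Finset.disjoint_biUnion_right]
      intro v hv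
      refine ball_disjoint hL (hF a (Finset.mem_insert_self a F) v (Finset.mem_insert_of_mem hv) ?_)
      rintro rfl
      exact ha hv
    have h4 := hX.pr_and h1 h2 h3
    have h5 : pr P X (fun c => ∀ v ∈ insert a F, ¬ GoodAt c L (ctr L v)) =
        pr P X (fun c => ¬ GoodAt c L (ctr L a) ∧ ∀ v ∈ F, ¬ GoodAt c L (ctr L v)) := by
      refine IID.pr_congr fun c => ?_
      simp
    rw [h5, h4, Finset.card_insert_of_notMem ha, pow_succ, mul_comm]
    exact mul_le_mul ih' (hη _) pr_nonneg (by positivity)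

lemma exists_sep (F : Finset (ℤ × ℤ)) : ∃ F' : Finset (ℤ × ℤ), F' ⊆ F ∧
    F.card ≤ 5329 * F'.card ∧
    ∀ v ∈ F', ∀ w ∈ F', v ≠ w → 73 ≤ |v.1 - w.1| ∨ 73 ≤ |v.2 - w.2| := by
  classical
  set T : Finset (ℤ × ℤ) := Finset.Ico 0 73 ×ˢ Finset.Ico 0 73 with hT
  have hTc : T.card = 5329 := by
    rw [hT, Finset.card_product, Int.card_Ico]
    decide
  have hmaps : ∀ a ∈ F, ((a.1 % 73, a.2 % 73) : ℤ × ℤ) ∈ T := by
    intro a _
    rw [hT, Finset.mem_product, Finset.mem_Ico, Finset.mem_Ico]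
    simp only
    omega
  clear_value T
  rcases Finset.eq_empty_or_nonempty F with hF | hF
  · subst hF
    exact ⟨∅, subset_rfl, by simp, by simp⟩
  have hpos := Finset.card_pos.mpr hF
  have h0 : T.card * ((F.card - 1) / 5329) < F.card := by
    rw [hTc]
    generalize F.card = m at hpos ⊢
    have h1 := Nat.div_mul_le_self (m - 1) 5329
    rw [mul_comm]
    omega
  obtain ⟨y, hy, h1⟩ := Finset.exists_lt_card_fiber_of_mul_lt_card_of_maps_to hmaps h0
  refine ⟨F.filter fun a => ((a.1 % 73, a.2 % 73) : ℤ × ℤ) = y, Finset.filter_subset _ _, ?_, ?_⟩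
  · omega
  · intro v hv w hw hvw
    rw [Finset.mem_filter] at hv hw
    have e := hv.2.trans hw.2.symm
    rw [Prod.mk.injEq] at e
    by_contra hcon
    push Not at hcon
    rw [abs_lt, abs_lt] at hcon
    apply hvw
    ext <;> omega

lemma IID.pr_all_bad (hX : IID P X p q) {L : ℕ} (hL : 1 ≤ L) {θ : ℝ} (hθ : 0 < θ) (hθ1 : θ ≤ 1)
    (hη : ∀ z, pr P X (fun c => ¬ GoodAt c L z) ≤ θ ^ (2 * 5329)) (F : Finset (ℤ × ℤ)) :
    pr P X (fun c => ∀ v ∈ F, ¬ GoodAt c L (ctr L v)) ≤ θ ^ (2 * F.card) := by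
  obtain ⟨F', h1, h2, h3⟩ := exists_sep F
  calc pr P X (fun c => ∀ v ∈ F, ¬ GoodAt c L (ctr L v))
      ≤ pr P X (fun c => ∀ v ∈ F', ¬ GoodAt c L (ctr L v)) :=
        hX.pr_mono fun c hc v hv => hc v (h1 hv)
    _ ≤ (θ ^ (2 * 5329)) ^ F'.card := hX.pr_bad_sep hL (by positivity) hη F' h3
    _ = θ ^ (2 * 5329 * F'.card) := by rw [← pow_mul]
    _ ≤ θ ^ (2 * F.card) := pow_le_pow_of_le_one hθ.le hθ1 (by linarith)

end Pool.Agent.Lib.MP_daac75_pr
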